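import Mathlib

/-!
# An extension of a finite group `A` acting on `Z` in which exactly the `p`-subgroups with a fixed
point on `Z` lift

`Ex Z z0 R` consists of pairs `(q, a)` where `a : A` and `q : A → Z → R` is a matrix with row sums `0`
and column sums `κ a z = [z = z0] - [z = a • z0]`.
-/

namespace H197.LS

open Function

section ext

variable {A : Type} [Group A] [Fintype A] {Z : Type} [Fintype Z] [DecidableEq Z] [MulAction A Z]
  (z0 : Z) (R : Type) [CommRing R]

/-- the cocycle -/
def kap (a : A) (z : Z) : R := (if z = z0 then 1 else 0) - (if z = a • z0 then 1 else 0)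

omit [Fintype A] [Fintype Z] in
theorem kap_mul (a b : A) (z : Z) : kap z0 R (a * b) z = kap z0 R a z + kap z0 R b (a⁻¹ • z) := by
  unfold kap
  have h1 : (a⁻¹ • z = z0) ↔ (z = a • z0) := inv_smul_eq_iff
  have h2 : (a⁻¹ • z = b • z0) ↔ (z = (a * b) • z0) := by rw [inv_smul_eq_iff, mul_smul]
  simp only [h1, h2]
  ring

/-- the extension -/
@[ext]
structure Ex where
  q : A → Z → R
  a : A
  row : ∀ b, ∑ z, q b z = 0
  col : ∀ z, ∑ b, q b z = kap z0 R a z

namespace Ex

variable {z0 R}

theorem ext' {x y : Ex (A := A) z0 R} (h1 : x.a = y.a) (h2 : ∀ b z, x.q b z = y.q b z) : x = y :=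
  Ex.ext (funext fun b => funext fun z => h2 b z) h1

instance : Mul (Ex (A := A) z0 R) := ⟨fun x y =>
  { q := fun b z => x.q b z + y.q (x.a⁻¹ * b) (x.a⁻¹ • z)
    a := x.a * y.a
    row := by
      intro b
      rw [Finset.sum_add_distrib, x.row, zero_add]
      exact (Equiv.sum_comp (MulAction.toPerm x.a⁻¹) (fun z => y.q (x.a⁻¹ * b) z)).trans (y.row _)
    col := by
      intro z
      rw [Finset.sum_add_distrib, x.col, kap_mul]
      congr 1
      exact (Equiv.sum_comp (Equiv.mulLeft x.a⁻¹) (fun b => y.q b (x.a⁻¹ • z))).trans (y.col _) }⟩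

instance : One (Ex (A := A) z0 R) := ⟨
  { q := fun _ _ => 0
    a := 1
    row := by simp
    col := by simp [kap] }⟩

instance : Inv (Ex (A := A) z0 R) := ⟨fun x =>
  { q := fun b z => - x.q (x.a * b) (x.a • z)
    a := x.a⁻¹
    row := by
      intro b
      rw [Finset.sum_neg_distrib, neg_eq_zero]
      exact (Equiv.sum_comp (MulAction.toPerm x.a) (fun z => x.q (x.a * b) z)).trans (x.row _)
    col := by
      intro z
      rw [Finset.sum_neg_distrib]
      have h := (Equiv.sum_comp (Equiv.mulLeft x.a) (fun b => x.q b (x.a • z))).trans (x.col _)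
      have h2 := kap_mul z0 R x.a⁻¹ x.a z
      simp only [inv_mul_cancel, inv_inv] at h2
      have h3 : kap z0 R (1 : A) z = 0 := by simp [kap]
      rw [h3] at h2
      simp only [Equiv.coe_mulLeft] at h
      rw [h]
      linear_combination h2 }⟩

theorem mul_a (x y : Ex (A := A) z0 R) : (x * y).a = x.a * y.a := rfl
theorem mul_q (x y : Ex (A := A) z0 R) (b : A) (z : Z) :
    (x * y).q b z = x.q b z + y.q (x.a⁻¹ * b) (x.a⁻¹ • z) := rfl
theorem one_a : (1 : Ex (A := A) z0 R).a = 1 := rfl
theorem one_q (b : A) (z : Z) : (1 : Ex (A := A) z0 R).q b z = 0 := rfl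
theorem inv_a (x : Ex (A := A) z0 R) : (x⁻¹).a = x.a⁻¹ := rfl
theorem inv_q (x : Ex (A := A) z0 R) (b : A) (z : Z) : (x⁻¹).q b z = - x.q (x.a * b) (x.a • z) := rfl

instance : Group (Ex (A := A) z0 R) := Group.ofLeftAxioms
  (by
    intro x y w
    apply ext'
    · simp only [mul_a, mul_assoc]
    · intro b z
      simp only [mul_q, mul_a, mul_inv_rev, mul_smul, mul_assoc, add_assoc])
  (by
    intro x
    apply ext'
    · simp only [mul_a, one_a, one_mul]
    · intro b z
      simp only [mul_q, one_a, one_q, inv_one, one_mul, one_smul, zero_add])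
  (by
    intro x
    apply ext'
    · simp only [mul_a, one_a, inv_a, inv_mul_cancel]
    · intro b z
      simp only [mul_q, inv_a, inv_q, one_q, inv_inv, neg_add_cancel])

instance [Finite R] : Finite (Ex (A := A) z0 R) := by
  have : Function.Injective (fun g : Ex (A := A) z0 R => (g.q, g.a)) := by
    intro g h e
    simp only [Prod.mk.injEq] at e
    exact Ex.ext e.1 e.2
  exact Finite.of_injective _ this

variable (z0 R) in
/-- projection to `A` -/
def pr : Ex (A := A) z0 R →* A where
  toFun x := x.a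
  map_one' := rfl
  map_mul' _ _ := rfl

@[simp] theorem pr_apply (x : Ex (A := A) z0 R) : pr z0 R x = x.a := rfl

theorem pr_surj : Function.Surjective (pr (A := A) z0 R) := by
  classical
  intro a
  refine ⟨⟨fun b z => if b = 1 then kap z0 R a z else 0, a, ?_, ?_⟩, rfl⟩
  · intro b
    by_cases hb : b = 1
    · simp [hb, kap]
    · simp [hb]
  · intro z
    simp

variable (R) in
/-- the section over the stabiliser of the base point -/
def sec {F : Type} [Group F] (f : F →* A) (hf : ∀ x, f x • z0 = z0) : F →* Ex (A := A) z0 R where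
  toFun x :=
    { q := fun _ _ => 0
      a := f x
      row := by simp
      col := by intro z; simp [kap, hf] }
  map_one' := ext' (map_one f) (fun _ _ => rfl)
  map_mul' x y := ext' (map_mul f x y) (fun b z => by rw [mul_q]; simp)

/-- change of coefficients -/
def red {R' : Type} [CommRing R'] (f : R →+* R') : Ex (A := A) z0 R →* Ex (A := A) z0 R' where
  toFun x :=
    { q := fun b z => f (x.q b z)
      a := x.a
      row := by intro b; rw [← map_sum, x.row, map_zero]
      col := by intro z; rw [← map_sum, x.col]; simp only [kap]; split_ifs <;> simp }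
  map_one' := ext' rfl (fun _ _ => map_zero f)
  map_mul' x y := ext' rfl (fun b z => by
    change f ((x * y).q b z) = f (x.q b z) + f (y.q (x.a⁻¹ * b) (x.a⁻¹ • z))
    rw [mul_q, map_add])

@[simp] theorem red_a {R' : Type} [CommRing R'] (f : R →+* R') (x : Ex (A := A) z0 R) :
    (red f x).a = x.a := rfl
@[simp] theorem red_q {R' : Type} [CommRing R'] (f : R →+* R') (x : Ex (A := A) z0 R) (b : A) (z : Z) :
    (red f x).q b z = f (x.q b z) := rfl

theorem mul_q_of_ker {x : Ex (A := A) z0 R} (hx : x.a = 1) (y : Ex (A := A) z0 R) (b : A) (z : Z) :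
    (x * y).q b z = x.q b z + y.q b z := by
  rw [mul_q, hx]; simp

theorem pow_ker {x : Ex (A := A) z0 R} (hx : x.a = 1) (k : ℕ) :
    (x ^ k).a = 1 ∧ ∀ b z, (x ^ k).q b z = k • x.q b z := by
  induction k with
  | zero => exact ⟨rfl, fun b z => by rw [pow_zero, one_q, zero_smul]⟩
  | succ k ih =>
    refine ⟨by rw [pow_succ', mul_a, ih.1, hx, mul_one], fun b z => ?_⟩
    rw [pow_succ', mul_q_of_ker hx, ih.2, succ_nsmul, add_comm]

theorem comm_ker {x y : Ex (A := A) z0 R} (hx : x.a = 1) (hy : y.a = 1) : x * y = y * x := by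
  apply ext'
  · rw [mul_a, mul_a, hx, hy]
  · intro b z
    rw [mul_q_of_ker hx, mul_q_of_ker hy, add_comm]

end Ex

end ext

/-- weighted fixed point lemma -/
theorem fixed_of_sum_ne {T : Type} [Group T] {p : ℕ} [Fact p.Prime] (hT : IsPGroup p T)
    {Z : Type} [Fintype Z] [MulAction T Z] (φ : Z → ZMod p) (hφ : ∀ (t : T) z, φ (t • z) = φ z)
    (hs : ∑ z, φ z ≠ 0) : ∃ z : Z, ∀ t : T, t • z = z := by
  classical
  by_contra hno
  push Not at hno
  apply hs
  rw [← Finset.sum_fiberwise (Finset.univ : Finset Z) φ φ]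
  apply Finset.sum_eq_zero
  intro c _
  rw [Finset.sum_congr rfl (g := fun _ => c) (fun z hz => (Finset.mem_filter.1 hz).2),
    Finset.sum_const]
  have hdvd : p ∣ (Finset.univ.filter (fun z => φ z = c)).card := by
    let _ : MulAction T {z : Z // φ z = c} :=
      { smul := fun t z => ⟨t • z.1, by rw [hφ]; exact z.2⟩
        one_smul := fun z => Subtype.ext (one_smul T z.1)
        mul_smul := fun s t z => Subtype.ext (mul_smul s t z.1) }
    have h1 := hT.card_modEq_card_fixedPoints {z : Z // φ z = c}
    have h2 : Nat.card (MulAction.fixedPoints T {z : Z // φ z = c}) = 0 := by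
      rw [Nat.card_eq_zero]
      left
      refine ⟨fun z => ?_⟩
      obtain ⟨t, ht⟩ := hno z.1.1
      have := z.2 t
      exact ht (congrArg Subtype.val this)
    rw [h2] at h1
    have h3 := (Nat.modEq_zero_iff_dvd).1 h1
    rwa [Nat.card_eq_fintype_card, Fintype.card_subtype] at h3
  obtain ⟨k, hk⟩ := hdvd
  rw [hk, mul_comm, mul_smul, nsmul_eq_mul, nsmul_eq_mul]
  simp

section lift

variable {A : Type} [Group A] [Fintype A] {Z : Type} [Fintype Z] [DecidableEq Z] [MulAction A Z]
  {z0 : Z}

omit [Fintype A] in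
/-- a transversal function -/
theorem exists_transversal (T : Subgroup A) : ∃ u : A → T, ∀ (t : T) b, u (t * b) = t * u b := by
  classical
  let r : A → A := fun b => Quotient.out (Quotient.mk (MulAction.orbitRel T A) b)
  have hr : ∀ b, ∃ t : T, (t : A) * r b = b := by
    intro b
    have h : (MulAction.orbitRel T A) (r b) b := Quotient.exact (Quotient.out_eq _)
    have h' : b ∈ MulAction.orbit T (r b) := by
      have := (MulAction.orbitRel T A).symm h
      exact MulAction.orbitRel_apply.1 this
    obtain ⟨t, ht⟩ := h'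
    exact ⟨t, ht⟩
  choose u hu using hr
  refine ⟨u, fun t b => ?_⟩
  have hrb : r ((t : A) * b) = r b := by
    have : (Quotient.mk (MulAction.orbitRel T A) ((t : A) * b)) =
        (Quotient.mk (MulAction.orbitRel T A) b) := by
      apply Quotient.sound
      exact MulAction.orbitRel_apply.2 ⟨t, rfl⟩
    simp only [r, this]
  have h1 := hu ((t : A) * b)
  rw [hrb] at h1
  have h2 := hu b
  apply Subtype.ext
  have h3 : (u ((t : A) * b) : A) * r b = ((t : A) * u b) * r b := by
    rw [h1, mul_assoc, h2]
  exact mul_right_cancel h3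

/-- A `p`-subgroup that lifts has a fixed point. -/
theorem lift_fixed {p : ℕ} [Fact p.Prime] (T : Subgroup A) (hT : IsPGroup p T)
    (τ : T →* Ex (A := A) z0 (ZMod p)) (hτ : ∀ t, (τ t).a = t) : ∃ z : Z, ∀ t : T, (t : A) • z = z := by
  obtain ⟨u, hu⟩ := exists_transversal T
  let k : Z → ZMod p := fun z => ∑ b, (τ (u b)).q b z
  have hk : ∀ (t : T) z, kap z0 (ZMod p) (t : A) z = k z - k ((t : A)⁻¹ • z) := by
    intro t z
    have h0 : kap z0 (ZMod p) (t : A) z = ∑ b, (τ t).q b z := by
      rw [(τ t).col z, hτ]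
    have h1 : ∀ b, (τ t).q b z = (τ (u b)).q b z - (τ (u ((t : A)⁻¹ * b))).q ((t : A)⁻¹ * b) ((t : A)⁻¹ • z) := by
      intro b
      have e1 : u ((t : A)⁻¹ * b) = t⁻¹ * u b := by
        have := hu t⁻¹ b
        simpa using this
      have e2 : τ (u b) = τ t * τ (u ((t : A)⁻¹ * b)) := by
        rw [e1, ← map_mul, mul_inv_cancel_left]
      have e3 := congrArg (fun x : Ex (A := A) z0 (ZMod p) => x.q b z) e2
      simp only [Ex.mul_q, hτ] at e3
      rw [e3]
      ring
    rw [h0, Finset.sum_congr rfl (fun b _ => h1 b), Finset.sum_sub_distrib]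
    congr 1
    exact Equiv.sum_comp (Equiv.mulLeft (t : A)⁻¹) (fun b => (τ (u b)).q b ((t : A)⁻¹ • z))
  have hks : ∑ z, k z = 0 := by
    simp only [k]
    rw [Finset.sum_comm]
    exact Finset.sum_eq_zero (fun b _ => (τ (u b)).row b)
  let φ : Z → ZMod p := fun z => (if z = z0 then 1 else 0) - k z
  have hφs : ∑ z, φ z ≠ 0 := by
    simp only [φ]
    rw [Finset.sum_sub_distrib, hks]
    simp
  have hφ : ∀ (t : T) z, φ (t • z) = φ z := by
    intro t z
    have h := hk t ((t : A) • z)
    simp only [kap, inv_smul_smul] at h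
    have h2 : ((t : A) • z = (t : A) • z0) ↔ z = z0 := by
      constructor
      · intro h; exact MulAction.injective _ h
      · rintro rfl; rfl
    simp only [h2] at h
    change (if (t : A) • z = z0 then (1 : ZMod p) else 0) - k ((t : A) • z) =
      (if z = z0 then 1 else 0) - k z
    linear_combination h
  obtain ⟨z, hz⟩ := fixed_of_sum_ne hT φ hφ hφs
  exact ⟨z, fun t => hz t⟩

end lift

end H197.LS
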