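import Pool.Agent.H197R2.LSa

/-!
# Moved points, and the descent step
-/

namespace H197.LS

open Function Equiv

section moved

variable {W W' : Type}

/-- number of moved points -/
noncomputable def mv (σ : Perm W) : ℕ := Nat.card {w // σ w ≠ w}

theorem mv_conj (σ τ : Perm W) : mv (τ⁻¹ * σ * τ) = mv σ := by
  unfold mv
  refine Nat.card_congr (Equiv.subtypeEquiv τ (fun w => ?_))
  simp only [Perm.mul_apply, ne_eq]
  rw [Perm.inv_eq_iff_eq]

theorem mv_mul_le [Finite W] (σ τ : Perm W) : mv (σ * τ) ≤ mv σ + mv τ := by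
  classical
  unfold mv
  rw [← Nat.card_sum]
  have hx : ∀ w : {w // (σ * τ) w ≠ w}, τ w.1 ≠ w.1 ∨ (τ w.1 = w.1 ∧ σ w.1 ≠ w.1) := by
    intro w
    by_cases h : τ w.1 = w.1
    · right
      refine ⟨h, fun h' => w.2 ?_⟩
      rw [Perm.mul_apply, h, h']
    · left; exact h
  let f : {w // (σ * τ) w ≠ w} → {w // σ w ≠ w} ⊕ {w // τ w ≠ w} := fun w =>
    if h : τ w.1 ≠ w.1 then Sum.inr ⟨w.1, h⟩ else Sum.inl ⟨w.1, ((hx w).resolve_left h).2⟩
  apply Nat.card_le_card_of_injective f
  intro a b hab
  simp only [f] at hab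
  split_ifs at hab with h1 h2 h2
  · simp only [Sum.inr.injEq, Subtype.mk.injEq] at hab
    exact Subtype.ext hab
  · simp only [Sum.inl.injEq, Subtype.mk.injEq] at hab
    exact Subtype.ext hab

theorem mv_one : mv (1 : Perm W) = 0 := by
  unfold mv
  rw [Nat.card_eq_zero]
  left
  exact ⟨fun w => w.2 rfl⟩

theorem mv_pos [Finite W] {σ : Perm W} (h : σ ≠ 1) : 0 < mv σ := by
  unfold mv
  have : Nonempty {w // σ w ≠ w} := by
    by_contra hno
    apply h
    ext w
    by_contra hw
    exact hno ⟨⟨w, hw⟩⟩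
  exact Nat.card_pos

theorem mv_sum [Finite W] [Finite W'] (σ : Perm W) (τ : Perm W') :
    mv (Equiv.sumCongr σ τ) = mv σ + mv τ := by
  unfold mv
  rw [← Nat.card_sum]
  refine Nat.card_congr ?_
  refine (Equiv.subtypeSum).trans (Equiv.sumCongr ?_ ?_)
  · exact Equiv.subtypeEquivRight (fun w => by simp)
  · exact Equiv.subtypeEquivRight (fun w => by simp)

theorem mv_prod (b : ℕ) (σ : Perm W) :
    mv (Equiv.prodCongr (Equiv.refl (Fin b)) σ) = b * mv σ := by
  unfold mv
  have h : Nat.card (Fin b × {w // σ w ≠ w}) = b * Nat.card {w // σ w ≠ w} := by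
    rw [Nat.card_prod, Nat.card_fin]
  rw [← h]
  refine Nat.card_congr
    { toFun := fun x => (x.1.1, ⟨x.1.2, fun hh => x.2 ?_⟩)
      invFun := fun x => ⟨(x.1, x.2.1), fun hh => x.2.2 ?_⟩
      left_inv := fun x => rfl
      right_inv := fun x => rfl }
  · exact Prod.ext rfl hh
  · exact (Prod.ext_iff.1 hh).2

theorem mv_sigma {I : Type} [Fintype I] {Y : I → Type} [∀ i, Finite (Y i)] (σ : ∀ i, Perm (Y i)) :
    mv (Equiv.sigmaCongrRight σ) = ∑ i, mv (σ i) := by
  classical
  unfold mv
  rw [← Nat.card_sigma]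
  refine Nat.card_congr
    { toFun := fun x => ⟨x.1.1, ⟨x.1.2, fun hh => x.2 ?_⟩⟩
      invFun := fun x => ⟨⟨x.1, x.2.1⟩, fun hh => x.2.2 ?_⟩
      left_inv := fun x => rfl
      right_inv := fun x => rfl }
  · exact Sigma.ext rfl (heq_of_eq hh)
  · exact eq_of_heq (Sigma.ext_iff.1 hh).2

open Classical in
theorem mv_mulLeft {G : Type} [Group G] (g : G) :
    mv (Equiv.mulLeft g) = if g = 1 then 0 else Nat.card G := by
  unfold mv
  split_ifs with h
  · rw [Nat.card_eq_zero]
    left
    exact ⟨fun w => w.2 (by simp [h])⟩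
  · refine Nat.card_congr (Equiv.subtypeUnivEquiv (fun w => ?_))
    simpa using h

end moved

section ball

variable {S : Type} [Group S]

/-- products of at most `k` conjugates of `s` -/
def Tk (s : S) : ℕ → Set S
  | 0 => {1}
  | (k + 1) => {x | ∃ y ∈ Tk s k, x = y ∨ ∃ g, x = y * (g * s * g⁻¹)}

theorem Tk_mono (s : S) (k : ℕ) : Tk s k ⊆ Tk s (k + 1) := fun x hx => ⟨x, hx, Or.inl rfl⟩

theorem one_mem_Tk (s : S) (k : ℕ) : (1 : S) ∈ Tk s k := by
  induction k with
  | zero => rfl
  | succ k ih => exact Tk_mono s k ih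

theorem Tk_univ_or [Finite S] [IsSimpleGroup S] (s : S) (hs : s ≠ 1) (k : ℕ) :
    Tk s k = Set.univ ∨ k + 1 ≤ (Tk s k).ncard := by
  induction k with
  | zero => right; simp [Tk]
  | succ k ih =>
    rcases ih with h | h
    · left
      exact Set.eq_univ_of_univ_subset (h ▸ Tk_mono s k)
    · by_cases hst : Tk s (k + 1) = Tk s k
      · left
        have hcl : ∀ g, ∀ y ∈ Tk s k, y * (g * s * g⁻¹) ∈ Tk s k := by
          intro g y hy
          rw [← hst]
          exact ⟨y, hy, Or.inr ⟨g, rfl⟩⟩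
        let N : Submonoid S :=
          { carrier := {g | ∀ y ∈ Tk s k, y * g ∈ Tk s k}
            one_mem' := fun y hy => by rw [mul_one]; exact hy
            mul_mem' := fun {a b} ha hb y hy => by
              rw [← mul_assoc]; exact hb _ (ha _ hy) }
        let N' : Subgroup S :=
          { N with
            inv_mem' := fun {g} hg => by
              have h1 : g ^ (orderOf g - 1) ∈ N := N.pow_mem hg _
              have h2 : g⁻¹ = g ^ (orderOf g - 1) := by
                rw [inv_eq_iff_mul_eq_one, ← pow_succ',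
                  Nat.sub_add_cancel (orderOf_pos g), pow_orderOf_eq_one]
              change g⁻¹ ∈ N
              rw [h2]; exact h1 }
        have h1 : Subgroup.normalClosure {s} ≤ N' := by
          apply Subgroup.closure_le _ |>.2
          intro x hx
          rw [Group.mem_conjugatesOfSet_iff] at hx
          obtain ⟨a, ha, hx⟩ := hx
          rw [Set.mem_singleton_iff] at ha
          subst ha
          obtain ⟨c, rfl⟩ := isConj_iff.1 hx
          exact fun y hy => hcl c y hy
        have h2 : Subgroup.normalClosure {s} = ⊤ := by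
          have hn : (Subgroup.normalClosure {s}).Normal := Subgroup.normalClosure_normal
          rcases hn.eq_bot_or_eq_top with h | h
          · exfalso
            have := Subgroup.subset_normalClosure (Set.mem_singleton s)
            rw [h] at this
            exact hs (Subgroup.mem_bot.1 this)
          · exact h
        rw [h2] at h1
        rw [hst]
        apply Set.eq_univ_of_forall
        intro x
        have := h1 (Subgroup.mem_top x) 1 (one_mem_Tk s k)
        simpa using this
      · right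
        have hss : Tk s k ⊂ Tk s (k + 1) := (Tk_mono s k).ssubset_of_ne (fun h => hst h.symm)
        have := Set.ncard_lt_ncard hss (Set.toFinite _)
        omega

theorem le_of_mem_Tk {s : S} {w : S → ℝ} (hw : ∀ s t, w (s * t) ≤ w s + w t)
    (hc : ∀ g s, w (g * s * g⁻¹) = w s) {B : ℝ} (hB : 0 ≤ B) (h1 : w 1 ≤ B) (hs : w s ≤ B) (k : ℕ) :
    ∀ x ∈ Tk s k, w x ≤ (k + 1) * B := by
  induction k with
  | zero => intro x hx; rw [Set.mem_singleton_iff.1 hx]; simpa using h1
  | succ k ih =>
    rintro x ⟨y, hy, rfl | ⟨g, rfl⟩⟩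
    · have := ih x hy
      push_cast
      nlinarith
    · have := ih y hy
      have h2 := hw y (g * s * g⁻¹)
      rw [hc] at h2
      push_cast
      nlinarith

theorem ball [Finite S] [IsSimpleGroup S] {s : S} (hs1 : s ≠ 1) {w : S → ℝ}
    (hw : ∀ s t, w (s * t) ≤ w s + w t)
    (hc : ∀ g s, w (g * s * g⁻¹) = w s) {B : ℝ} (hB : 0 ≤ B) (h1 : w 1 ≤ B) (hs : w s ≤ B) (x : S) :
    w x ≤ (Nat.card S + 1) * B := by
  apply le_of_mem_Tk hw hc hB h1 hs
  rcases Tk_univ_or s hs1 (Nat.card S) with h | h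
  · rw [h]; trivial
  · exfalso
    have := Set.ncard_le_card (Tk s (Nat.card S))
    omega

end ball

/-- No finite nonabelian simple group embeds locally in `(F, L)`. -/
def NoSim {F : Type} [Group F] (L : F → ℝ) : Prop :=
  ∀ (S : Type) [Group S] [Finite S], IsSimpleGroup S → (∃ a b : S, a * b ≠ b * a) →
    ∀ w : S → ℝ, (∀ s t, w (s * t) ≤ w s + w t) → (∀ g s, w (g * s * g⁻¹) = w s) →
    (∀ (p : ℕ) [Fact p.Prime] (P : Subgroup S), IsPGroup p P →
      ∃ α : P →* F, Injective α ∧ ∀ s : P, |w s - L (α s)| ≤ 1) → False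

theorem card_dvd_of_local {S F : Type} [Group S] [Finite S] [Group F] [Finite F]
    (h : ∀ (p : ℕ) [Fact p.Prime] (P : Subgroup S), IsPGroup p P → ∃ α : P →* F, Injective α) :
    Nat.card S ∣ Nat.card F := by
  rw [Nat.dvd_iff_prime_pow_dvd_dvd]
  intro p k hp hk
  have : Fact p.Prime := ⟨hp⟩
  obtain ⟨P, hP⟩ := Sylow.exists_subgroup_card_pow_prime p hk
  obtain ⟨α, hα⟩ := h p P (IsPGroup.of_card hP)
  have h1 : Nat.card P ∣ Nat.card F := by
    have h2 : Nat.card P = Nat.card α.range :=
      Nat.card_congr (MonoidHom.ofInjective hα).toEquiv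
    rw [h2]
    exact Subgroup.card_subgroup_dvd_card _
  rwa [hP] at h1

/-- two distinct primes divide the order of a finite nonabelian simple group -/
theorem two_primes {S : Type} [Group S] [Finite S] [IsSimpleGroup S] (hna : ∃ a b : S, a * b ≠ b * a) :
    ∃ p q : ℕ, p.Prime ∧ q.Prime ∧ p < q ∧ p ∣ Nat.card S ∧ q ∣ Nat.card S := by
  have hnt : Nontrivial S := IsSimpleGroup.toNontrivial
  have hcard : 1 < Nat.card S := Finite.one_lt_card
  obtain ⟨p, hp, hpd⟩ := Nat.exists_prime_and_dvd hcard.ne'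
  have : Fact p.Prime := ⟨hp⟩
  have hno : ¬ IsPGroup p S := by
    intro hP
    have hc : Nontrivial (Subgroup.center S) := hP.center_nontrivial
    have hn : (Subgroup.center S).Normal := inferInstance
    rcases hn.eq_bot_or_eq_top with h | h
    · rw [h] at hc
      exact not_subsingleton (⊥ : Subgroup S) inferInstance
    · obtain ⟨a, b, hab⟩ := hna
      apply hab
      have : a ∈ Subgroup.center S := by rw [h]; trivial
      exact ((Subgroup.mem_center_iff.1 this) b).symm
  have : ∃ q : ℕ, q.Prime ∧ q ∣ Nat.card S ∧ q ≠ p := by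
    by_contra hno'
    push Not at hno'
    apply hno
    rw [IsPGroup.iff_card]
    have h0 : Nat.card S ≠ 0 := by omega
    exact ⟨_, Nat.eq_prime_pow_of_unique_prime_dvd h0 (fun {q} hq hqd => hno' q hq hqd)⟩
  obtain ⟨q, hq, hqd, hne⟩ := this
  rcases lt_or_gt_of_ne hne with h | h
  · exact ⟨q, p, hq, hp, h, hqd, hpd⟩
  · exact ⟨p, q, hp, hq, h, hpd, hqd⟩

end H197.LS
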