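import Pool.Agent.H197R2.LSb

/-!
# The descent step
-/

namespace H197.LS

open Function Equiv

theorem descent {X : Type} [Fintype X] [DecidableEq X] {F E : Type} [Group F] [Group E] [Finite E]
    (ι : F →* alternatingGroup X) (hι : Injective ι)
    (hF : NoSim (fun f => (mv (ι f : Perm X) : ℝ)))
    (π : E →* alternatingGroup X)
    (hlift : ∀ (p : ℕ) [Fact p.Prime] (T : Subgroup (alternatingGroup X)), IsPGroup p T →
      (∃ τ : T →* E, ∀ t, π (τ t) = t) →
        ∃ a : alternatingGroup X, ∀ t ∈ T, ∃ f : F, ι f = a⁻¹ * t * a)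
    (ℓ : E → ℕ) (hℓ : ℓ 1 = 0) (C : ℕ) (hC : ∀ e, ℓ e ≤ C)
    (hM : ∀ (p q : ℕ) (x y : E), p.Prime → q.Prime → p < q → π x = 1 → π y = 1 → x ≠ 1 → y ≠ 1 →
      x ^ p = 1 → y ^ q = 1 → (Nat.card E + 1) * (ℓ x + 1) + 1 < ℓ y)
    (b : ℕ) (hb : (Nat.card E + 1) * (C + 1) + 1 < b) :
    NoSim (fun e => ((b * mv (π e : Perm X) + ℓ e : ℕ) : ℝ)) := by
  intro S _ _ hS hna w hw hc hα0
  have hα : ∀ (p : ℕ) [Fact p.Prime] (P : Subgroup S), IsPGroup p P →
      ∃ α : P →* E, Injective α ∧
        ∀ s : P, |w s - ((b * mv (π (α s) : Perm X) + ℓ (α s) : ℕ) : ℝ)| ≤ 1 := hα0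
  have hcard : Nat.card S ≤ Nat.card E := by
    apply Nat.le_of_dvd Nat.card_pos
    apply card_dvd_of_local
    intro p _ P hP
    obtain ⟨α, h1, -⟩ := hα p P hP
    exact ⟨α, h1⟩
  have hcardR : (Nat.card S : ℝ) ≤ Nat.card E := by exact_mod_cast hcard
  have hw1 : w 1 ≤ 1 := by
    have : Fact (Nat.Prime 2) := ⟨Nat.prime_two⟩
    obtain ⟨α, -, h2⟩ := hα 2 ⊥ IsPGroup.of_bot
    have h3 := h2 1
    rw [map_one, map_one] at h3
    have h4 : mv ((1 : alternatingGroup X) : Perm X) = 0 := mv_one
    rw [h4, hℓ] at h3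
    have := abs_le.1 h3
    simp only [mul_zero, add_zero, Nat.cast_zero, OneMemClass.coe_one] at this
    linarith [this.2]
  choose α hinj hval using hα
  by_cases hA : ∃ (p : ℕ) (_ : Fact p.Prime) (P : Subgroup S) (hP : IsPGroup p P) (s : P),
      s ≠ 1 ∧ π (α p P hP s) = 1
  · -- Case A
    obtain ⟨p, hpf, P, hP, s, hs1, hs⟩ := hA
    have hs1' : (s : S) ≠ 1 := fun h => hs1 (Subtype.ext h)
    have hCb : ((Nat.card E + 1) * (C + 1) + 1 : ℝ) < b := by exact_mod_cast hb
    have hws : w s ≤ C + 1 := by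
      have h1 := (abs_le.1 (hval p P hP s)).2
      rw [hs, OneMemClass.coe_one, mv_one, mul_zero, zero_add] at h1
      have h2 : (ℓ (α p P hP s) : ℝ) ≤ C := by exact_mod_cast hC _
      linarith
    have hall : ∀ x, w x ≤ (Nat.card E + 1) * (C + 1) := by
      intro x
      have h1 := ball hs1' hw hc (B := C + 1) (by positivity)
        (by have : (0 : ℝ) ≤ C := by positivity
            linarith) hws x
      refine h1.trans ?_
      have : (0 : ℝ) ≤ C + 1 := by positivity
      nlinarith
    have hker : ∀ (q : ℕ) [Fact q.Prime] (Q : Subgroup S) (hQ : IsPGroup q Q) (g : Q),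
        π (α q Q hQ g) = 1 := by
      intro q _ Q hQ g
      by_contra hne
      have h1 := (abs_le.1 (hval q Q hQ g)).1
      have h2 : 0 < mv (π (α q Q hQ g) : Perm X) :=
        mv_pos (fun h => hne (Subtype.ext h))
      have h3 : (1 : ℝ) ≤ mv (π (α q Q hQ g) : Perm X) := by exact_mod_cast h2
      have h4 := hall g
      push_cast at h1
      have h5 : (0 : ℝ) ≤ ℓ (α q Q hQ g) := by positivity
      have h6 : (0 : ℝ) ≤ b := by positivity
      nlinarith
    obtain ⟨p1, q1, hp1, hq1, hpq, hpd, hqd⟩ := two_primes hna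
    have : Fact p1.Prime := ⟨hp1⟩
    have : Fact q1.Prime := ⟨hq1⟩
    obtain ⟨x, hx⟩ := exists_prime_orderOf_dvd_card' p1 hpd
    obtain ⟨y, hy⟩ := exists_prime_orderOf_dvd_card' q1 hqd
    have hPx : IsPGroup p1 (Subgroup.zpowers x) :=
      IsPGroup.of_card (n := 1) (by rw [Nat.card_zpowers, hx, pow_one])
    have hPy : IsPGroup q1 (Subgroup.zpowers y) :=
      IsPGroup.of_card (n := 1) (by rw [Nat.card_zpowers, hy, pow_one])
    let x0 : Subgroup.zpowers x := ⟨x, Subgroup.mem_zpowers x⟩
    let y0 : Subgroup.zpowers y := ⟨y, Subgroup.mem_zpowers y⟩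
    have hx0 : x0 ≠ 1 := by
      intro h
      have : x = 1 := congrArg Subtype.val h
      rw [this, orderOf_one] at hx
      exact hp1.one_lt.ne hx
    have hy0 : y0 ≠ 1 := by
      intro h
      have : y = 1 := congrArg Subtype.val h
      rw [this, orderOf_one] at hy
      exact hq1.one_lt.ne hy
    have hx0p : x0 ^ p1 = 1 := by
      apply Subtype.ext
      change x ^ p1 = 1
      rw [← hx, pow_orderOf_eq_one]
    have hy0p : y0 ^ q1 = 1 := by
      apply Subtype.ext
      change y ^ q1 = 1
      rw [← hy, pow_orderOf_eq_one]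
    have h1 := hM p1 q1 (α p1 _ hPx x0) (α q1 _ hPy y0) hp1 hq1 hpq (hker _ _ _ _) (hker _ _ _ _)
      (fun h => hx0 (hinj _ _ _ (h.trans (map_one _).symm)))
      (fun h => hy0 (hinj _ _ _ (h.trans (map_one _).symm)))
      (by rw [← map_pow, hx0p, map_one]) (by rw [← map_pow, hy0p, map_one])
    have h1' : ((Nat.card E + 1) * (ℓ (α p1 _ hPx x0) + 1) + 1 : ℝ) < ℓ (α q1 _ hPy y0) := by
      exact_mod_cast h1
    have h2 := (abs_le.1 (hval p1 _ hPx x0)).2
    have h3 := (abs_le.1 (hval q1 _ hPy y0)).1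
    rw [hker, OneMemClass.coe_one, mv_one, mul_zero, zero_add] at h2 h3
    have h4 := ball (s := x) (fun h => hx0 (Subtype.ext h)) hw hc (B := ℓ (α p1 _ hPx x0) + 1)
      (by positivity)
      (by have : (0 : ℝ) ≤ ℓ (α p1 _ hPx x0) := by positivity
          linarith) (by change w x - _ ≤ 1 at h2; linarith) y
    change -1 ≤ w y - _ at h3
    have h5 : ((Nat.card S : ℝ) + 1) * (ℓ (α p1 _ hPx x0) + 1) ≤
        (Nat.card E + 1) * (ℓ (α p1 _ hPx x0) + 1) := by
      have : (0 : ℝ) ≤ ℓ (α p1 _ hPx x0) + 1 := by positivity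
      nlinarith
    linarith
  · -- Case B
    push Not at hA
    have hbpos : (0 : ℝ) < b := by
      have : 0 < b := by omega
      exact_mod_cast this
    refine hF S hS hna (fun s => w s / b) ?_ ?_ ?_
    · intro s t
      rw [← add_div]
      exact div_le_div_of_nonneg_right (hw s t) hbpos.le
    · intro g s
      rw [hc]
    · intro p hpf P hP
      let β : P →* alternatingGroup X := π.comp (α p P hP)
      have hβ : Injective β := by
        rw [injective_iff_map_eq_one]
        intro s hs
        by_contra hne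
        exact hA p hpf P hP s hne hs
      have hT : IsPGroup p β.range := by
        exact hP.of_surjective β.rangeRestrict β.rangeRestrict_surjective
      let e := MonoidHom.ofInjective hβ
      obtain ⟨a, ha⟩ := hlift p β.range hT ⟨(α p P hP).comp e.symm.toMonoidHom, by
        intro t
        obtain ⟨s, rfl⟩ := e.surjective t
        change π (α p P hP (e.symm (e s))) = _
        rw [e.symm_apply_apply]
        rfl⟩
      have hf : ∀ s : P, ∃ f : F, ι f = a⁻¹ * β s * a := fun s => ha _ ⟨s, rfl⟩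
      choose f hf using hf
      refine ⟨MonoidHom.mk' f ?_, ?_, ?_⟩
      · intro s t
        apply hι
        rw [map_mul, hf, hf, hf, map_mul]
        group
      · intro s t hst
        have h1 : ι (f s) = ι (f t) := congrArg ι hst
        rw [hf, hf] at h1
        exact hβ (mul_left_cancel (mul_right_cancel h1))
      · intro s
        have h1 := hval p P hP s
        have h2 : mv (ι (f s) : Perm X) = mv (β s : Perm X) := by
          rw [hf]
          push_cast
          exact mv_conj _ _
        change |w s / b - (mv (ι (f s) : Perm X) : ℝ)| ≤ 1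
        rw [h2]
        have h3 : (ℓ (α p P hP s) : ℝ) ≤ C := by exact_mod_cast hC _
        have h4 : (0 : ℝ) ≤ ℓ (α p P hP s) := by positivity
        have h5 := abs_le.1 h1
        push_cast at h5
        change -1 ≤ w s - (b * (mv (β s : Perm X) : ℝ) + ℓ (α p P hP s)) ∧
          w s - (b * (mv (β s : Perm X) : ℝ) + ℓ (α p P hP s)) ≤ 1 at h5
        have h6 : ((C : ℝ) + 1) ≤ b := by
          have : C + 1 ≤ b := by nlinarith
          exact_mod_cast this
        rw [abs_le]
        constructor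
        · rw [le_sub_iff_add_le, le_div_iff₀ hbpos]
          nlinarith
        · rw [sub_le_iff_le_add, div_le_iff₀ hbpos]
          nlinarith

end H197.LS
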