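import Pool.Agent.H197R2.LSc

/-!
# The next stage
-/

namespace H197.LS

open Function Equiv

/-- a stage of the construction -/
structure Stg where
  X : Type
  [fX : Fintype X]
  [dX : DecidableEq X]
  F : Type
  [gF : Group F]
  [finF : Finite F]
  ι : F →* alternatingGroup X
  inj : Injective ι
  five : 5 ≤ Fintype.card X
  ns : NoSim (fun f => (mv (ι f : Perm X) : ℝ))

attribute [instance] Stg.fX Stg.dX Stg.gF Stg.finF

/-- coefficients -/
abbrev Co (n : ℕ) : Type := ∀ p : n.primeFactors, ZMod (p : ℕ)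

instance factPF (n : ℕ) (p : n.primeFactors) : Fact (Nat.Prime (p : ℕ)) :=
  ⟨Nat.prime_of_mem_primeFactors p.2⟩

instance (n : ℕ) : Finite (Co n) := by
  unfold Co
  infer_instance

section next

variable {A : Type} [Group A] [Fintype A] {Z : Type} [Fintype Z] [DecidableEq Z] [MulAction A Z]
  {z0 : Z} {n : ℕ}

/-- reduction modulo `p` -/
noncomputable abbrev rp (p : n.primeFactors) : Ex (A := A) z0 (Co n) →* Ex (A := A) z0 (ZMod (p : ℕ)) :=
  Ex.red (Pi.evalRingHom _ p)

theorem eq_one_of_rp {x : Ex (A := A) z0 (Co n)} (hx : x.a = 1)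
    (h : ∀ p : n.primeFactors, rp p x = 1) : x = 1 := by
  apply Ex.ext' hx
  intro b z
  funext p
  have := congrArg (fun y : Ex (A := A) z0 (ZMod (p : ℕ)) => y.q b z) (h p)
  exact this

theorem rp_eq_one {x : Ex (A := A) z0 (Co n)} (hx : x.a = 1) {p : ℕ} (hp : p.Prime)
    (hxp : x ^ p = 1) (r : n.primeFactors) (hr : (r : ℕ) ≠ p) : rp r x = 1 := by
  have h1 : (rp r x) ^ p = 1 := by rw [← map_pow, hxp, map_one]
  have h2 := (Ex.pow_ker (x := rp r x) hx p).2
  apply Ex.ext' hx
  intro b z
  have h3 := h2 b z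
  rw [h1, Ex.one_q] at h3
  rw [Ex.one_q]
  rw [nsmul_eq_mul] at h3
  have h4 : ((p : ℕ) : ZMod (r : ℕ)) ≠ 0 := by
    rw [Ne, ZMod.natCast_eq_zero_iff]
    intro h
    exact hr ((Nat.prime_dvd_prime_iff_eq (Nat.prime_of_mem_primeFactors r.2) hp).1 h)
  exact (mul_eq_zero.1 h3.symm).resolve_left h4

end next

theorem sign_double {W : Type} (i1 : Fintype W) (i2 : DecidableEq W) (i3 : Fintype (W ⊕ W))
    (i4 : DecidableEq (W ⊕ W)) (σ : Perm W) :
    @Perm.sign (W ⊕ W) i4 i3 (Perm.sumCongr σ σ) = 1 := by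
  have h3 : i3 = instFintypeSum W W := Subsingleton.elim _ _
  have h4 : i4 = instDecidableEqSum := Subsingleton.elim _ _
  rw [h3, h4, Equiv.Perm.sign_sumCongr, Int.units_mul_self]

open Classical in
theorem exists_next (s : Stg) : ∃ (t : Stg) (j : s.F →* t.F) (π : t.F →* alternatingGroup s.X),
    Injective j ∧ Surjective π ∧ (∀ f, π (j f) = s.ι f) ∧
      ∀ x y, π x = 1 → π y = 1 → x * y = y * x := by
  let A := alternatingGroup s.X
  let Z := A ⧸ s.ι.range
  let _ : Fintype Z := Fintype.ofFinite Z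
  let z0 : Z := ((1 : A) : Z)
  let n := Nat.card A
  let P := n.primeFactors
  let E := Ex (A := A) z0 (Co n)
  let Er : P → Type := fun r => Ex (A := A) z0 (ZMod (r : ℕ))
  let π : E →* A := Ex.pr z0 (Co n)
  let j : s.F →* E := Ex.sec (Co n) s.ι (by
    intro x
    change ((s.ι x * 1 : A) : Z) = ((1 : A) : Z)
    rw [mul_one]
    apply (QuotientGroup.eq).2
    rw [mul_one]
    exact s.ι.range.inv_mem ⟨x, rfl⟩)
  let N := Nat.card E
  let Mx := ∑ r : P, Nat.card (Er r)
  let K := (N + 1) * (2 * Mx + 1) + 2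
  let ℓ : E → ℕ := fun e => 2 * ∑ r : P, K ^ (r : ℕ) * (if rp r e = 1 then 0 else Nat.card (Er r))
  let C := 2 * ∑ r : P, K ^ (r : ℕ) * Nat.card (Er r)
  let b' := (N + 1) * (C + 1) + 2
  have hK : 1 ≤ K := by simp only [K]; omega
  have hnr : ∀ r : P, 1 ≤ Nat.card (Er r) := fun r => Nat.card_pos
  have hℓker : ∀ (p : ℕ) (x : E), p.Prime → π x = 1 → x ≠ 1 → x ^ p = 1 →
      ∃ r : P, (r : ℕ) = p ∧ ℓ x = 2 * (K ^ p * Nat.card (Er r)) := by
    intro p x hp hx hx1 hxp
    obtain ⟨r, hr⟩ : ∃ r : P, rp r x ≠ 1 := by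
      by_contra hno
      push Not at hno
      exact hx1 (eq_one_of_rp hx hno)
    have hrp : (r : ℕ) = p := by
      by_contra hne
      exact hr (rp_eq_one hx hp hxp r hne)
    refine ⟨r, hrp, ?_⟩
    simp only [ℓ]
    rw [Finset.sum_eq_single r]
    · rw [if_neg hr, hrp]
    · intro r' _ hr'
      rw [if_pos (rp_eq_one hx hp hxp r' (fun h => hr' (Subtype.ext (h.trans hrp.symm)))), mul_zero]
    · intro h
      exact absurd (Finset.mem_univ r) h
  have hns : NoSim (fun e : E => (((2 * b') * mv (π e : Perm s.X) + ℓ e : ℕ) : ℝ)) := by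
    refine descent s.ι s.inj s.ns π ?_ ℓ ?_ C ?_ ?_ (2 * b') ?_
    · intro p _ T hT ⟨τ, hτ⟩
      by_cases hp : p ∈ P
      · obtain ⟨z, hz⟩ := lift_fixed (z0 := z0) (p := ((⟨p, hp⟩ : P) : ℕ)) T hT
          ((rp (⟨p, hp⟩ : P)).comp τ) hτ
        obtain ⟨a, rfl⟩ := QuotientGroup.mk_surjective z
        refine ⟨a, fun t ht => ?_⟩
        have h1 := hz ⟨t, ht⟩
        have h2 : ((a : A) : Z) = ((t * a : A) : Z) := h1.symm
        have h3 := (QuotientGroup.eq).1 h2
        obtain ⟨f, hf⟩ := h3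
        exact ⟨f, by rw [hf, mul_assoc]⟩
      · refine ⟨1, fun t ht => ⟨1, ?_⟩⟩
        have hcard : Nat.card T = 1 := by
          obtain ⟨k, hk⟩ := IsPGroup.iff_card.1 hT
          rcases Nat.eq_zero_or_pos k with rfl | hk0
          · simpa using hk
          · exfalso
            apply hp
            rw [Nat.mem_primeFactors]
            refine ⟨Fact.out, ?_, Nat.card_pos.ne'⟩
            exact (dvd_pow_self p hk0.ne').trans (hk ▸ Subgroup.card_subgroup_dvd_card T)
        have hbot := Subgroup.card_eq_one.1 hcard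
        rw [hbot] at ht
        rw [Subgroup.mem_bot.1 ht]
        simp
    · simp only [ℓ]
      rw [Finset.sum_eq_zero, mul_zero]
      intro r _
      rw [if_pos (map_one _), mul_zero]
    · intro e
      simp only [ℓ, C]
      gcongr
      split_ifs
      · exact Nat.zero_le _
      · exact le_rfl
    · intro p q x y hp hq hpq hx hy hx1 hy1 hxp hyq
      obtain ⟨r, hr, h1⟩ := hℓker p x hp hx hx1 hxp
      obtain ⟨r', hr', h2⟩ := hℓker q y hq hy hy1 hyq
      rw [h1, h2]
      have h3 : Nat.card (Er r) ≤ Mx :=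
        Finset.single_le_sum (f := fun r => Nat.card (Er r)) (fun _ _ => Nat.zero_le _)
          (Finset.mem_univ r)
      have h4 : 1 ≤ Nat.card (Er r') := hnr r'
      have h5 : 1 ≤ K ^ p := Nat.one_le_pow _ _ hK
      have h6 : K ^ p * K ≤ K ^ q := by
        rw [← pow_succ]
        exact Nat.pow_le_pow_right hK hpq
      have h7 : 2 * (K ^ p * Nat.card (Er r)) + 1 ≤ K ^ p * (2 * Mx + 1) := by nlinarith
      have h8 : (N + 1) * (2 * (K ^ p * Nat.card (Er r)) + 1) ≤ (N + 1) * (K ^ p * (2 * Mx + 1)) :=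
        Nat.mul_le_mul_left _ h7
      have h9 : K ^ p * K = (N + 1) * (K ^ p * (2 * Mx + 1)) + 2 * K ^ p := by
        simp only [K]; ring
      have h10 : K ^ q ≤ K ^ q * Nat.card (Er r') := Nat.le_mul_of_pos_right _ h4
      change (N + 1) * (2 * (K ^ p * Nat.card (Er r)) + 1) + 1 < _
      omega
    · change (N + 1) * (C + 1) + 1 < 2 * b'
      simp only [b']; omega
  let W := (Fin b' × s.X) ⊕ (Σ r : P, Fin (K ^ (r : ℕ)) × Er r)
  let ρ : E →* Perm W :=
    { toFun := fun e => Equiv.sumCongr (Equiv.prodCongr (Equiv.refl (Fin b')) (π e : Perm s.X))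
        (Equiv.sigmaCongrRight fun r : P =>
          Equiv.prodCongr (Equiv.refl (Fin (K ^ (r : ℕ)))) (Equiv.mulLeft (rp r e)))
      map_one' := by
        ext w
        rcases w with ⟨i, x⟩ | ⟨r, i, y⟩
        · simp
        · simp
      map_mul' := by
        intro e f
        ext w
        rcases w with ⟨i, x⟩ | ⟨r, i, y⟩
        · simp
        · simp [mul_assoc] }
  have hmvρ : ∀ e, mv (ρ e) = b' * mv (π e : Perm s.X) +
      ∑ r : P, K ^ (r : ℕ) * (if rp r e = 1 then 0 else Nat.card (Er r)) := by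
    intro e
    change mv (Equiv.sumCongr _ _) = _
    rw [mv_sum, mv_prod, mv_sigma]
    congr 1
    apply Finset.sum_congr rfl
    intro r _
    rw [mv_prod, mv_mulLeft]
  let _ : Fintype W := Fintype.ofFinite W
  let ι' : E →* alternatingGroup (W ⊕ W) :=
    { toFun := fun e => ⟨Equiv.Perm.sumCongr (ρ e) (ρ e), by
        rw [Equiv.Perm.mem_alternatingGroup]
        exact sign_double inferInstance (Classical.decEq W) _ _ (ρ e)⟩
      map_one' := by
        apply Subtype.ext
        ext w
        rcases w with w | w <;> simp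
      map_mul' := by
        intro e f
        apply Subtype.ext
        ext w
        rcases w with w | w <;> simp }
  have hmvι : ∀ e, mv (ι' e : Perm (W ⊕ W)) = (2 * b') * mv (π e : Perm s.X) + ℓ e := by
    intro e
    change mv (Equiv.sumCongr _ _) = _
    rw [mv_sum, hmvρ]
    simp only [ℓ]
    ring
  have hinj : Injective ι' := by
    rw [injective_iff_map_eq_one]
    intro e he
    have h0 : mv (ι' e : Perm (W ⊕ W)) = 0 := by rw [he]; exact mv_one
    rw [hmvι] at h0
    have hb' : 0 < b' := by simp only [b']; omega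
    have h1 : mv (π e : Perm s.X) = 0 := by
      have : (2 * b') * mv (π e : Perm s.X) = 0 := by omega
      rcases Nat.mul_eq_zero.1 this with h | h
      · omega
      · exact h
    have h2 : π e = 1 := by
      by_contra hne
      have := mv_pos (σ := (π e : Perm s.X)) (fun h => hne (Subtype.ext h))
      omega
    have h3 : ∑ r : P, K ^ (r : ℕ) * (if rp r e = 1 then 0 else Nat.card (Er r)) = 0 := by
      simp only [ℓ] at h0; omega
    apply eq_one_of_rp h2
    intro r
    have h4 := (Finset.sum_eq_zero_iff.1 h3) r (Finset.mem_univ r)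
    by_contra hne
    rw [if_neg hne] at h4
    rcases Nat.mul_eq_zero.1 h4 with h | h
    · have := Nat.one_le_pow (r : ℕ) K hK
      omega
    · have := hnr r
      omega
  refine ⟨{ X := W ⊕ W, F := E, ι := ι', inj := hinj, five := ?_, ns := ?_ }, j, π, ?_, ?_, ?_, ?_⟩
  · -- cardinality
    have hb' : 0 < b' := by simp only [b']; omega
    have hf : Injective (fun x : s.X => (Sum.inl (Sum.inl (⟨0, hb'⟩, x)) : W ⊕ W)) := by
      intro x y hxy
      exact (Prod.ext_iff.1 (Sum.inl.inj (Sum.inl.inj hxy))).2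
    have := Fintype.card_le_of_injective _ hf
    exact s.five.trans this
  · have : (fun f : E => ((mv (ι' f : Perm (W ⊕ W)) : ℕ) : ℝ)) =
        fun e : E => (((2 * b') * mv (π e : Perm s.X) + ℓ e : ℕ) : ℝ) := by
      funext e
      rw [hmvι]
    rw [this]
    exact hns
  · intro x y hxy
    apply s.inj
    exact congrArg (fun u : E => u.a) hxy
  · exact Ex.pr_surj
  · intro f; rfl
  · intro x y hx hy
    exact Ex.comm_ker hx hy

end H197.LS
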