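import Pool.Agent.H197R2.LSd

/-!
# The tower and the main theorem
-/

namespace H197.LS

open Function Equiv

section limit

variable {G : ℕ → Type} [∀ n, Group (G n)] (j : ∀ n, G n →* G (n + 1))

/-- transition maps (as in `H430.LF.tr`) -/
def tr (i k : ℕ) (h : i ≤ k) : G i →* G k :=
  Nat.leRecOn (C := fun k => G i →* G k) h (fun {k} f => (j k).comp f) (MonoidHom.id (G i))

theorem tr_self (i : ℕ) : tr j i i le_rfl = MonoidHom.id (G i) := Nat.leRecOn_self _

theorem tr_succ (i k : ℕ) (h : i ≤ k) (h' : i ≤ k + 1) : tr j i (k + 1) h' = (j k).comp (tr j i k h) :=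
  Nat.leRecOn_succ h _

theorem tr_trans (i k l : ℕ) (h : i ≤ k) (h' : k ≤ l) (x : G i) :
    tr j k l h' (tr j i k h x) = tr j i l (h.trans h') x := by
  induction l, h' using Nat.le_induction with
  | base => rw [tr_self]; rfl
  | succ l h' ih =>
    rw [tr_succ j k l h', tr_succ j i l (h.trans h'), MonoidHom.comp_apply, MonoidHom.comp_apply, ih]

theorem tr_inj (hj : ∀ n, Injective (j n)) (i k : ℕ) (h : i ≤ k) : Injective (tr j i k h) := by
  induction k, h using Nat.le_induction with
  | base => rw [tr_self]; exact injective_id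
  | succ l h ih =>
    rw [tr_succ j i l h]
    exact (hj l).comp ih

instance dirSys : DirectedSystem G (fun i k h => tr j i k h) where
  map_self i x := by
    rw [tr_self]; rfl
  map_map k i l h h' x := tr_trans j l i k h h' x

/-- the union of an increasing sequence of groups (as in `H430.LF.exists_limit`) -/
theorem exists_limit (hj : ∀ n, Injective (j n)) :
    ∃ (L : Type) (_ : Group L) (o : ∀ n, G n →* L), (∀ n, Injective (o n)) ∧
      (∀ n x, o (n + 1) (j n x) = o n x) ∧ ∀ y : L, ∃ n x, y = o n x := by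
  let o : ∀ n, G n →* DirectLimit G (tr j) := fun n =>
    { toFun := fun x => ⟦⟨n, x⟩⟧
      map_one' := (DirectLimit.one_def n).symm
      map_mul' := fun x y => (DirectLimit.mul_def n x y).symm }
  refine ⟨DirectLimit G (tr j), inferInstance, o, ?_, ?_, ?_⟩
  · intro n
    exact DirectLimit.mk_injective (tr j) (fun i k h => tr_inj j hj i k h) n
  · intro n x
    have h1 : j n x = tr j n (n + 1) (Nat.le_succ n) x := by
      rw [tr_succ j n n le_rfl, MonoidHom.comp_apply, tr_self]; rfl
    rw [h1]
    apply Quotient.sound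
    exact ⟨n + 1, le_rfl, Nat.le_succ n, by
      change tr j (n + 1) (n + 1) le_rfl _ = tr j n (n + 1) _ x
      rw [tr_self]; rfl⟩
  · intro y
    obtain ⟨i, x, hx⟩ := DirectLimit.exists_eq_mk (tr j) y
    exact ⟨i, x, hx⟩

end limit

theorem noSim_unit (L : Unit → ℝ) : NoSim L := by
  intro S _ _ hS _ w _ _ h
  have hnt : Nontrivial S := IsSimpleGroup.toNontrivial
  obtain ⟨p, hp, hpd⟩ := Nat.exists_prime_and_dvd (Finite.one_lt_card (α := S)).ne'
  have : Fact p.Prime := ⟨hp⟩
  obtain ⟨x, hx⟩ := exists_prime_orderOf_dvd_card' p hpd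
  have hPx : IsPGroup p (Subgroup.zpowers x) :=
    IsPGroup.of_card (n := 1) (by rw [Nat.card_zpowers, hx, pow_one])
  obtain ⟨α, hα, -⟩ := h p _ hPx
  have h1 : (⟨x, Subgroup.mem_zpowers x⟩ : Subgroup.zpowers x) = 1 := hα (Subsingleton.elim _ _)
  have h2 : x = 1 := congrArg Subtype.val h1
  rw [h2, orderOf_one] at hx
  exact hp.one_lt.ne hx

/-- the first stage -/
def base : Stg where
  X := Fin 5
  F := Unit
  ι := 1
  inj := fun _ _ _ => Subsingleton.elim _ _
  five := by simp
  ns := noSim_unit _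

/-- the next stage -/
noncomputable def nxt (s : Stg) : Stg := Classical.choose (exists_next s)

/-- the stages -/
noncomputable def stg : ℕ → Stg
  | 0 => base
  | (n + 1) => nxt (stg n)

theorem stg_spec (n : ℕ) : ∃ (j : (stg n).F →* (stg (n + 1)).F)
    (π : (stg (n + 1)).F →* alternatingGroup (stg n).X),
    Injective j ∧ Surjective π ∧ (∀ f, π (j f) = (stg n).ι f) ∧
      ∀ x y, π x = 1 → π y = 1 → x * y = y * x :=
  Classical.choose_spec (exists_next (stg n))

/-- There is an infinite (countable) locally finite simple group without nonabelian finite simple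
subgroups. -/
theorem main : ∃ (D : Type) (_ : Group D), Infinite D ∧ Countable D ∧
    (∀ H : Subgroup D, H.FG → Finite H) ∧ IsSimpleGroup D ∧
    ∀ H : Subgroup D, Finite H → IsSimpleGroup H → ∀ a b : H, a * b = b * a := by
  classical
  choose j π hjinj hπ hπj hcomm using stg_spec
  obtain ⟨L, _, o, hinj, hcompat, hunion⟩ := exists_limit (G := fun n => (stg n).F) j hjinj
  have hA : ∀ n, IsSimpleGroup (alternatingGroup (stg n).X) := fun n =>
    alternatingGroup.isSimpleGroup (by rw [Nat.card_eq_fintype_card]; exact (stg n).five)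
  have hperf : ∀ n, commutator (alternatingGroup (stg n).X) = ⊤ := fun n =>
    commutator_alternatingGroup_eq_top (by rw [Nat.card_eq_fintype_card]; exact (stg n).five)
  have hmono : ∀ n m, n ≤ m → ∀ x : (stg n).F, ∃ y : (stg m).F, o n x = o m y := by
    intro n m h
    induction m, h using Nat.le_induction with
    | base => intro x; exact ⟨x, rfl⟩
    | succ m h ih =>
      intro x
      obtain ⟨y, hy⟩ := ih x
      exact ⟨j m y, by rw [hcompat, hy]⟩
  have hfin : ∀ S : Finset L, ∃ m, ∀ s ∈ S, s ∈ (o m).range := by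
    intro S
    induction S using Finset.induction_on with
    | empty => exact ⟨0, by simp⟩
    | insert a S ha ih =>
      obtain ⟨m, hm⟩ := ih
      obtain ⟨n, x, hx⟩ := hunion a
      refine ⟨max m n, ?_⟩
      intro s hs
      rw [Finset.mem_insert] at hs
      rcases hs with rfl | hs
      · obtain ⟨y, hy⟩ := hmono n (max m n) (le_max_right _ _) x
        exact ⟨y, by rw [hx, hy]⟩
      · obtain ⟨z, hz⟩ := hm s hs
        obtain ⟨y, hy⟩ := hmono m (max m n) (le_max_left _ _) z
        exact ⟨y, by rw [← hz, hy]⟩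
  -- the key lemma
  have key : ∀ (U K : Subgroup L), K ≤ U → (∀ u ∈ U, ∀ k ∈ K, u * k * u⁻¹ ∈ K) → K ≠ ⊥ →
      (∀ n, ∀ a : alternatingGroup (stg n).X, ∃ y : (stg (n + 1)).F, o (n + 1) y ∈ U ∧ π n y = a) →
      ∀ y ∈ U, ∀ z ∈ U, y * z * y⁻¹ * z⁻¹ ∈ K := by
    intro U K hKU hnorm hK hU y hy z hz
    obtain ⟨x, hxK, hx1⟩ := (Subgroup.bot_or_exists_ne_one K).resolve_left hK
    obtain ⟨m, hm⟩ := hfin {x, y, z}
    obtain ⟨x0, hx0⟩ := hm x (by simp)
    obtain ⟨y0, hy0⟩ := hm y (by simp)
    obtain ⟨z0, hz0⟩ := hm z (by simp)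
    have hx0' : o (m + 1) (j m x0) = x := by rw [hcompat, hx0]
    have hy0' : o (m + 1) (j m y0) = y := by rw [hcompat, hy0]
    have hz0' : o (m + 1) (j m z0) = z := by rw [hcompat, hz0]
    let Q : Subgroup (alternatingGroup (stg m).X) := (K.comap (o (m + 1))).map (π m)
    have hQn : Q.Normal := by
      constructor
      rintro _ ⟨k, hk, rfl⟩ a
      obtain ⟨v, hv, rfl⟩ := hU m a
      refine ⟨v * k * v⁻¹, ?_, by simp⟩
      change o (m + 1) (v * k * v⁻¹) ∈ K
      rw [map_mul, map_mul, map_inv]
      exact hnorm _ hv _ hk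
    have hQ : Q = ⊤ := by
      rcases (hA m).eq_bot_or_eq_top_of_normal Q hQn with h | h
      · exfalso
        have h1 : π m (j m x0) ∈ Q := ⟨j m x0, by change _ ∈ K; rw [hx0']; exact hxK, rfl⟩
        rw [h, Subgroup.mem_bot, hπj] at h1
        have h2 : x0 = 1 := (stg m).inj (h1.trans (map_one _).symm)
        apply hx1
        rw [← hx0, h2, map_one]
      · exact h
    obtain ⟨k, hk, hky⟩ : π m (j m y0) ∈ Q := by rw [hQ]; trivial
    obtain ⟨l, hl, hlz⟩ : π m (j m z0) ∈ Q := by rw [hQ]; trivial
    have hk' : o (m + 1) k ∈ K := hk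
    have hl' : o (m + 1) l ∈ K := hl
    let c := k⁻¹ * j m y0
    let d := l⁻¹ * j m z0
    have hc : π m c = 1 := by simp only [c]; rw [map_mul, map_inv, hky, inv_mul_cancel]
    have hd : π m d = 1 := by simp only [d]; rw [map_mul, map_inv, hlz, inv_mul_cancel]
    have hcd := hcomm m c d hc hd
    have hcU : o (m + 1) c ∈ U := by
      simp only [c]
      rw [map_mul, map_inv, hy0']
      exact U.mul_mem (U.inv_mem (hKU hk')) hy
    have hdU : o (m + 1) d ∈ U := by
      simp only [d]
      rw [map_mul, map_inv, hz0']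
      exact U.mul_mem (U.inv_mem (hKU hl')) hz
    have hyc : y = o (m + 1) k * o (m + 1) c := by
      rw [← map_mul, ← hy0']; simp [c]
    have hzd : z = o (m + 1) l * o (m + 1) d := by
      rw [← map_mul, ← hz0']; simp [d]
    have hcd' : o (m + 1) c * o (m + 1) d = o (m + 1) d * o (m + 1) c := by
      rw [← map_mul, ← map_mul, hcd]
    set k' := o (m + 1) k
    set l' := o (m + 1) l
    set c' := o (m + 1) c
    set d' := o (m + 1) d
    have hfac : y * z * y⁻¹ * z⁻¹ = k' * (c' * l' * c'⁻¹) * (d' * k'⁻¹ * d'⁻¹) * l'⁻¹ := by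
      have h1 : c'⁻¹ * (d' * c') = d' := by rw [← hcd']; simp
      have h2 : d' * c'⁻¹ = c'⁻¹ * d' := by
        rw [mul_inv_eq_iff_eq_mul, mul_assoc, h1]
      rw [hyc, hzd]
      simp only [mul_inv_rev, mul_assoc]
      congr 3
      rw [← mul_assoc d' c'⁻¹, h2, mul_assoc]
    rw [hfac]
    exact K.mul_mem (K.mul_mem (K.mul_mem hk' (hnorm _ hcU _ hl'))
      (hnorm _ hdU _ (K.inv_mem hk'))) (K.inv_mem hl')
  let D : Subgroup L := commutator L
  have hDsurj : ∀ n, ∀ a : alternatingGroup (stg n).X,
      ∃ y : (stg (n + 1)).F, o (n + 1) y ∈ D ∧ π n y = a := by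
    intro n a
    have h1 : (commutator (stg (n + 1)).F).map (π n) = ⊤ := by
      rw [map_commutator_eq, MonoidHom.range_eq_top.2 (hπ n), ← commutator_def, hperf]
    have h2 : a ∈ (commutator (stg (n + 1)).F).map (π n) := by rw [h1]; trivial
    obtain ⟨y, hy, hya⟩ := h2
    refine ⟨y, ?_, hya⟩
    have h3 : (commutator (stg (n + 1)).F).map (o (n + 1)) ≤ commutator L := by
      rw [map_commutator_eq]
      exact Subgroup.commutator_mono le_top le_top
    exact h3 ⟨y, hy, rfl⟩
  -- `D` is perfect in the strong sense that it lies in every nontrivial normal subgroup of `L`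
  have hDle : ∀ N : Subgroup L, N.Normal → N ≠ ⊥ → D ≤ N := by
    intro N hN hN1
    have h1 := key ⊤ N le_top (fun u _ k hk => hN.conj_mem k hk u) hN1
      (fun n a => by
        obtain ⟨y, hy⟩ := hπ n a
        exact ⟨y, trivial, hy⟩)
    change ⁅(⊤ : Subgroup L), ⊤⁆ ≤ N
    rw [Subgroup.commutator_le]
    intro y hy z hz
    exact h1 y hy z hz
  have hnc : ∃ a b : (alternatingGroup (stg 0).X), a * b ≠ b * a := by
    by_contra hno
    push Not at hno
    have h1 : commutator (alternatingGroup (stg 0).X) = ⊥ := by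
      rw [eq_bot_iff, commutator_def, Subgroup.commutator_le]
      intro a _ b _
      rw [Subgroup.mem_bot, commutatorElement_eq_one_iff_mul_comm]
      exact hno a b
    rw [hperf 0] at h1
    have h2 : Nontrivial (alternatingGroup (stg 0).X) := (hA 0).toNontrivial
    exact absurd h1 top_ne_bot
  have hDna : ∃ a b : D, a * b ≠ b * a := by
    obtain ⟨a, b, hab⟩ := hnc
    obtain ⟨y, hy, rfl⟩ := hDsurj 0 a
    obtain ⟨z, hz, rfl⟩ := hDsurj 0 b
    refine ⟨⟨_, hy⟩, ⟨_, hz⟩, fun h => hab ?_⟩
    have h1 : o 1 y * o 1 z = o 1 z * o 1 y := congrArg Subtype.val h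
    rw [← map_mul, ← map_mul] at h1
    rw [← map_mul, ← map_mul, hinj 1 h1]
  have hDD : D ≤ ⁅D, D⁆ := by
    apply hDle
    · infer_instance
    · intro h
      obtain ⟨a, b, hab⟩ := hDna
      apply hab
      have h1 := Subgroup.commutator_mem_commutator a.2 b.2
      rw [h, Subgroup.mem_bot, commutatorElement_eq_one_iff_mul_comm] at h1
      exact Subtype.ext h1
  have hsimple : IsSimpleGroup D := by
    have hnt : Nontrivial D := by
      obtain ⟨a, b, hab⟩ := hDna
      exact ⟨a * b, b * a, hab⟩
    refine ⟨fun M hM => ?_⟩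
    by_cases hbot : M = ⊥
    · exact Or.inl hbot
    · right
      let K : Subgroup L := M.map D.subtype
      have hKD : K ≤ D := by
        rintro _ ⟨m, _, rfl⟩
        exact m.2
      have hKbot : K ≠ ⊥ := by
        intro h
        apply hbot
        exact (Subgroup.map_eq_bot_iff_of_injective M D.subtype_injective).1 h
      have h1 := key D K hKD (by
        rintro u hu _ ⟨m, hm, rfl⟩
        exact ⟨⟨u, hu⟩ * m * ⟨u, hu⟩⁻¹, hM.conj_mem m hm ⟨u, hu⟩, rfl⟩) hKbot hDsurj
      have h2 : D ≤ K := by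
        refine hDD.trans ?_
        rw [Subgroup.commutator_le]
        intro y hy z hz
        exact h1 y hy z hz
      rw [eq_top_iff]
      intro d _
      obtain ⟨m, hm, hmd⟩ := h2 d.2
      have : m = d := Subtype.ext hmd
      rw [← this]; exact hm
  have hlf : ∀ H : Subgroup L, H.FG → ∃ m, H ≤ (o m).range := by
    intro H hH
    obtain ⟨S, hS⟩ := hH
    obtain ⟨m, hm⟩ := hfin S
    refine ⟨m, ?_⟩
    rw [← hS, Subgroup.closure_le]
    intro s hs
    exact hm s hs
  have hrf : ∀ m, Finite (o m).range := by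
    intro m
    have := Set.finite_range (o m)
    exact this.to_subtype
  have hLF : ∀ H : Subgroup D, H.FG → Finite H := by
    intro H hH
    have hfg : (H.map D.subtype).FG := by
      obtain ⟨S, hS⟩ := hH
      exact ⟨S.image D.subtype, by rw [Finset.coe_image, ← MonoidHom.map_closure, hS]⟩
    obtain ⟨m, hm⟩ := hlf (H.map D.subtype) hfg
    have h1 : Finite (H.map D.subtype) := by
      have := hrf m
      exact Finite.of_injective _ (Subgroup.inclusion_injective hm)
    exact Finite.of_equiv _ (H.equivMapOfInjective D.subtype D.subtype_injective).symm.toEquiv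
  have hNS : ∀ H : Subgroup D, Finite H → IsSimpleGroup H → ∀ a b : H, a * b = b * a := by
    intro H hHf hHs
    by_contra hno
    push Not at hno
    let H' : Subgroup L := H.map D.subtype
    let e := H.equivMapOfInjective D.subtype D.subtype_injective
    have h1 : Finite H' := Finite.of_equiv _ e.toEquiv
    have hfg : H'.FG := by
      refine ⟨(Set.toFinite (H' : Set L)).toFinset, ?_⟩
      rw [Set.Finite.coe_toFinset, Subgroup.closure_eq]
    obtain ⟨m, hm⟩ := hlf H' hfg
    let θ : H →* (stg m).F :=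
      ((MonoidHom.ofInjective (hinj m)).symm.toMonoidHom.comp (Subgroup.inclusion hm)).comp
        e.toMonoidHom
    have hθ : Injective θ := by
      change Injective ((MonoidHom.ofInjective (hinj m)).symm ∘ (Subgroup.inclusion hm) ∘ e)
      exact (MulEquiv.injective _).comp ((Subgroup.inclusion_injective hm).comp e.injective)
    refine (stg m).ns H hHs hno (fun s => (mv ((stg m).ι (θ s) : Perm (stg m).X) : ℝ)) ?_ ?_ ?_
    · intro s t
      rw [map_mul, map_mul]
      exact_mod_cast mv_mul_le _ _
    · intro g s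
      have h2 : ((stg m).ι (θ (g * s * g⁻¹)) : Perm (stg m).X) =
          (((stg m).ι (θ g) : Perm (stg m).X)⁻¹)⁻¹ * ((stg m).ι (θ s) : Perm (stg m).X) *
            ((stg m).ι (θ g) : Perm (stg m).X)⁻¹ := by
        rw [inv_inv]; simp
      rw [h2, mv_conj]
    · intro p _ P hP
      refine ⟨θ.comp P.subtype, hθ.comp P.subtype_injective, fun s => ?_⟩
      change |(mv ((stg m).ι (θ s) : Perm (stg m).X) : ℝ) - mv ((stg m).ι (θ s) : Perm (stg m).X)| ≤ 1
      rw [sub_self, abs_zero]
      exact zero_le_one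
  refine ⟨D, inferInstance, ?_, ?_, hLF, hsimple, hNS⟩
  · by_contra hno
    rw [not_infinite_iff_finite] at hno
    obtain ⟨a, b, hab⟩ := hDna
    have hT : IsSimpleGroup (⊤ : Subgroup D) :=
      (Subgroup.topEquiv (G := D)).isSimpleGroup_congr.2 hsimple
    have := hNS ⊤ inferInstance hT ⟨a, trivial⟩ ⟨b, trivial⟩
    exact hab (congrArg Subtype.val this)
  · have hc : Countable L := by
      have : Surjective (fun x : Σ n, (stg n).F => o x.1 x.2) := by
        intro y
        obtain ⟨n, x, hx⟩ := hunion y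
        exact ⟨⟨n, x⟩, hx.symm⟩
      exact this.countable
    infer_instance

end H197.LS
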