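import Pool.Agent.H961R2.Lev.Stubs

open MeasureTheory Set Filter Topology InnerProductSpace Complex

namespace H961Lev

theorem P6_ker1 {y s : ℝ} (hy : 0 < y) (hs : 0 < s) (τ : ℝ) :
    (y / (y + s)) * PK y τ ≤ PK (y + s) τ := by
  unfold PK
  have hpi := Real.pi_pos
  rw [div_mul_div_comm, div_le_div_iff₀ (by positivity) (by positivity)]
  have h1 : 0 ≤ Real.pi * τ ^ 2 * (s * (2 * y + s)) := by positivity
  nlinarith

theorem P6_ker2 {y s : ℝ} (hy : 0 < y) (hs : 0 < s) (τ : ℝ) :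
    PK (y + s) τ ≤ ((y + s) / y) * PK y τ := by
  unfold PK
  have hpi := Real.pi_pos
  have e1 : (y + s) / y * (y / (Real.pi * (τ ^ 2 + y ^ 2))) = (y + s) / (Real.pi * (τ ^ 2 + y ^ 2)) := by
    field_simp
  rw [e1]
  apply div_le_div_of_nonneg_left (by positivity) (by positivity)
  apply mul_le_mul_of_nonneg_left _ hpi.le
  nlinarith

theorem P6_ker3 {x x' d H : ℝ} (hH : 0 < H) (hd : |x - x'| ≤ d) (t : ℝ) :
    PK H (x' - t) ≤ (1 + d / H + d ^ 2 / H ^ 2) * PK H (x - t) := by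
  have hpi := Real.pi_pos
  have hd0 : 0 ≤ d := (abs_nonneg _).trans hd
  unfold PK
  set a := x' - t with ha
  have hxt : x - t = a + (x - x') := by rw [ha]; ring
  have h1 : (x - t) ^ 2 + H ^ 2 ≤ (1 + d / H + d ^ 2 / H ^ 2) * (a ^ 2 + H ^ 2) := by
    have h2 : (x - t) ^ 2 ≤ a ^ 2 + 2 * |a| * d + d ^ 2 := by
      rw [hxt]
      have h3 : a * (x - x') ≤ |a| * d := by
        calc a * (x - x') ≤ |a * (x - x')| := le_abs_self _
          _ = |a| * |x - x'| := abs_mul _ _
          _ ≤ |a| * d := mul_le_mul_of_nonneg_left hd (abs_nonneg _)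
      have h4 : (x - x') ^ 2 ≤ d ^ 2 := by
        rw [← sq_abs]
        exact pow_le_pow_left₀ (abs_nonneg _) hd 2
      nlinarith
    have h5 : 2 * |a| * d ≤ d / H * (a ^ 2 + H ^ 2) := by
      have h6 : 2 * |a| * H ≤ a ^ 2 + H ^ 2 := by
        have := sq_nonneg (|a| - H)
        have h7 := sq_abs a
        nlinarith
      calc 2 * |a| * d = d / H * (2 * |a| * H) := by field_simp
        _ ≤ d / H * (a ^ 2 + H ^ 2) := mul_le_mul_of_nonneg_left h6 (by positivity)
    have h8 : d ^ 2 ≤ d ^ 2 / H ^ 2 * (a ^ 2 + H ^ 2) := by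
      have h9 : d ^ 2 = d ^ 2 / H ^ 2 * H ^ 2 := by field_simp
      calc d ^ 2 = d ^ 2 / H ^ 2 * H ^ 2 := h9
        _ ≤ d ^ 2 / H ^ 2 * (a ^ 2 + H ^ 2) := by
          apply mul_le_mul_of_nonneg_left _ (by positivity)
          nlinarith [sq_nonneg a]
    have h10 : (1 + d / H + d ^ 2 / H ^ 2) * (a ^ 2 + H ^ 2)
        = a ^ 2 + H ^ 2 + d / H * (a ^ 2 + H ^ 2) + d ^ 2 / H ^ 2 * (a ^ 2 + H ^ 2) := by ring
    rw [h10]
    linarith
  rw [← mul_div_assoc, div_le_div_iff₀ (by positivity) (by positivity)]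
  calc H * (Real.pi * ((x - t) ^ 2 + H ^ 2))
      = H * Real.pi * ((x - t) ^ 2 + H ^ 2) := by ring
    _ ≤ H * Real.pi * ((1 + d / H + d ^ 2 / H ^ 2) * (a ^ 2 + H ^ 2)) :=
        mul_le_mul_of_nonneg_left h1 (by positivity)
    _ = (1 + d / H + d ^ 2 / H ^ 2) * H * (Real.pi * (a ^ 2 + H ^ 2)) := by ring

theorem T_P6 : S_P4 → S_P6 := by
  intro hP4 u A hu hlim hA
  obtain ⟨-, hrep⟩ := hP4 u A hu hlim
  have hu0 : ∀ t : ℝ, 0 ≤ u (t : ℂ) := fun t => hu.nonneg _ (by simp)
  refine ⟨?_, ?_⟩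
  · intro x y s hy hs
    have hys : 0 < y + s := by linarith
    obtain ⟨hi1, he1⟩ := hrep x y hy
    obtain ⟨hi2, he2⟩ := hrep x (y + s) hys
    rw [he1, he2]
    have hc1 : 0 ≤ y / (y + s) := by positivity
    constructor
    · rw [mul_add, ← integral_const_mul]
      have h1 : y / (y + s) * (A * y) ≤ A * (y + s) := by
        rw [div_mul_eq_mul_div, div_le_iff₀ hys]
        have : 0 ≤ A * (s * (2 * y + s)) := by positivity
        nlinarith
      have h2 : ∫ t : ℝ, y / (y + s) * (PK y (x - t) * u (t : ℂ))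
          ≤ ∫ t : ℝ, PK (y + s) (x - t) * u (t : ℂ) := by
        apply integral_mono (hi1.const_mul _) hi2
        intro t
        simp only
        rw [← mul_assoc]
        exact mul_le_mul_of_nonneg_right (P6_ker1 hy hs _) (hu0 t)
      exact add_le_add h1 h2
    · rw [mul_add ((y + s) / y), ← integral_const_mul]
      have h1 : A * (y + s) ≤ (y + s) / y * (A * y) := by
        apply le_of_eq
        field_simp
      have h2 : ∫ t : ℝ, PK (y + s) (x - t) * u (t : ℂ)
          ≤ ∫ t : ℝ, (y + s) / y * (PK y (x - t) * u (t : ℂ)) := by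
        apply integral_mono hi2 (hi1.const_mul _)
        intro t
        simp only
        rw [← mul_assoc]
        exact mul_le_mul_of_nonneg_right (P6_ker2 hy hs _) (hu0 t)
      exact add_le_add h1 h2
  · intro x x' d H hH hd
    have hd0 : 0 ≤ d := (abs_nonneg _).trans hd
    obtain ⟨hi1, he1⟩ := hrep x H hH
    obtain ⟨hi2, he2⟩ := hrep x' H hH
    rw [he1, he2, mul_add, ← integral_const_mul]
    have h1 : A * H ≤ (1 + d / H + d ^ 2 / H ^ 2) * (A * H) := by
      have h3 : 0 ≤ (d / H + d ^ 2 / H ^ 2) * (A * H) := by positivity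
      nlinarith
    have h2 : ∫ t : ℝ, PK H (x' - t) * u (t : ℂ)
        ≤ ∫ t : ℝ, (1 + d / H + d ^ 2 / H ^ 2) * (PK H (x - t) * u (t : ℂ)) := by
      apply integral_mono hi2 (hi1.const_mul _)
      intro t
      simp only
      rw [← mul_assoc]
      exact mul_le_mul_of_nonneg_right (P6_ker3 hH hd t) (hu0 t)
    exact add_le_add h1 h2

end H961Lev
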