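import Pool.Agent.H197R2.N24E

/-!
Central relative difference sets: reduction to normal form, equivalence, and bilinear maps.
-/

namespace H197N24

abbrev X := (V → V → V) × Finset (V × V)

def Valid (x : X) : Prop := x.1 0 0 = 0 ∧
        (∀ g h l : V, x.1 g h + x.1 (g + h) l = x.1 h l + x.1 g (h + l)) ∧
        x.2.card = 2 ^ 4 ∧
        (∀ e : V × V, e ≠ 0 →
          (e.1 = 0 → {s | s ∈ x.2 ∧ (e.1 + s.1, e.2 + s.2 + x.1 e.1 s.1) ∈ x.2}.ncard = 0) ∧
          (e.1 ≠ 0 → {s | s ∈ x.2 ∧ (e.1 + s.1, e.2 + s.2 + x.1 e.1 s.1) ∈ x.2}.ncard = 1))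

def Eqv (x y : X) : Prop := ∃ f : V × V ≃ V × V,
          (∀ a b : V × V,
            f (a.1 + b.1, a.2 + b.2 + x.1 a.1 b.1) =
              ((f a).1 + (f b).1, (f a).2 + (f b).2 + y.1 (f a).1 (f b).1)) ∧
          (∀ c : V, (f (0, c)).1 = 0) ∧
          ∃ g : V × V,
            ∀ z : V × V,
              (∃ r ∈ x.2, f r = z) ↔ (∃ r ∈ y.2, z = (r.1 + g.1, r.2 + g.2 + y.1 r.1 g.1))

def mm (F : V → V → V) (a b : V × V) : V × V := (a.1 + b.1, a.2 + b.2 + F a.1 b.1)

def iv (F : V → V → V) (a : V × V) : V × V := (a.1, a.2 + F a.1 a.1)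

section
variable {F : V → V → V}

theorem Fzl (h0 : F 0 0 = 0) (hc : ∀ g h l : V, F g h + F (g + h) l = F h l + F g (h + l)) (l : V) :
    F 0 l = 0 := by
  have := hc 0 0 l
  rw [add_zero, zero_add, h0] at this
  grind

theorem Fzr (h0 : F 0 0 = 0) (hc : ∀ g h l : V, F g h + F (g + h) l = F h l + F g (h + l)) (l : V) :
    F l 0 = 0 := by
  have := hc l 0 0
  rw [add_zero, add_zero, h0] at this
  grind

theorem mm_assoc (hc : ∀ g h l : V, F g h + F (g + h) l = F h l + F g (h + l)) (a b c : V × V) :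
    mm F (mm F a b) c = mm F a (mm F b c) := by
  unfold mm
  ext1
  · simp only; abel
  · simp only
    have := hc a.1 b.1 c.1
    grind

theorem mm_iv (h0 : F 0 0 = 0) (a : V × V) : mm F a (iv F a) = 0 := by
  unfold mm iv
  ext1
  · simp only [Prod.fst_zero]; grind
  · simp only [Prod.snd_zero]; grind

theorem iv_mm (h0 : F 0 0 = 0) (a : V × V) : mm F (iv F a) a = 0 := by
  unfold mm iv
  ext1
  · simp only [Prod.fst_zero]; grind
  · simp only [Prod.snd_zero]; grind

theorem mm_zero (h0 : F 0 0 = 0) (hc : ∀ g h l : V, F g h + F (g + h) l = F h l + F g (h + l)) (a : V × V) :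
    mm F a 0 = a := by
  unfold mm
  ext1
  · simp only [Prod.fst_zero, add_zero]
  · simp only [Prod.snd_zero, Prod.fst_zero, add_zero, Fzr h0 hc]

theorem zero_mm (h0 : F 0 0 = 0) (hc : ∀ g h l : V, F g h + F (g + h) l = F h l + F g (h + l)) (a : V × V) :
    mm F 0 a = a := by
  unfold mm
  ext1
  · simp only [Prod.fst_zero, zero_add]
  · simp only [Prod.snd_zero, Prod.fst_zero, zero_add, Fzl h0 hc, add_zero]

end

theorem Eqv.symm {x y : X} (hy : Valid y) (h : Eqv x y) : Eqv y x := by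
  obtain ⟨f, hom, hN, g, hR⟩ := h
  obtain ⟨y0, yc, -, -⟩ := hy
  have hom' : ∀ a b, f (mm x.1 a b) = mm y.1 (f a) (f b) := hom
  have homs : ∀ a b, f.symm (mm y.1 a b) = mm x.1 (f.symm a) (f.symm b) := by
    intro a b
    rw [Equiv.symm_apply_eq, hom', f.apply_symm_apply, f.apply_symm_apply]
  refine ⟨f.symm, homs, ?_, f.symm (iv y.1 g), ?_⟩
  · intro c
    have hinj : Function.Injective (fun c : V => (f (0, c)).2) := by
      intro a b hab
      have : f (0, a) = f (0, b) := by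
        ext1
        · rw [hN, hN]
        · exact hab
      exact (Prod.mk.inj (f.injective this)).2
    obtain ⟨c', hc'⟩ := (Finite.injective_iff_surjective.mp hinj) c
    have : f (0, c') = (0, c) := by
      ext1
      · exact hN c'
      · exact hc'
    rw [← this, f.symm_apply_apply]
  · intro z
    constructor
    · rintro ⟨r, hr, rfl⟩
      obtain ⟨r', hr', he⟩ := (hR (mm y.1 r g)).mpr ⟨r, hr, rfl⟩
      refine ⟨r', hr', ?_⟩
      change f.symm r = mm x.1 r' (f.symm (iv y.1 g))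
      rw [Equiv.symm_apply_eq, hom', he, f.apply_symm_apply, mm_assoc yc, mm_iv y0, mm_zero y0 yc]
    · rintro ⟨r', hr', he⟩
      obtain ⟨r, hr, hf⟩ := (hR (f r')).mp ⟨r', hr', rfl⟩
      refine ⟨r, hr, ?_⟩
      change z = mm x.1 r' (f.symm (iv y.1 g)) at he
      change f r' = mm y.1 r g at hf
      rw [Equiv.symm_apply_eq, he, hom', f.apply_symm_apply, hf, mm_assoc yc, mm_iv y0, mm_zero y0 yc]

theorem Eqv.trans {x y z : X} (hz : Valid z) (h1 : Eqv x y) (h2 : Eqv y z) : Eqv x z := by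
  obtain ⟨f1, hom1, hN1, g1, hR1⟩ := h1
  obtain ⟨f2, hom2, hN2, g2, hR2⟩ := h2
  have zc := hz.2.1
  have hom1' : ∀ a b, f1 (mm x.1 a b) = mm y.1 (f1 a) (f1 b) := hom1
  have hom2' : ∀ a b, f2 (mm y.1 a b) = mm z.1 (f2 a) (f2 b) := hom2
  refine ⟨f1.trans f2, ?_, ?_, mm z.1 g2 (f2 g1), ?_⟩
  · intro a b
    change f2 (f1 (mm x.1 a b)) = mm z.1 (f2 (f1 a)) (f2 (f1 b))
    rw [hom1', hom2']
  · intro c
    change (f2 (f1 (0, c))).1 = 0
    have : f1 (0, c) = (0, (f1 (0, c)).2) := by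
      ext1
      · exact hN1 c
      · rfl
    rw [this]; exact hN2 _
  · intro t
    constructor
    · rintro ⟨r, hr, rfl⟩
      obtain ⟨r', hr', he⟩ := (hR1 (f1 r)).mp ⟨r, hr, rfl⟩
      obtain ⟨r'', hr'', he'⟩ := (hR2 (f2 r')).mp ⟨r', hr', rfl⟩
      refine ⟨r'', hr'', ?_⟩
      change f2 (f1 r) = mm z.1 r'' (mm z.1 g2 (f2 g1))
      change f1 r = mm y.1 r' g1 at he
      change f2 r' = mm z.1 r'' g2 at he'
      rw [he, hom2', he', mm_assoc zc]
    · rintro ⟨r'', hr'', he⟩
      obtain ⟨r', hr', he'⟩ := (hR2 (mm z.1 r'' g2)).mpr ⟨r'', hr'', rfl⟩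
      obtain ⟨r, hr, he''⟩ := (hR1 (mm y.1 r' g1)).mpr ⟨r', hr', rfl⟩
      refine ⟨r, hr, ?_⟩
      change t = mm z.1 r'' (mm z.1 g2 (f2 g1)) at he
      change f2 (f1 r) = t
      rw [he'', hom2', he', he, mm_assoc zc]

def cls (x : X) : Set X := {y | Valid y ∧ Eqv x y}

theorem cls_eq {x y : X} (hy : Valid y) (h : Eqv x y) : cls x = cls y := by
  ext z
  constructor
  · rintro ⟨hz, hxz⟩
    exact ⟨hz, Eqv.trans hz (h.symm hy) hxz⟩
  · rintro ⟨hz, hyz⟩
    exact ⟨hz, Eqv.trans hz h hyz⟩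

theorem Eqv.refl (x : X) (hx : Valid x) : Eqv x x := by
  obtain ⟨x0, xc, -, -⟩ := hx
  refine ⟨Equiv.refl _, fun a b => rfl, fun c => rfl, 0, ?_⟩
  intro z
  constructor
  · rintro ⟨r, hr, rfl⟩
    exact ⟨r, hr, (mm_zero x0 xc r).symm⟩
  · rintro ⟨r, hr, he⟩
    exact ⟨r, hr, by rw [he]; exact (mm_zero x0 xc r).symm⟩

theorem eqv_of_cls {x y : X} (hx : Valid x) (hy : Valid y) (h : cls x = cls y) : Eqv x y := by
  have : y ∈ cls y := ⟨hy, Eqv.refl y hy⟩
  rw [← h] at this
  exact this.2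

def R0 : Finset (V × V) := Finset.univ ×ˢ {0}

theorem mem_R0 (a : V × V) : a ∈ R0 ↔ a.2 = 0 := by
  unfold R0
  rw [Finset.mem_product, Finset.mem_singleton]
  exact ⟨fun h => h.2, fun h => ⟨Finset.mem_univ _, h⟩⟩

structure Bil (ψ : V → V → V) : Prop where
  addl : ∀ x y z, ψ (x + y) z = ψ x z + ψ y z
  addr : ∀ x y z, ψ x (y + z) = ψ x y + ψ x z
  nd : ∀ x y, ψ x y = 0 → x = 0 ∨ y = 0

theorem Bil.zl {ψ : V → V → V} (h : Bil ψ) (y : V) : ψ 0 y = 0 := by
  have := h.addl 0 0 y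
  rw [add_zero] at this; grind

theorem Bil.zr {ψ : V → V → V} (h : Bil ψ) (y : V) : ψ y 0 = 0 := by
  have := h.addr y 0 0
  rw [add_zero] at this; grind

theorem Bil.inj {ψ : V → V → V} (h : Bil ψ) {x : V} (hx : x ≠ 0) : Function.Injective (ψ x) := by
  intro a b hab
  have : ψ x (a + b) = 0 := by rw [h.addr, hab]; exact add_self_V _
  rcases h.nd _ _ this with h1 | h1
  · exact absurd h1 hx
  · grind

theorem Bil.injl {ψ : V → V → V} (h : Bil ψ) {x : V} (hx : x ≠ 0) : Function.Injective (fun y => ψ y x) := by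
  intro a b hab
  have : ψ (a + b) x = 0 := by
    rw [h.addl]; simp only at hab; rw [hab]; exact add_self_V _
  rcases h.nd _ _ this with h1 | h1
  · grind
  · exact absurd h1 hx

theorem Orth.bil {ψ : V → V → V} (h : Orth ψ) : Bil ψ where
  addl := add_left h
  addr := add_right h
  nd := by
    intro x y hxy
    by_cases hx : x = 0
    · left; exact hx
    · right; exact h.inj x hx (hxy.trans (h.zr x).symm)

theorem R0_card : R0.card = 2 ^ 4 := by
  unfold R0; simp [Finset.card_univ]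

theorem Bil.valid {ψ : V → V → V} (h : Bil ψ) : Valid (ψ, R0) := by
  refine ⟨h.zl 0, ?_, R0_card, ?_⟩
  · intro g k l
    simp only [h.addl, h.addr]
    abel
  · intro e he
    constructor
    · intro h1
      rw [Set.ncard_eq_zero]
      ext s
      simp only [Set.mem_setOf_eq, mem_R0, Set.mem_empty_iff_false, iff_false, not_and]
      intro hs h2
      rw [h1, h.zl, hs] at h2
      apply he
      ext1
      · exact h1
      · simpa using h2
    · intro h1
      have hbij : Function.Bijective (ψ e.1) := (Finite.injective_iff_bijective).mp (h.inj h1)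
      obtain ⟨v, hv⟩ := hbij.2 e.2
      rw [Set.ncard_eq_one]
      refine ⟨(v, 0), ?_⟩
      ext s
      simp only [Set.mem_setOf_eq, mem_R0, Set.mem_singleton_iff]
      constructor
      · rintro ⟨hs, h2⟩
        rw [hs, add_zero] at h2
        ext1
        · apply hbij.1
          rw [hv]; grind
        · exact hs
      · rintro rfl
        refine ⟨rfl, ?_⟩
        simp only [hv]
        grind

theorem normal_form (x : X) (hx : Valid x) : ∃ ψ, Bil ψ ∧ Eqv x (ψ, R0) := by
  obtain ⟨F, R⟩ := x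
  have hx0 := hx
  obtain ⟨x0, xc, xcard, xR⟩ := hx
  simp only at x0 xc xcard xR
  -- first projection is injective on R
  have pinj : Set.InjOn (fun a : V × V => a.1) R := by
    intro a ha b hb hab
    simp only at hab
    by_contra hne
    have hb2 : a.2 + b.2 ≠ 0 := by
      intro hh; apply hne
      ext1
      · exact hab
      · grind
    have h1 := (xR (0, a.2 + b.2) (by intro hh; exact hb2 (congrArg Prod.snd hh))).1 rfl
    rw [Set.ncard_eq_zero] at h1
    have : b ∈ ({s | s ∈ R ∧ ((0 : V) + s.1, a.2 + b.2 + s.2 + F 0 s.1) ∈ R} : Set (V × V)) := by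
      refine ⟨hb, ?_⟩
      rw [Fzl x0 xc, zero_add, add_zero, ← hab, show a.2 + b.2 + b.2 = a.2 by grind]
      exact ha
    simp only at h1
    rw [h1] at this
    exact this
  have himg : R.image (fun a : V × V => a.1) = Finset.univ := by
    apply Finset.eq_univ_of_card
    rw [Finset.card_image_of_injOn pinj, xcard]
    simp
  have hrho : ∀ v : V, ∃ w, (v, w) ∈ R := by
    intro v
    have : v ∈ R.image (fun a : V × V => a.1) := by rw [himg]; exact Finset.mem_univ _
    rw [Finset.mem_image] at this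
    obtain ⟨a, ha, rfl⟩ := this
    exact ⟨a.2, ha⟩
  choose ρ hρ using hrho
  have memR : ∀ a : V × V, a ∈ R ↔ a.2 = ρ a.1 := by
    intro a
    constructor
    · intro ha
      have := pinj ha (hρ a.1) rfl
      exact congrArg Prod.snd this
    · intro ha
      have : a = (a.1, ρ a.1) := by ext1; rfl; exact ha
      rw [this]; exact hρ _
  set ρ' : V → V := fun v => ρ v + ρ 0 with hρ'
  have ρ'0 : ρ' 0 = 0 := add_self_V _
  set ψ : V → V → V := fun a c => F a c + ρ' a + ρ' c + ρ' (a + c) with hψ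
  have horth : Orth ψ := by
    constructor
    · intro y; simp only [hψ, Fzl x0 xc, ρ'0, zero_add]; exact add_self_V _
    · intro y; simp only [hψ, Fzr x0 xc, ρ'0, zero_add, add_zero]; exact add_self_V _
    · intro a b c
      have := xc a b c
      simp only [hψ]
      rw [show a + (b + c) = a + b + c by abel]
      grind
    · intro a ha b c hbc
      -- unique solution
      have h1 := (xR (a, ψ a b + ρ' a) (by intro hh; exact ha (congrArg Prod.fst hh))).2 ha
      rw [Set.ncard_eq_one] at h1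
      obtain ⟨s0, hs0⟩ := h1
      simp only at hs0
      have hb : (b, ρ b) ∈ ({s | s ∈ R ∧ (a + s.1, ψ a b + ρ' a + s.2 + F a s.1) ∈ R} : Set (V × V)) := by
        refine ⟨hρ b, ?_⟩
        rw [memR]
        simp only [hψ, hρ']
        grind
      have hc : (c, ρ c) ∈ ({s | s ∈ R ∧ (a + s.1, ψ a b + ρ' a + s.2 + F a s.1) ∈ R} : Set (V × V)) := by
        refine ⟨hρ c, ?_⟩
        rw [memR, hbc]
        simp only [hψ, hρ']
        grind
      rw [hs0] at hb hc
      have : (b, ρ b) = (c, ρ c) := hb.trans hc.symm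
      exact congrArg Prod.fst this
  refine ⟨ψ, horth.bil, ?_⟩
  let f : V × V ≃ V × V :=
    { toFun := fun a => (a.1, a.2 + ρ' a.1)
      invFun := fun a => (a.1, a.2 + ρ' a.1)
      left_inv := by intro a; ext1; rfl; simp only; grind
      right_inv := by intro a; ext1; rfl; simp only; grind }
  refine ⟨f, ?_, ?_, (0, ρ 0), ?_⟩
  · intro a b
    change (a.1 + b.1, a.2 + b.2 + F a.1 b.1 + ρ' (a.1 + b.1)) =
      (a.1 + b.1, (a.2 + ρ' a.1) + (b.2 + ρ' b.1) + ψ a.1 b.1)
    ext1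
    · rfl
    · simp only [hψ]; grind
  · intro c; rfl
  · intro z
    constructor
    · rintro ⟨r, hr, rfl⟩
      refine ⟨(r.1, 0), by rw [mem_R0], ?_⟩
      change (r.1, r.2 + ρ' r.1) = (r.1 + 0, 0 + ρ 0 + ψ r.1 0)
      rw [horth.zr]
      rw [memR] at hr
      ext1
      · simp
      · simp only [hr, hρ']; grind
    · rintro ⟨r, hr, he⟩
      refine ⟨(r.1, ρ r.1), hρ _, ?_⟩
      change (r.1, ρ r.1 + ρ' r.1) = z
      rw [he]
      change _ = (r.1 + 0, r.2 + ρ 0 + ψ r.1 0)
      rw [horth.zr]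
      rw [mem_R0] at hr
      ext1
      · simp
      · simp only [hr, hρ']; grind

theorem eqv_of_iso {ψ ψ' : V → V → V} (h : Bil ψ) (h' : Bil ψ') (P Q : V ≃+ V)
    (hPQ : ∀ x y, Q (ψ x y) = ψ' (P x) (P y)) : Eqv (ψ, R0) (ψ', R0) := by
  refine ⟨Equiv.prodCongr P.toEquiv Q.toEquiv, ?_, ?_, 0, ?_⟩
  · intro a b
    change (P (a.1 + b.1), Q (a.2 + b.2 + ψ a.1 b.1)) = (P a.1 + P b.1, Q a.2 + Q b.2 + ψ' (P a.1) (P b.1))
    rw [map_add, map_add, map_add, hPQ]
  · intro c
    change P 0 = 0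
    exact map_zero P
  · intro z
    constructor
    · rintro ⟨r, hr, rfl⟩
      rw [mem_R0] at hr
      refine ⟨(P r.1, 0), by rw [mem_R0], ?_⟩
      change (P r.1, Q r.2) = (P r.1 + 0, 0 + 0 + ψ' (P r.1) 0)
      rw [h'.zr, hr, map_zero]; simp
    · rintro ⟨r, hr, he⟩
      rw [mem_R0] at hr
      refine ⟨(P.symm r.1, 0), by rw [mem_R0], ?_⟩
      change (P (P.symm r.1), Q 0) = z
      rw [he]
      change _ = (r.1 + 0, r.2 + 0 + ψ' r.1 0)
      rw [h'.zr, hr, map_zero, P.apply_symm_apply]; simp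

theorem iso_of_eqv {ψ ψ' : V → V → V} (h : Bil ψ) (h' : Bil ψ') (he : Eqv (ψ, R0) (ψ', R0)) :
    ∃ P Q : V ≃+ V, ∀ x y, Q (ψ x y) = ψ' (P x) (P y) := by
  obtain ⟨f, hom, hN, g, hR⟩ := he
  have hom' : ∀ a b, f (mm ψ a b) = mm ψ' (f a) (f b) := hom
  have vψ := h.valid
  have vψ' := h'.valid
  have f0 : f 0 = 0 := by
    have h1 := hom' 0 0
    rw [mm_zero vψ.1 vψ.2.1] at h1
    have h2 := congrArg (fun t => mm ψ' t (iv ψ' (f 0))) h1
    rw [mm_assoc vψ'.2.1, mm_iv vψ'.1, mm_zero vψ'.1 vψ'.2.1] at h2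
    exact h2.symm
  -- Q
  have hQadd : ∀ a b : V, (f (0, a + b)).2 = (f (0, a)).2 + (f (0, b)).2 := by
    intro a b
    have h1 := hom' (0, a) (0, b)
    have h2 : mm ψ ((0 : V), a) (0, b) = (0, a + b) := by
      unfold mm; simp only [h.zl, add_zero]
    rw [h2] at h1
    rw [h1]
    unfold mm
    simp only [hN, h'.zl, add_zero]
  have hQinj : Function.Injective (fun c : V => (f (0, c)).2) := by
    intro a b hab
    have : f (0, a) = f (0, b) := by
      ext1
      · rw [hN, hN]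
      · exact hab
    exact (Prod.mk.inj (f.injective this)).2
  have fN : ∀ c, f (0, c) = (0, (f (0, c)).2) := by
    intro c; ext1
    · exact hN c
    · rfl
  -- f (x, c) = f (x,0) * (0, Q c)
  have fxc : ∀ x c, f (x, c) = ((f (x, 0)).1, (f (x, 0)).2 + (f (0, c)).2) := by
    intro x c
    have h1 := hom' (x, 0) (0, c)
    have h2 : mm ψ (x, 0) ((0 : V), c) = (x, c) := by
      unfold mm; simp only [h.zr, add_zero, zero_add]
    rw [h2, fN c] at h1
    rw [h1]
    unfold mm
    simp only [h'.zr, add_zero]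
  have hPadd : ∀ x y, (f (x + y, 0)).1 = (f (x, 0)).1 + (f (y, 0)).1 := by
    intro x y
    have h1 := hom' (x, 0) (y, 0)
    have h2 : mm ψ (x, 0) (y, (0 : V)) = (x + y, ψ x y) := by
      unfold mm; simp only [add_zero, zero_add]
    rw [h2, fxc] at h1
    exact congrArg Prod.fst h1
  have hPinj : Function.Injective (fun x : V => (f (x, 0)).1) := by
    intro x y hxy
    simp only at hxy
    -- (x+y,0) maps into N
    have h1 : (f (x + y, 0)).1 = 0 := by rw [hPadd, hxy]; exact add_self_V _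
    obtain ⟨c', hc'⟩ := (Finite.injective_iff_surjective.mp hQinj) (f (x + y, 0)).2
    change (f (0, c')).2 = (f (x + y, 0)).2 at hc'
    have : f (x + y, 0) = f (0, c') := by
      rw [fN c', hc']
      ext1
      · exact h1
      · rfl
    have := congrArg Prod.fst (f.injective this)
    simp only at this
    grind
  let P : V ≃+ V := AddEquiv.ofBijective (AddMonoidHom.mk' (fun x : V => (f (x, 0)).1) hPadd)
    ((Finite.injective_iff_bijective).mp hPinj)
  let Q : V ≃+ V := AddEquiv.ofBijective (AddMonoidHom.mk' (fun x : V => (f (0, x)).2) hQadd)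
    ((Finite.injective_iff_bijective).mp hQinj)
  have Pdef : ∀ x, P x = (f (x, 0)).1 := fun x => rfl
  have Qdef : ∀ x, Q x = (f (0, x)).2 := fun x => rfl
  -- s x = (f (x,0)).2 = ψ' (P x) g.1
  have hg : g.2 = ψ' g.1 g.1 := by
    obtain ⟨r, hr, he⟩ := (hR 0).mp ⟨0, by rw [mem_R0]; rfl, f0⟩
    rw [mem_R0] at hr
    have e1 := congrArg Prod.fst he
    have e2 := congrArg Prod.snd he
    simp only [Prod.fst_zero, Prod.snd_zero] at e1 e2
    have : r.1 = g.1 := by grind
    rw [this, hr] at e2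
    grind
  have hs : ∀ x, (f (x, 0)).2 = ψ' (P x) g.1 := by
    intro x
    obtain ⟨r, hr, he⟩ := (hR (f (x, 0))).mp ⟨(x, 0), by rw [mem_R0], rfl⟩
    rw [mem_R0] at hr
    have e1 := congrArg Prod.fst he
    have e2 := congrArg Prod.snd he
    simp only at e1 e2
    have : r.1 = P x + g.1 := by rw [Pdef, e1]; grind
    rw [e2, this, hr, hg, h'.addl]
    grind
  refine ⟨P, Q, ?_⟩
  intro x y
  have h1 := hom' (x, 0) (y, 0)
  have h2 : mm ψ (x, 0) (y, (0 : V)) = (x + y, ψ x y) := by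
    unfold mm; simp only [add_zero, zero_add]
  rw [h2, fxc] at h1
  have h3 := congrArg Prod.snd h1
  unfold mm at h3
  simp only at h3
  rw [hs, hs, hs, ← Qdef, ← Pdef, ← Pdef, map_add, h'.addl] at h3
  grind

end H197N24
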