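import Mathlib

/-!
Orthogonal cocycles over F_2^4 with values in F_2^4 are biadditive.
-/

namespace H197N24

abbrev V := Fin 4 → ZMod 2

structure Orth (ψ : V → V → V) : Prop where
  zl : ∀ y, ψ 0 y = 0
  zr : ∀ x, ψ x 0 = 0
  coc : ∀ x y z, ψ x y + ψ (x+y) z = ψ y z + ψ x (y+z)
  inj : ∀ x, x ≠ 0 → Function.Injective (ψ x)

/-- third order deviation -/
def cc (ψ : V → V → V) (x y z : V) : V := ψ x y + ψ x z + ψ x (y+z)

theorem add_self_V (x : V) : x + x = 0 := by grind

variable {ψ : V → V → V}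

theorem cc_swap23 (x y z : V) : cc ψ x y z = cc ψ x z y := by
  unfold cc
  rw [add_comm y z]; grind

theorem cc_swap12 (h : Orth ψ) (x y z : V) : cc ψ x y z = cc ψ y x z := by
  have h1 := h.coc x y z
  have h2 := h.coc y x z
  unfold cc
  rw [add_comm y x] at h2
  grind

theorem cc_swap13 (h : Orth ψ) (x y z : V) : cc ψ x y z = cc ψ z y x := by
  rw [cc_swap23, cc_swap12 h, cc_swap23]

theorem cc_self12 (h : Orth ψ) (x z : V) : cc ψ x x z = 0 := by
  have h1 := h.coc x x z
  rw [add_self_V, h.zl] at h1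
  unfold cc
  grind

theorem cc_self23 (h : Orth ψ) (x z : V) : cc ψ x z z = 0 := by
  unfold cc
  rw [add_self_V z, h.zr]; grind

theorem cc_self13 (h : Orth ψ) (x z : V) : cc ψ x z x = 0 := by
  rw [cc_swap23]; exact cc_self12 h x z

theorem cc_zero3 (h : Orth ψ) (x y : V) : cc ψ x y 0 = 0 := by
  unfold cc
  rw [h.zr, add_zero, add_zero]; grind

/-- fourth order deviation -/
def dd (ψ : V → V → V) (x y z w : V) : V := cc ψ x y z + cc ψ x y w + cc ψ x y (z+w)

theorem dd_expand (ψ : V → V → V) (x y z w : V) : dd ψ x y z w =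
    ψ x y + ψ x z + ψ x w + ψ x (y+z) + ψ x (y+w) + ψ x (z+w) + ψ x (y+z+w) := by
  unfold dd cc
  rw [show y + (z + w) = y + z + w by abel]; grind

theorem dd_swap34 (x y z w : V) : dd ψ x y z w = dd ψ x y w z := by
  unfold dd; rw [add_comm z w]; grind

theorem dd_swap23 (x y z w : V) : dd ψ x y z w = dd ψ x z y w := by
  rw [dd_expand, dd_expand]
  rw [show z + y = y + z by abel]; grind

theorem dd_swap12 (h : Orth ψ) (x y z w : V) : dd ψ x y z w = dd ψ y x z w := by
  unfold dd
  rw [cc_swap12 h x y z, cc_swap12 h x y w, cc_swap12 h x y (z+w)]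

theorem dd_self12 (h : Orth ψ) (x z w : V) : dd ψ x x z w = 0 := by
  unfold dd
  simp [cc_self12 h]

theorem dd_zero4 (h : Orth ψ) (x y z : V) : dd ψ x y z 0 = 0 := by
  unfold dd
  rw [cc_zero3 h, add_zero, add_zero]; grind

/-- invariance -/
theorem dd_add1 (h : Orth ψ) (x y z w : V) : dd ψ x y z (w+x) = dd ψ x y z w := by
  -- E(x,y,z,w,x)=0
  unfold dd
  -- cc x y (w+x) = cc x y w + cc x y x + dd x y w x
  have e1 : cc ψ x y (w+x) = cc ψ x y w := by
    rw [cc_swap23, cc_swap23 x y w]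
    have h1 := h.coc x x (w+y)
    have h2 := h.coc x x w
    rw [add_self_V, h.zl] at h1 h2
    unfold cc
    rw [show w + x + y = x + (w + y) by abel, show w + x = x + w by abel]
    grind
  have e2 : cc ψ x y (z+(w+x)) = cc ψ x y (z+w) := by
    rw [show z + (w+x) = (z + w) + x by abel]
    rw [cc_swap23, cc_swap23 x y (z+w)]
    have h1 := h.coc x x (z+w+y)
    have h2 := h.coc x x (z+w)
    rw [add_self_V, h.zl] at h1 h2
    unfold cc
    rw [show z + w + x + y = x + (z + w + y) by abel, show z + w + x = x + (z + w) by abel]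
    grind
  rw [e1, e2]

theorem dd_add2 (h : Orth ψ) (x y z w : V) : dd ψ x y z (w+y) = dd ψ x y z w := by
  rw [dd_swap12 h, dd_add1 h, dd_swap12 h]

theorem dd_add3 (h : Orth ψ) (x y z w : V) : dd ψ x y z (w+z) = dd ψ x y z w := by
  rw [dd_swap23, dd_add2 h, dd_swap23]

theorem zmod2_cases (a : ZMod 2) : a = 0 ∨ a = 1 := by revert a; decide

/-- if the last is a combination of the first three -/
theorem dd_dep (h : Orth ψ) (x y z w : V) (a b c : ZMod 2) (hw : w = a • x + b • y + c • z) :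
    dd ψ x y z w = 0 := by
  have h0 := dd_zero4 h x y z
  have hx := dd_add1 h x y z
  have hy := dd_add2 h x y z
  have hz := dd_add3 h x y z
  subst hw
  have e1 : ∀ (t : V) (c : ZMod 2), dd ψ x y z (t + c • z) = dd ψ x y z t := by
    intro t c
    rcases zmod2_cases c with rfl | rfl
    · simp
    · rw [one_smul, hz]
  have e2 : ∀ (t : V) (c : ZMod 2), dd ψ x y z (t + c • y) = dd ψ x y z t := by
    intro t c
    rcases zmod2_cases c with rfl | rfl
    · simp
    · rw [one_smul, hy]
  have e3 : ∀ (t : V) (c : ZMod 2), dd ψ x y z (t + c • x) = dd ψ x y z t := by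
    intro t c
    rcases zmod2_cases c with rfl | rfl
    · simp
    · rw [one_smul, hx]
  rw [e1, e2, ← zero_add (a • x), e3, h0]

/-- explicit 16 term sum over a basis -/
theorem sum16 (x y z w : V)
    (hind : ∀ a b c d : ZMod 2, a • x + b • y + c • z + d • w = 0 → a = 0 ∧ b = 0 ∧ c = 0 ∧ d = 0)
    (f : V → ℕ) :
    ∑ v, f v = ∑ a : ZMod 2, ∑ b : ZMod 2, ∑ c : ZMod 2, ∑ d : ZMod 2,
      f (a • x + b • y + c • z + d • w) := by
  let e : ZMod 2 × ZMod 2 × ZMod 2 × ZMod 2 → V := fun t => t.1 • x + t.2.1 • y + t.2.2.1 • z + t.2.2.2 • w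
  have hinj : Function.Injective e := by
    intro s t hst
    have := hind (s.1 - t.1) (s.2.1 - t.2.1) (s.2.2.1 - t.2.2.1) (s.2.2.2 - t.2.2.2) (by
      have : e s - e t = 0 := sub_eq_zero.mpr hst
      rw [← this]
      simp only [e, sub_smul]; abel)
    obtain ⟨h1, h2, h3, h4⟩ := this
    ext
    · rw [sub_eq_zero.mp h1]
    · rw [sub_eq_zero.mp h2]
    · rw [sub_eq_zero.mp h3]
    · rw [sub_eq_zero.mp h4]
  have hbij : Function.Bijective e := by
    rw [Fintype.bijective_iff_injective_and_card]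
    exact ⟨hinj, by decide +kernel⟩
  rw [← hbij.sum_comp f]
  simp only [Fintype.sum_prod_type, e]

theorem sum2 {M : Type*} [AddCommMonoid M] (f : ZMod 2 → M) : ∑ a : ZMod 2, f a = f 0 + f 1 := by
  exact Fin.sum_univ_two f

/-- balancedness -/
theorem exists_one (χ : V →+ ZMod 2) (hχ : χ ≠ 0) : ∃ w, χ w = 1 := by
  by_contra hcon
  push Not at hcon
  apply hχ
  apply AddMonoidHom.ext
  intro w
  rcases zmod2_cases (χ w) with h | h
  · simpa using h
  · exact absurd h (hcon _)

theorem sum_val (χ : V →+ ZMod 2) (hχ : χ ≠ 0) : ∑ w, (χ w).val = 8 := by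
  obtain ⟨w0, hw0⟩ := exists_one χ hχ
  have h1 : ∑ w, (χ (w + w0)).val = ∑ w, (χ w).val := by
    exact Equiv.sum_comp (Equiv.addRight w0) (fun w : V => (χ w).val)
  have h2 : ∑ w, ((χ w).val + (χ (w + w0)).val) = ∑ w : V, 1 := by
    apply Finset.sum_congr rfl
    intro w _
    rw [map_add, hw0]
    generalize χ w = t
    revert t; decide
  rw [Finset.sum_add_distrib, h1] at h2
  have h3 : ∑ w : V, 1 = 16 := by simp [Finset.card_univ]
  omega

theorem sum_val_row (h : Orth ψ) (χ : V →+ ZMod 2) (hχ : χ ≠ 0) (x : V) (hx : x ≠ 0) :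
    ∑ y, (χ (ψ x y)).val = 8 := by
  have hbij : Function.Bijective (ψ x) := (Finite.injective_iff_bijective).mp (h.inj x hx)
  rw [hbij.sum_comp (fun w => (χ w).val)]
  exact sum_val χ hχ

theorem row_one (h : Orth ψ) (χ : V →+ ZMod 2) (hχ : χ ≠ 0) (x : V) (hx : x ≠ 0) :
    ∃ y, χ (ψ x y) = 1 := by
  have hbij : Function.Bijective (ψ x) := (Finite.injective_iff_bijective).mp (h.inj x hx)
  obtain ⟨w, hw⟩ := exists_one χ hχ
  obtain ⟨y, rfl⟩ := hbij.2 w
  exact ⟨y, hw⟩

theorem exists_chi (w : V) (hw : w ≠ 0) : ∃ χ : V →+ ZMod 2, χ w = 1 := by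
  have : ∃ i, w i ≠ 0 := by
    by_contra hcon; push Not at hcon; exact hw (funext hcon)
  obtain ⟨i, hi⟩ := this
  refine ⟨Pi.evalAddMonoidHom _ i, ?_⟩
  rcases zmod2_cases (w i) with h | h
  · exact absurd h hi
  · simpa using h

theorem psi_add_self (h : Orth ψ) (x y : V) : ψ x (x + y) = ψ x y + ψ x x := by
  have h1 := h.coc x x y
  rw [add_self_V, h.zl] at h1
  grind

def ev (i : Fin 4) : V →+ ZMod 2 := Pi.evalAddMonoidHom (fun _ : Fin 4 => ZMod 2) i
theorem ev_apply (i : Fin 4) (v : V) : ev i v = v i := rfl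

theorem lin_fact : ∀ (d q : V),
      d ≠ 0 →
        d ≠ q → q ≠ 0 → ¬ ((∀ (i : Fin 4), q i = 0 → d i = 0) ∧ (∀ (i j : Fin 4), q i + q j = 0 → d i + d j = 0)) := by
  decide +kernel

theorem Q_ne (h : Orth ψ) {x : V} (hx : x ≠ 0) : ψ x x ≠ 0 := by
  intro h0
  exact hx (h.inj x hx (h0.trans (h.zr x).symm))

/-- `dd` lies in `{0, Q x}` -/
theorem dd_mem (h : Orth ψ) (x y z w : V) (hx : x ≠ 0) : dd ψ x y z w = 0 ∨ dd ψ x y z w = ψ x x := by
  by_cases hind : ∀ a b c d : ZMod 2, a • x + b • y + c • z + d • w = 0 → a = 0 ∧ b = 0 ∧ c = 0 ∧ d = 0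
  · -- all functionals killing Q x kill dd
    have key : ∀ χ : V →+ ZMod 2, χ (ψ x x) = 0 → χ (dd ψ x y z w) = 0 := by
      intro χ hχ
      by_cases h0 : χ = 0
      · simp [h0]
      have hs := sum_val_row h χ h0 x hx
      rw [sum16 x y z w hind] at hs
      simp only [sum2, zero_smul, one_smul, zero_add, add_zero] at hs
      have hxs : ∀ t, χ (ψ x (x + t)) = χ (ψ x t) := by
        intro t; rw [psi_add_self h, map_add, hχ, add_zero]
      simp only [add_assoc, hxs] at hs
      rw [hχ, h.zr, map_zero] at hs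
      rw [dd_expand]
      simp only [map_add, add_assoc]
      generalize χ (ψ x y) = a1 at *
      generalize χ (ψ x z) = a2 at *
      generalize χ (ψ x w) = a3 at *
      generalize χ (ψ x (y + z)) = a4 at *
      generalize χ (ψ x (y + w)) = a5 at *
      generalize χ (ψ x (z + w)) = a6 at *
      generalize χ (ψ x (y + (z + w))) = a7 at *
      clear hind hxs hχ
      revert hs
      revert a1 a2 a3 a4 a5 a6 a7
      decide +kernel
    by_contra hcon
    push Not at hcon
    obtain ⟨hc1, hc2⟩ := hcon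
    -- find functional killing Q x but not dd
    have hQ : ψ x x ≠ 0 := Q_ne h hx
    apply lin_fact _ _ hc1 hc2 hQ
    constructor
    · intro i hi
      have := key (ev i) (by rw [ev_apply]; exact hi)
      rwa [ev_apply] at this
    · intro i j hij
      have := key (ev i + ev j) (by rw [AddMonoidHom.add_apply, ev_apply, ev_apply]; exact hij)
      rwa [AddMonoidHom.add_apply, ev_apply, ev_apply] at this
  · left
    push Not at hind
    obtain ⟨a, b, c, d, hsum, hne⟩ := hind
    rcases zmod2_cases d with rfl | rfl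
    · rcases zmod2_cases c with rfl | rfl
      · rcases zmod2_cases b with rfl | rfl
        · rcases zmod2_cases a with rfl | rfl
          · simp at hne
          · exfalso; apply hx; simpa using hsum
        · -- y = a x
          rw [dd_swap23, dd_swap34]
          apply dd_dep h x z w y a 0 0
          simp only [one_smul, zero_smul, add_zero] at hsum ⊢
          grind
      · rw [dd_swap34]
        apply dd_dep h x y w z a b 0
        simp only [one_smul, zero_smul, add_zero] at hsum ⊢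
        grind
    · apply dd_dep h x y z w a b c
      simp only [one_smul, zero_smul, add_zero] at hsum ⊢
      grind

def bb (ψ : V → V → V) (x y : V) : V := ψ x y + ψ y x

theorem bb_add_right (h : Orth ψ) (x y z : V) : bb ψ x (y+z) = bb ψ x y + bb ψ x z := by
  have h1 := cc_swap12 h y z x
  have h2 := cc_swap13 h x y z
  have h3 := cc_swap23 (ψ := ψ) x y z
  have h4 := h.coc y z x
  unfold bb
  unfold cc at h1 h2 h3
  have h5 := cc_swap12 h x y z
  unfold cc at h5
  have h6 := cc_swap23 (ψ := ψ) y x z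
  unfold cc at h6
  rw [add_comm z x] at *
  grind

theorem bb_comm (x y : V) : bb ψ x y = bb ψ y x := by unfold bb; exact add_comm _ _

theorem bb_add_left (h : Orth ψ) (x y z : V) : bb ψ (x + y) z = bb ψ x z + bb ψ y z := by
  rw [bb_comm, bb_add_right h, bb_comm z x, bb_comm z y]

theorem Q_add (h : Orth ψ) (x y : V) : ψ (x+y) (x+y) = ψ x x + ψ y y + bb ψ x y := by
  -- ψ(x+y)(x+y) = ψ x (x+y) + ψ y (x+y) + cc x y (x+y)
  have h1 := h.coc x y (x+y)
  rw [show y + (x + y) = x + (y + y) by abel, add_self_V, add_zero] at h1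
  have h2 := psi_add_self h x y
  have h3 := psi_add_self h y x
  rw [add_comm y x] at h3
  unfold bb
  grind

theorem dd_zero (h : Orth ψ) (x y z w : V) : dd ψ x y z w = 0 := by
  by_contra hd
  set d := dd ψ x y z w with hdd
  have nz : ∀ a b c e : V, dd ψ a b c e = d → a ≠ 0 := by
    intro a b c e he ha
    subst ha
    apply hd
    rw [← he, dd_expand]
    simp [h.zl]
  have hQ : ∀ a b c e : V, dd ψ a b c e = d → ψ a a = d := by
    intro a b c e he
    rcases dd_mem h a b c e (nz a b c e he) with h1 | h1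
    · exact absurd (he.symm.trans h1) hd
    · rw [← h1, he]
  have rot : ∀ a b c e : V, dd ψ a b c e = dd ψ e a b c := by
    intro a b c e
    rw [dd_swap34, dd_swap23, dd_swap12 h]
  have Qx : ψ x x = d := hQ x y z w rfl
  have Qy : ψ y y = d := hQ y x z w (by rw [dd_swap12 h])
  have Qw : ψ w w = d := hQ w x y z (by rw [← rot])
  have Qwx : ψ (w+x) (w+x) = d := hQ (w+x) x y z (by rw [← rot, dd_add1 h])
  have Qwy : ψ (w+y) (w+y) = d := hQ (w+y) x y z (by rw [← rot, dd_add2 h])
  have Qxy : ψ (x+y) (x+y) = d := by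
    apply hQ (x+y) y z w
    rw [dd_swap12 h]
    -- dd y (x+y) z w = dd y z w (x+y)
    rw [dd_swap23, dd_swap34, dd_add1 h, dd_swap34, dd_swap23, dd_swap12 h]
  have Qwxy : ψ (w+(x+y)) (w+(x+y)) = d := by
    apply hQ (w+(x+y)) x y z
    rw [← rot, ← add_assoc, dd_add2 h, dd_add1 h]
  have b1 := Q_add h w x
  have b2 := Q_add h w y
  have b3 := Q_add h w (x+y)
  have b4 := bb_add_right h w x y
  grind

theorem cc_add3 (h : Orth ψ) (x y z w : V) : cc ψ x y (z+w) = cc ψ x y z + cc ψ x y w := by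
  have := dd_zero h x y z w
  unfold dd at this
  grind

theorem cc_add2 (h : Orth ψ) (x y z w : V) : cc ψ x (y+z) w = cc ψ x y w + cc ψ x z w := by
  rw [cc_swap23, cc_add3 h, cc_swap23, cc_swap23 x w z]

theorem cc_add1 (h : Orth ψ) (x y z w : V) : cc ψ (x+y) z w = cc ψ x z w + cc ψ y z w := by
  rw [cc_swap12 h, cc_add2 h, cc_swap12 h, cc_swap12 h z y]

end H197N24
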