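import Pool.Agent.H197R2.N24C

/-!
Orthogonal cocycles over F_2^4 with values in F_2^4 are biadditive: second half.
-/

namespace H197N24

variable {ψ : V → V → V}

def E (i : Fin 4) : V := Pi.single i 1

theorem V_expand (x : V) : x = x 0 • E 0 + x 1 • E 1 + x 2 • E 2 + x 3 • E 3 := by
  revert x; decide +kernel

/-- an additive function to `ZMod 2` in coordinates -/
theorem add_expand (g : V → ZMod 2) (hg : ∀ x y, g (x + y) = g x + g y) (x : V) :
    g x = x 0 * g (E 0) + x 1 * g (E 1) + x 2 * g (E 2) + x 3 * g (E 3) := by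
  have g0 : g 0 = 0 := by
    have := hg 0 0
    rw [add_zero] at this
    grind
  have gs : ∀ (a : ZMod 2) (y : V), g (a • y) = a * g y := by
    intro a y
    rcases zmod2_cases a with rfl | rfl
    · simp [g0]
    · simp
  conv_lhs => rw [V_expand x]
  rw [hg, hg, hg, gs, gs, gs, gs]

def det4 (v x y z : V) : ZMod 2 :=
  v 0 * (x 1 * (y 2 * z 3 + y 3 * z 2) + x 2 * (y 1 * z 3 + y 3 * z 1) + x 3 * (y 1 * z 2 + y 2 * z 1)) +
  v 1 * (x 0 * (y 2 * z 3 + y 3 * z 2) + x 2 * (y 0 * z 3 + y 3 * z 0) + x 3 * (y 0 * z 2 + y 2 * z 0)) +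
  v 2 * (x 0 * (y 1 * z 3 + y 3 * z 1) + x 1 * (y 0 * z 3 + y 3 * z 0) + x 3 * (y 0 * z 1 + y 1 * z 0)) +
  v 3 * (x 0 * (y 1 * z 2 + y 2 * z 1) + x 1 * (y 0 * z 2 + y 2 * z 0) + x 2 * (y 0 * z 1 + y 1 * z 0))

/-- the vector of a functional -/
def vv (ψ : V → V → V) (χ : V →+ ZMod 2) : V :=
  ![χ (cc ψ (E 1) (E 2) (E 3)), χ (cc ψ (E 0) (E 2) (E 3)), χ (cc ψ (E 0) (E 1) (E 3)),
    χ (cc ψ (E 0) (E 1) (E 2))]

theorem vv_add (χ χ' : V →+ ZMod 2) : vv ψ (χ + χ') = vv ψ χ + vv ψ χ' := by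
  funext i
  fin_cases i <;> simp [vv]

theorem chi_cc (h : Orth ψ) (χ : V →+ ZMod 2) (x y z : V) :
    χ (cc ψ x y z) = det4 (vv ψ χ) x y z := by
  have e1 : ∀ y z x, χ (cc ψ x y z) = x 0 * χ (cc ψ (E 0) y z) + x 1 * χ (cc ψ (E 1) y z) +
      x 2 * χ (cc ψ (E 2) y z) + x 3 * χ (cc ψ (E 3) y z) := by
    intro y z x
    exact add_expand (fun x => χ (cc ψ x y z)) (fun a b => by rw [cc_add1 h, map_add]) x
  have e2 : ∀ x z y, χ (cc ψ x y z) = y 0 * χ (cc ψ x (E 0) z) + y 1 * χ (cc ψ x (E 1) z) +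
      y 2 * χ (cc ψ x (E 2) z) + y 3 * χ (cc ψ x (E 3) z) := by
    intro x z y
    exact add_expand (fun y => χ (cc ψ x y z)) (fun a b => by rw [cc_add2 h, map_add]) y
  have e3 : ∀ x y z, χ (cc ψ x y z) = z 0 * χ (cc ψ x y (E 0)) + z 1 * χ (cc ψ x y (E 1)) +
      z 2 * χ (cc ψ x y (E 2)) + z 3 * χ (cc ψ x y (E 3)) := by
    intro x y z
    exact add_expand (fun z => χ (cc ψ x y z)) (fun a b => by rw [cc_add3 h, map_add]) z
  have s12 : ∀ x y z, cc ψ x y z = cc ψ y x z := cc_swap12 h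
  have s23 : ∀ x y z, cc ψ x y z = cc ψ x z y := fun x y z => cc_swap23 x y z
  -- rewrite all basis triples
  have z1 : ∀ i z, cc ψ (E i) (E i) z = 0 := fun i z => cc_self12 h _ _
  have z2 : ∀ i z, cc ψ (E i) z (E i) = 0 := fun i z => cc_self13 h _ _
  have z3 : ∀ i z, cc ψ z (E i) (E i) = 0 := fun i z => cc_self23 h _ _
  have m012 : cc ψ (E 0) (E 2) (E 1) = cc ψ (E 0) (E 1) (E 2) := s23 _ _ _
  have m102 : cc ψ (E 1) (E 0) (E 2) = cc ψ (E 0) (E 1) (E 2) := s12 _ _ _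
  have m120 : cc ψ (E 1) (E 2) (E 0) = cc ψ (E 0) (E 1) (E 2) := by rw [s23, s12]
  have m201 : cc ψ (E 2) (E 0) (E 1) = cc ψ (E 0) (E 1) (E 2) := by rw [s12, s23]
  have m210 : cc ψ (E 2) (E 1) (E 0) = cc ψ (E 0) (E 1) (E 2) := by rw [s23, s12, s23]
  have m031 : cc ψ (E 0) (E 3) (E 1) = cc ψ (E 0) (E 1) (E 3) := s23 _ _ _
  have m103 : cc ψ (E 1) (E 0) (E 3) = cc ψ (E 0) (E 1) (E 3) := s12 _ _ _
  have m130 : cc ψ (E 1) (E 3) (E 0) = cc ψ (E 0) (E 1) (E 3) := by rw [s23, s12]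
  have m301 : cc ψ (E 3) (E 0) (E 1) = cc ψ (E 0) (E 1) (E 3) := by rw [s12, s23]
  have m310 : cc ψ (E 3) (E 1) (E 0) = cc ψ (E 0) (E 1) (E 3) := by rw [s23, s12, s23]
  have m032 : cc ψ (E 0) (E 3) (E 2) = cc ψ (E 0) (E 2) (E 3) := s23 _ _ _
  have m203 : cc ψ (E 2) (E 0) (E 3) = cc ψ (E 0) (E 2) (E 3) := s12 _ _ _
  have m230 : cc ψ (E 2) (E 3) (E 0) = cc ψ (E 0) (E 2) (E 3) := by rw [s23, s12]
  have m302 : cc ψ (E 3) (E 0) (E 2) = cc ψ (E 0) (E 2) (E 3) := by rw [s12, s23]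
  have m320 : cc ψ (E 3) (E 2) (E 0) = cc ψ (E 0) (E 2) (E 3) := by rw [s23, s12, s23]
  have m132 : cc ψ (E 1) (E 3) (E 2) = cc ψ (E 1) (E 2) (E 3) := s23 _ _ _
  have m213 : cc ψ (E 2) (E 1) (E 3) = cc ψ (E 1) (E 2) (E 3) := s12 _ _ _
  have m231 : cc ψ (E 2) (E 3) (E 1) = cc ψ (E 1) (E 2) (E 3) := by rw [s23, s12]
  have m312 : cc ψ (E 3) (E 1) (E 2) = cc ψ (E 1) (E 2) (E 3) := by rw [s12, s23]
  have m321 : cc ψ (E 3) (E 2) (E 1) = cc ψ (E 1) (E 2) (E 3) := by rw [s23, s12, s23]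
  rw [e1 y z x]
  rw [e2 (E 0) z y, e2 (E 1) z y, e2 (E 2) z y, e2 (E 3) z y]
  simp only [z1, map_zero, mul_zero, add_zero, zero_add]
  simp only [e3 _ _ z]
  simp only [z1, z2, z3, m012, m102, m120, m201, m210, m031, m103, m130, m301, m310, m032, m203, m230, m302,
    m320, m132, m213, m231, m312, m321, map_zero, mul_zero, add_zero, zero_add]
  unfold det4 vv
  simp only [Matrix.cons_val_zero, Matrix.cons_val_one, Matrix.cons_val]
  ring

theorem det4_self (v y z : V) : det4 v v y z = 0 := by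
  unfold det4
  grind

theorem det4_exists : ∀ v x : V, v ≠ 0 → x ≠ 0 → x ≠ v → ∃ k l : Fin 4, det4 v x (E k) (E l) = 1 := by
  decide +kernel

theorem vv_zero_cc (h : Orth ψ) (χ : V →+ ZMod 2) (hv : vv ψ χ = 0) (x y z : V) :
    χ (cc ψ x y z) = 0 := by
  rw [chi_cc h, hv]; simp [det4]

theorem vv_rad (h : Orth ψ) (χ : V →+ ZMod 2) (y z : V) :
    χ (cc ψ (vv ψ χ) y z) = 0 := by
  rw [chi_cc h, det4_self]

/-- property (a) -/
theorem prop_a (h : Orth ψ) (χ : V →+ ZMod 2) (x : V) (hv : vv ψ χ ≠ 0) (hx : x ≠ 0)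
    (hxv : x ≠ vv ψ χ) (h1 : χ (ψ x (vv ψ χ)) = 0) : χ (ψ x x) = 1 := by
  by_contra h2
  have h2 : χ (ψ x x) = 0 := by
    rcases zmod2_cases (χ (ψ x x)) with h' | h'
    · exact h'
    · exact absurd h' h2
  set v := vv ψ χ with hvdef
  have hχ : χ ≠ 0 := by
    rintro rfl
    apply hv
    funext i
    fin_cases i <;> simp [hvdef, vv]
  obtain ⟨k, l, hkl⟩ := det4_exists v x hv hx hxv
  set y := E k
  set z := E l
  have hc : χ (cc ψ x y z) = 1 := by rw [chi_cc h]; exact hkl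
  have hs := sum_val_row h χ hχ x hx
  have hind : ∀ a b c d : ZMod 2, a • x + b • v + c • y + d • z = 0 → a = 0 ∧ b = 0 ∧ c = 0 ∧ d = 0 := by
    intro a b c d hsum
    have c1 : ∀ (s t : V), χ (cc ψ 0 s t) = 0 := by
      intro s t
      have : cc ψ 0 s t = 0 := by unfold cc; simp [h.zl]
      rw [this, map_zero]
    have sm1 : ∀ (a : ZMod 2) (r s t : V), χ (cc ψ (a • r) s t) = a * χ (cc ψ r s t) := by
      intro a r s t
      rcases zmod2_cases a with rfl | rfl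
      · simp [c1]
      · simp
    have ex : ∀ s t, a * χ (cc ψ x s t) + b * χ (cc ψ v s t) + c * χ (cc ψ y s t) + d * χ (cc ψ z s t) = 0 := by
      intro s t
      have : χ (cc ψ (a • x + b • v + c • y + d • z) s t) = 0 := by rw [hsum]; exact c1 s t
      rw [cc_add1 h, cc_add1 h, cc_add1 h, map_add, map_add, map_add, sm1, sm1, sm1, sm1] at this
      exact this
    have t1 := ex y z
    rw [hc, vv_rad h, cc_self12 h, cc_self13 h] at t1
    have ha : a = 0 := by simpa using t1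
    have t2 := ex x z
    rw [cc_self12 h, vv_rad h, cc_swap12 h y x z, hc, cc_self13 h] at t2
    have hcc : c = 0 := by simpa using t2
    have t3 := ex x y
    rw [cc_self12 h, vv_rad h, cc_self13 h] at t3
    have : cc ψ z x y = cc ψ x y z := by rw [cc_swap12 h, cc_swap23]
    rw [this, hc] at t3
    have hd : d = 0 := by simpa using t3
    subst ha hcc hd
    refine ⟨rfl, ?_, rfl, rfl⟩
    rcases zmod2_cases b with hb | hb
    · exact hb
    · exfalso; apply hv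
      subst hb
      simpa using hsum
  rw [sum16 x v y z hind] at hs
  simp only [sum2, zero_smul, one_smul, zero_add, add_zero] at hs
  have hxs : ∀ t, χ (ψ x (x + t)) = χ (ψ x t) := by
    intro t; rw [psi_add_self h, map_add, h2, add_zero]
  have hvs : ∀ t, χ (ψ x (v + t)) = χ (ψ x t) := by
    intro t
    have h3 : χ (cc ψ x v t) = 0 := by rw [cc_swap12 h]; exact vv_rad h χ x t
    unfold cc at h3
    rw [map_add, map_add, h1, zero_add] at h3
    grind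
  simp only [add_assoc, hxs, hvs] at hs
  rw [h2, h1, h.zr, map_zero] at hs
  unfold cc at hc
  rw [map_add, map_add] at hc
  generalize χ (ψ x y) = a1 at *
  generalize χ (ψ x z) = a2 at *
  generalize χ (ψ x (y + z)) = a3 at *
  clear hxs hvs hind
  revert hs hc
  revert a1 a2 a3
  decide +kernel

end H197N24
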