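import Pool.Agent.H197R2.N24D

/-!
Orthogonal cocycles over F_2^4 with values in F_2^4 are biadditive: final part.
-/

namespace H197N24

variable {ψ : V → V → V}

theorem ker_triple : ∀ a : V, ∃ x y z : V, x ≠ 0 ∧ y ≠ 0 ∧ x ≠ y ∧ z ≠ 0 ∧ z ≠ x ∧ z ≠ y ∧ z ≠ x + y ∧
    (x 0 * a 0 + x 1 * a 1 + x 2 * a 2 + x 3 * a 3 = 0) ∧
    (y 0 * a 0 + y 1 * a 1 + y 2 * a 2 + y 3 * a 3 = 0) ∧
    (z 0 * a 0 + z 1 * a 1 + z 2 * a 2 + z 3 * a 3 = 0) := by
  decide +kernel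

theorem prop_A (h : Orth ψ) (χ : V →+ ZMod 2) (hv : vv ψ χ ≠ 0) :
    (∀ x, χ (bb ψ x (vv ψ χ)) = 0) ∧ χ (ψ (vv ψ χ) (vv ψ χ)) = 0 := by
  set v := vv ψ χ with hvdef
  have hχ : χ ≠ 0 := by
    rintro rfl
    apply hv
    funext i
    fin_cases i <;> simp [hvdef, vv]
  -- h additive
  have hadd : ∀ x y, χ (ψ (x+y) v) = χ (ψ x v) + χ (ψ y v) := by
    intro x y
    have h1 : χ (cc ψ x y v) = 0 := by rw [cc_swap13 h]; exact vv_rad h χ _ _
    have h2 := h.coc x y v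
    unfold cc at h1
    have h3 := congrArg χ h2
    simp only [map_add] at h1 h3 ⊢
    grind
  have hA : ∀ x, x ≠ 0 → x ≠ v → χ (ψ x v) = 0 → χ (ψ x x) = 1 := fun x hx hxv h1 =>
    prop_a h χ x hv hx hxv h1
  have bq : ∀ x y, χ (ψ (x+y) (x+y)) = χ (ψ x x) + χ (ψ y y) + χ (bb ψ x y) := by
    intro x y; rw [Q_add h]; simp only [map_add]
  have badd : ∀ x y z, χ (bb ψ x (y+z)) = χ (bb ψ x y) + χ (bb ψ x z) := by
    intro x y z; rw [bb_add_right h]; simp only [map_add]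
  have bself : ∀ x, bb ψ x x = 0 := by intro x; unfold bb; exact add_self_V _
  have bzero : ∀ x, bb ψ 0 x = 0 := by intro x; unfold bb; rw [h.zl, h.zr, add_zero]
  have hv0 : χ (ψ v v) = 0 := by
    by_contra hcon
    have hvv : χ (ψ v v) = 1 := by
      rcases zmod2_cases (χ (ψ v v)) with h' | h'
      · exact absurd h' hcon
      · exact h'
    obtain ⟨x, y, z, hx, hy, hxy, hz, hzx, hzy, hzxy, ex, ey, ez⟩ :=
      ker_triple (fun i => χ (ψ (E i) v))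
    have gx : ∀ x : V, χ (ψ x v) = x 0 * χ (ψ (E 0) v) + x 1 * χ (ψ (E 1) v) +
        x 2 * χ (ψ (E 2) v) + x 3 * χ (ψ (E 3) v) := fun x => add_expand (fun x => χ (ψ x v)) hadd x
    have kx : χ (ψ x v) = 0 := by rw [gx]; exact ex
    have ky : χ (ψ y v) = 0 := by rw [gx]; exact ey
    have kz : χ (ψ z v) = 0 := by rw [gx]; exact ez
    have nv : ∀ t, χ (ψ t v) = 0 → t ≠ v := by
      intro t ht hh; rw [hh] at ht; exact hcon ht
    have q1 : ∀ t, t ≠ 0 → χ (ψ t v) = 0 → χ (ψ t t) = 1 := fun t ht h1 => hA t ht (nv t h1) h1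
    have kyz : χ (ψ (y+z) v) = 0 := by rw [hadd, ky, kz, add_zero]
    have kxy : χ (ψ (x+y) v) = 0 := by rw [hadd, kx, ky, add_zero]
    have kxz : χ (ψ (x+z) v) = 0 := by rw [hadd, kx, kz, add_zero]
    have kxyz : χ (ψ (x+(y+z)) v) = 0 := by rw [hadd, kx, kyz, add_zero]
    have nxy : x + y ≠ 0 := by
      intro hh; apply hxy; grind
    have nxz : x + z ≠ 0 := by
      intro hh; apply hzx; grind
    have nyz : y + z ≠ 0 := by
      intro hh; apply hzy; grind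
    have nxyz : x + (y + z) ≠ 0 := by
      intro hh; apply hzxy; grind
    have t1 := bq x y
    have t2 := bq x z
    have t3 := bq x (y+z)
    have t4 := badd x y z
    rw [q1 _ nxy kxy, q1 x hx kx, q1 y hy ky] at t1
    rw [q1 _ nxz kxz, q1 x hx kx, q1 z hz kz] at t2
    rw [q1 _ nxyz kxyz, q1 x hx kx, q1 _ nyz kyz] at t3
    rw [t4] at t3
    generalize χ (bb ψ x y) = a at *
    generalize χ (bb ψ x z) = b at *
    clear * - t1 t2 t3
    revert a b; decide +kernel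
  refine ⟨?_, hv0⟩
  -- b(x,v)=0 for x in ker h
  have bker : ∀ x, χ (ψ x v) = 0 → χ (bb ψ x v) = 0 := by
    intro x hx
    by_cases hx0 : x = 0
    · rw [hx0, bzero, map_zero]
    by_cases hxv : x = v
    · rw [hxv, bself, map_zero]
    have n1 : x + v ≠ 0 := by intro hh; apply hxv; grind
    have n2 : x + v ≠ v := by intro hh; apply hx0; simpa using hh
    have k1 : χ (ψ (x+v) v) = 0 := by rw [hadd, hx, hv0, add_zero]
    have t1 := bq x v
    rw [hA _ n1 n2 k1, hA x hx0 hxv hx, hv0] at t1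
    generalize χ (bb ψ x v) = a at *
    clear * - t1
    revert a; decide +kernel
  obtain ⟨y0, hy0⟩ := row_one h χ hχ v hv
  -- χ ψ(v,y) = h(y) + b(y,v)
  have hl : ∀ y, χ (ψ v y) = χ (ψ y v) + χ (bb ψ y v) := by
    intro y
    unfold bb
    rw [map_add]
    generalize χ (ψ y v) = a
    generalize χ (ψ v y) = b
    revert a b; decide +kernel
  -- h y0 = 1
  have hy1 : χ (ψ y0 v) = 1 := by
    rcases zmod2_cases (χ (ψ y0 v)) with h' | h'
    · exfalso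
      have := hl y0
      rw [hy0, h', bker y0 h'] at this
      revert this; decide
    · exact h'
  have hby0 : χ (bb ψ y0 v) = 0 := by
    have := hl y0
    rw [hy0, hy1] at this
    generalize χ (bb ψ y0 v) = a at *
    clear * - this
    revert a; decide +kernel
  intro x
  rcases zmod2_cases (χ (ψ x v)) with h' | h'
  · exact bker x h'
  · have k1 : χ (ψ (x+y0) v) = 0 := by rw [hadd, h', hy1]; decide
    have t1 := bker _ k1
    rw [bb_add_left h, map_add, hby0, add_zero] at t1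
    exact t1

theorem A1 (h : Orth ψ) (χ : V →+ ZMod 2) (x : V) : χ (bb ψ x (vv ψ χ)) = 0 := by
  by_cases hv : vv ψ χ = 0
  · rw [hv]; unfold bb; rw [h.zl, h.zr, add_zero, map_zero]
  · exact (prop_A h χ hv).1 x

theorem A1' (h : Orth ψ) (χ : V →+ ZMod 2) : χ (ψ (vv ψ χ) (vv ψ χ)) = 0 := by
  by_cases hv : vv ψ χ = 0
  · rw [hv, h.zl, map_zero]
  · exact (prop_A h χ hv).2

theorem sym1 (h : Orth ψ) (χ χ' : V →+ ZMod 2) (x : V) :
    χ (bb ψ x (vv ψ χ')) = χ' (bb ψ x (vv ψ χ)) := by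
  have h1 := A1 h (χ + χ') x
  have h2 := A1 h χ x
  have h3 := A1 h χ' x
  rw [vv_add, bb_add_right h, AddMonoidHom.add_apply, map_add, map_add, h2, h3] at h1
  grind

theorem sym2 (h : Orth ψ) (χ χ' : V →+ ZMod 2) :
    χ (ψ (vv ψ χ') (vv ψ χ')) = χ' (ψ (vv ψ χ) (vv ψ χ)) := by
  have h1 := A1' h (χ + χ')
  have h2 := A1' h χ
  have h3 := A1' h χ'
  have h4 := A1 h χ (vv ψ χ')
  have h5 := A1 h χ' (vv ψ χ)
  rw [vv_add, Q_add h, AddMonoidHom.add_apply] at h1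
  simp only [map_add] at h1
  rw [bb_comm] at h4
  rw [h2, h3, h4, h5] at h1
  grind

theorem t_zero (h : Orth ψ) (χ χ' χ'' : V →+ ZMod 2) : χ'' (bb ψ (vv ψ χ) (vv ψ χ')) = 0 := by
  have s1 : χ'' (bb ψ (vv ψ χ) (vv ψ χ')) = χ' (bb ψ (vv ψ χ) (vv ψ χ'')) := sym1 h _ _ _
  have s2 : χ'' (bb ψ (vv ψ χ') (vv ψ χ)) = χ (bb ψ (vv ψ χ') (vv ψ χ'')) := sym1 h _ _ _
  have h1 := A1' h (χ + (χ' + χ''))
  have p1 := A1' h χ
  have p2 := A1' h χ'
  have p3 := A1' h χ''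
  have q1 := sym2 h χ χ'
  have q2 := sym2 h χ χ''
  have q3 := sym2 h χ' χ''
  have r1 := A1 h χ (vv ψ χ')
  have r2 := A1 h χ (vv ψ χ'')
  have r3 := A1 h χ' (vv ψ χ)
  have r4 := A1 h χ' (vv ψ χ'')
  have r5 := A1 h χ'' (vv ψ χ)
  have r6 := A1 h χ'' (vv ψ χ')
  rw [vv_add, vv_add, Q_add h, Q_add h, bb_add_right h, AddMonoidHom.add_apply, AddMonoidHom.add_apply] at h1
  simp only [map_add] at h1
  rw [bb_comm] at r1 r2 r4 s2
  grind

theorem bb_im (h : Orth ψ) (χ χ' : V →+ ZMod 2) : bb ψ (vv ψ χ) (vv ψ χ') = 0 := by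
  by_contra hne
  obtain ⟨χ'', h1⟩ := exists_chi _ hne
  rw [t_zero h] at h1
  exact absurd h1 (by decide)

theorem two_ker : ∀ q1 q2 : V, ∃ a b : V, a ≠ 0 ∧ b ≠ 0 ∧ a ≠ b ∧
    (q1 0 * a 0 + q1 1 * a 1 + q1 2 * a 2 + q1 3 * a 3 = 0) ∧
    (q2 0 * a 0 + q2 1 * a 1 + q2 2 * a 2 + q2 3 * a 3 = 0) ∧
    (q1 0 * b 0 + q1 1 * b 1 + q1 2 * b 2 + q1 3 * b 3 = 0) ∧
    (q2 0 * b 0 + q2 1 * b 1 + q2 2 * b 2 + q2 3 * b 3 = 0) := by
  decide +kernel

def dot (a : V) : V →+ ZMod 2 where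
  toFun x := x 0 * a 0 + x 1 * a 1 + x 2 * a 2 + x 3 * a 3
  map_zero' := by simp
  map_add' x y := by simp only [Pi.add_apply]; ring

theorem dot_apply (a x : V) : dot a x = x 0 * a 0 + x 1 * a 1 + x 2 * a 2 + x 3 * a 3 := rfl

theorem dot_inj {a b : V} (hab : dot a = dot b) : a = b := by
  funext i
  have := DFunLike.congr_fun hab (E i)
  rw [dot_apply, dot_apply] at this
  fin_cases i <;> simpa [E] using this

theorem dot_zero : dot 0 = 0 := by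
  ext x; simp [dot_apply]

theorem common_zeros_aux : ∀ a b : V, a ≠ 0 → b ≠ 0 → a ≠ b →
    (Finset.univ.filter (fun x : V => (x 0 * a 0 + x 1 * a 1 + x 2 * a 2 + x 3 * a 3 = 0) ∧
      (x 0 * b 0 + x 1 * b 1 + x 2 * b 2 + x 3 * b 3 = 0))).card = 4 := by
  decide +kernel

theorem common_zeros (f g : V → ZMod 2) (hf : ∀ x y, f (x+y) = f x + f y) (hg : ∀ x y, g (x+y) = g x + g y)
    (hf0 : ∃ x, f x = 1) (hg0 : ∃ x, g x = 1) (hfg : ∃ x, f x + g x = 1) :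
    (Finset.univ.filter (fun x : V => f x = 0 ∧ g x = 0)).card = 4 := by
  have e1 := add_expand f hf
  have e2 := add_expand g hg
  have := common_zeros_aux (fun i => f (E i)) (fun i => g (E i)) ?_ ?_ ?_
  · refine Eq.trans ?_ this
    congr 1
    apply Finset.filter_congr
    intro x _
    rw [e1 x, e2 x]
  · intro h0
    obtain ⟨x, hx⟩ := hf0
    rw [e1, show f (E 0) = 0 from congrFun h0 0, show f (E 1) = 0 from congrFun h0 1,
      show f (E 2) = 0 from congrFun h0 2, show f (E 3) = 0 from congrFun h0 3] at hx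
    simp at hx
  · intro h0
    obtain ⟨x, hx⟩ := hg0
    rw [e2, show g (E 0) = 0 from congrFun h0 0, show g (E 1) = 0 from congrFun h0 1,
      show g (E 2) = 0 from congrFun h0 2, show g (E 3) = 0 from congrFun h0 3] at hx
    simp at hx
  · intro h0
    obtain ⟨x, hx⟩ := hfg
    rw [e1, e2, show f (E 0) = g (E 0) from congrFun h0 0, show f (E 1) = g (E 1) from congrFun h0 1,
      show f (E 2) = g (E 2) from congrFun h0 2, show f (E 3) = g (E 3) from congrFun h0 3] at hx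
    generalize x 0 * g (E 0) + x 1 * g (E 1) + x 2 * g (E 2) + x 3 * g (E 3) = t at hx
    revert t; decide +kernel

/-- common pack: two functionals `κ ψ(·, v₁)`, `κ ψ(·, v₂)` have exactly 4 common zeros -/
theorem main_contra (h : Orth ψ) (χ₀ : V →+ ZMod 2) (hv0 : vv ψ χ₀ ≠ 0) : False := by
  set v₁ := vv ψ χ₀ with hv1
  obtain ⟨χ₂, hχ₂⟩ := exists_chi _ (Q_ne h hv0)
  set v₂ := vv ψ χ₂ with hv2
  -- χ₀ Q v₂ = 1
  have g12 : χ₀ (ψ v₂ v₂) = 1 := by rw [hv2, sym2 h, ← hv1]; exact hχ₂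
  have g11 : χ₀ (ψ v₁ v₁) = 0 := A1' h χ₀
  have g22 : χ₂ (ψ v₂ v₂) = 0 := A1' h χ₂
  have g21 : χ₂ (ψ v₁ v₁) = 1 := hχ₂
  have v2ne : v₂ ≠ 0 := by
    intro hh; rw [hh, h.zl, map_zero] at g12; exact absurd g12 (by decide)
  have v12 : v₂ ≠ v₁ := by
    intro hh; rw [hh, g11] at g12; exact absurd g12 (by decide)
  have b12 : bb ψ v₁ v₂ = 0 := bb_im h _ _
  have Q12 : ψ (v₁+v₂) (v₁+v₂) = ψ v₁ v₁ + ψ v₂ v₂ := by rw [Q_add h, b12, add_zero]
  have Qim : ∀ χ χ' : V →+ ZMod 2, ψ (vv ψ χ + vv ψ χ') (vv ψ χ + vv ψ χ') =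
      ψ (vv ψ χ) (vv ψ χ) + ψ (vv ψ χ') (vv ψ χ') := by
    intro χ χ'; rw [Q_add h, bb_im h, add_zero]
  -- general lemma on additive h
  have hadd : ∀ (χ : V →+ ZMod 2) x y, χ (ψ (x+y) (vv ψ χ)) = χ (ψ x (vv ψ χ)) + χ (ψ y (vv ψ χ)) := by
    intro χ x y
    have h1 : χ (cc ψ x y (vv ψ χ)) = 0 := by rw [cc_swap13 h]; exact vv_rad h χ _ _
    have h2 := h.coc x y (vv ψ χ)
    unfold cc at h1
    have h3 := congrArg χ h2
    simp only [map_add] at h1 h3 ⊢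
    grind
  -- no two independent elements of Im v in ker h_χ₀ outside v₁
  have nopair : ∀ χ χ' : V →+ ZMod 2, vv ψ χ ≠ 0 → vv ψ χ' ≠ 0 → vv ψ χ ≠ vv ψ χ' →
      vv ψ χ ≠ v₁ → vv ψ χ' ≠ v₁ → vv ψ χ + vv ψ χ' ≠ v₁ →
      χ₀ (ψ (vv ψ χ) v₁) = 0 → χ₀ (ψ (vv ψ χ') v₁) = 0 → False := by
    intro χ χ' n1 n2 n3 n4 n5 n6 k1 k2
    have k3 : χ₀ (ψ (vv ψ χ + vv ψ χ') v₁) = 0 := by
      have := hadd χ₀ (vv ψ χ) (vv ψ χ')
      rw [← hv1] at this
      rw [this, k1, k2, add_zero]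
    have n7 : vv ψ χ + vv ψ χ' ≠ 0 := by intro hh; apply n3; grind
    have q1 := prop_a h χ₀ (vv ψ χ) hv0 n1 n4 k1
    have q2 := prop_a h χ₀ (vv ψ χ') hv0 n2 n5 k2
    have q3 := prop_a h χ₀ _ hv0 n7 n6 k3
    rw [Qim, map_add, q1, q2] at q3
    exact absurd q3 (by decide)
  -- rank two
  have rank2 : ∀ χ : V →+ ZMod 2, χ (ψ v₁ v₁) = 0 → χ (ψ v₂ v₂) = 0 → vv ψ χ = 0 := by
    intro χ₃ k1 k2
    by_contra hne
    set v₃ := vv ψ χ₃ with hv3
    obtain ⟨χ₄', hχ₄'⟩ := exists_chi _ (Q_ne h hne)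
    have g13 : χ₀ (ψ v₃ v₃) = 0 := by rw [hv3, sym2 h, ← hv1]; exact k1
    have g23 : χ₂ (ψ v₃ v₃) = 0 := by rw [hv3, sym2 h, ← hv2]; exact k2
    -- adjust χ₄
    have : ∃ χ₄ : V →+ ZMod 2, χ₄ (ψ v₃ v₃) = 1 ∧ χ₄ (ψ v₁ v₁) = 0 ∧ χ₄ (ψ v₂ v₂) = 0 := by
      rcases zmod2_cases (χ₄' (ψ v₁ v₁)) with a1 | a1 <;>
      rcases zmod2_cases (χ₄' (ψ v₂ v₂)) with a2 | a2
      · exact ⟨χ₄', hχ₄', a1, a2⟩
      · refine ⟨χ₄' + χ₀, ?_, ?_, ?_⟩ <;> simp only [AddMonoidHom.add_apply, hχ₄', g13, a1, a2, g11, g12] <;> decide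
      · refine ⟨χ₄' + χ₂, ?_, ?_, ?_⟩ <;> simp only [AddMonoidHom.add_apply, hχ₄', g23, a1, a2, g21, g22] <;> decide
      · refine ⟨χ₄' + χ₀ + χ₂, ?_, ?_, ?_⟩ <;>
          simp only [AddMonoidHom.add_apply, hχ₄', g13, g23, a1, a2, g11, g12, g21, g22] <;> decide
    obtain ⟨χ₄, g43, g41, g42⟩ := this
    set v₄ := vv ψ χ₄ with hv4
    have g34 : χ₃ (ψ v₄ v₄) = 1 := by rw [hv4, sym2 h, ← hv3]; exact g43
    have g14 : χ₀ (ψ v₄ v₄) = 0 := by rw [hv4, sym2 h, ← hv1]; exact g41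
    have g24 : χ₂ (ψ v₄ v₄) = 0 := by rw [hv4, sym2 h, ← hv2]; exact g42
    have g33 : χ₃ (ψ v₃ v₃) = 0 := A1' h χ₃
    have g44 : χ₄ (ψ v₄ v₄) = 0 := A1' h χ₄
    have Q23 : ψ (v₂+v₃) (v₂+v₃) = ψ v₂ v₂ + ψ v₃ v₃ := Qim χ₂ χ₃
    have Q24 : ψ (v₂+v₄) (v₂+v₄) = ψ v₂ v₂ + ψ v₄ v₄ := Qim χ₂ χ₄
    have Q34 : ψ (v₃+v₄) (v₃+v₄) = ψ v₃ v₃ + ψ v₄ v₄ := Qim χ₃ χ₄
    have Q234 : ψ (v₂+(v₃+v₄)) (v₂+(v₃+v₄)) = ψ v₂ v₂ + (ψ v₃ v₃ + ψ v₄ v₄) := by
      have := Qim χ₂ (χ₃+χ₄)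
      rw [vv_add, ← hv2, ← hv3, ← hv4] at this
      rw [this, Q34]
    have w23 : vv ψ (χ₂+χ₃) = v₂+v₃ := vv_add _ _
    have w24 : vv ψ (χ₂+χ₄) = v₂+v₄ := vv_add _ _
    have w34 : vv ψ (χ₃+χ₄) = v₃+v₄ := vv_add _ _
    have w234 : vv ψ (χ₂+(χ₃+χ₄)) = v₂+(v₃+v₄) := by rw [vv_add, vv_add]
    -- distinctness via functionals
    have dist : ∀ (χ : V →+ ZMod 2) (x y : V), χ (ψ x x) ≠ χ (ψ y y) → x ≠ y := by
      intro χ x y hne hxy; exact hne (by rw [hxy])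
    have distz : ∀ (χ : V →+ ZMod 2) (x : V), χ (ψ x x) = 1 → x ≠ 0 := by
      intro χ x h1 hx; rw [hx, h.zl, map_zero] at h1; exact absurd h1 (by decide)
    have n4 : v₄ ≠ 0 := distz χ₃ v₄ g34
    have n3 : v₃ ≠ 0 := distz χ₄ v₃ g43
    have n31 : v₃ ≠ v₁ := dist χ₄ _ _ (by rw [g43, g41]; decide)
    have n41 : v₄ ≠ v₁ := dist χ₃ _ _ (by rw [g34, k1]; decide)
    have n23 : v₂ ≠ v₃ := dist χ₄ _ _ (by rw [g43, g42]; decide)
    have n24 : v₂ ≠ v₄ := dist χ₃ _ _ (by rw [g34, k2]; decide)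
    have n34 : v₃ ≠ v₄ := dist χ₃ _ _ (by rw [g34, g33]; decide)
    have m23 : v₂ + v₃ ≠ v₁ := dist χ₄ _ _ (by rw [Q23, map_add, g43, g42, g41]; decide)
    have m24 : v₂ + v₄ ≠ v₁ := dist χ₃ _ _ (by rw [Q24, map_add, g34, k2, k1]; decide)
    have m34 : v₃ + v₄ ≠ v₁ := dist χ₃ _ _ (by rw [Q34, map_add, g34, g33, k1]; decide)
    have m234 : v₂ + (v₃ + v₄) ≠ v₁ := dist χ₃ _ _ (by rw [Q234, map_add, map_add, g34, g33, k2, k1]; decide)
    have z23 : v₂ + v₃ ≠ 0 := distz χ₄ _ (by rw [Q23, map_add, g43, g42]; decide)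
    have z24 : v₂ + v₄ ≠ 0 := distz χ₃ _ (by rw [Q24, map_add, g34, k2]; decide)
    have z34 : v₃ + v₄ ≠ 0 := distz χ₃ _ (by rw [Q34, map_add, g34, g33]; decide)
    have H23 := hadd χ₀ v₂ v₃
    have H24 := hadd χ₀ v₂ v₄
    have H34 := hadd χ₀ v₃ v₄
    rw [← hv1] at H23 H24 H34
    rcases zmod2_cases (χ₀ (ψ v₂ v₁)) with a2 | a2 <;>
    rcases zmod2_cases (χ₀ (ψ v₃ v₁)) with a3 | a3 <;>
    rcases zmod2_cases (χ₀ (ψ v₄ v₁)) with a4 | a4
    · exact nopair χ₂ χ₃ v2ne n3 n23 v12 n31 m23 a2 a3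
    · exact nopair χ₂ χ₃ v2ne n3 n23 v12 n31 m23 a2 a3
    · exact nopair χ₂ χ₄ v2ne n4 n24 v12 n41 m24 a2 a4
    · refine nopair χ₂ (χ₃+χ₄) v2ne (by rw [w34]; exact z34) (by rw [w34]; exact dist χ₃ _ _ (by rw [Q34, map_add, g34, g33, k2]; decide)) v12 (by rw [w34]; exact m34) (by rw [w34]; exact m234) a2 ?_
      rw [w34, H34, a3, a4]; decide
    · exact nopair χ₃ χ₄ n3 n4 n34 n31 n41 m34 a3 a4
    · refine nopair χ₃ (χ₂+χ₄) n3 (by rw [w24]; exact z24) (by rw [w24]; exact dist χ₃ _ _ (by rw [Q24, map_add, g34, g33, k2]; decide)) n31 (by rw [w24]; exact m24) (by rw [w24, show v₃ + (v₂ + v₄) = v₂ + (v₃ + v₄) by abel]; exact m234) a3 ?_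
      rw [w24, H24, a2, a4]; decide
    · refine nopair χ₄ (χ₂+χ₃) n4 (by rw [w23]; exact z23) (by rw [w23]; exact dist χ₃ _ _ (by rw [Q23, map_add, g34, g33, k2]; decide)) n41 (by rw [w23]; exact m23) (by rw [w23, show v₄ + (v₂ + v₃) = v₂ + (v₃ + v₄) by abel]; exact m234) a4 ?_
      rw [w23, H23, a2, a3]; decide
    · refine nopair (χ₂+χ₃) (χ₃+χ₄) (by rw [w23]; exact z23) (by rw [w34]; exact z34) (by rw [w23, w34]; exact dist χ₃ _ _ (by rw [Q23, Q34, map_add, map_add, g34, g33, k2]; decide)) (by rw [w23]; exact m23) (by rw [w34]; exact m34) ?_ ?_ ?_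
      · rw [w23, w34, show v₂ + v₃ + (v₃ + v₄) = v₂ + v₄ + (v₃ + v₃) by abel, add_self_V, add_zero]; exact m24
      · rw [w23, H23, a2, a3]; decide
      · rw [w34, H34, a3, a4]; decide
  -- the kernel functionals
  obtain ⟨α, γ, hα, hγ, hαγ, e1, e2, e3, e4⟩ := two_ker (ψ v₁ v₁) (ψ v₂ v₂)
  set κ₁ := dot α with hκ₁
  set κ₂ := dot γ with hκ₂
  have K1 : vv ψ κ₁ = 0 := rank2 κ₁ e1 e2
  have K2 : vv ψ κ₂ = 0 := rank2 κ₂ e3 e4
  have κ₁ne : κ₁ ≠ 0 := fun hh => hα (dot_inj (hh.trans dot_zero.symm))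
  have κ₂ne : κ₂ ≠ 0 := fun hh => hγ (dot_inj (hh.trans dot_zero.symm))
  have κ₁₂ne : κ₁ + κ₂ ≠ 0 := by
    intro hh
    apply hαγ
    apply dot_inj
    rw [← hκ₁, ← hκ₂]
    apply AddMonoidHom.ext
    intro x
    have := DFunLike.congr_fun hh x
    simp only [AddMonoidHom.add_apply, AddMonoidHom.zero_apply] at this
    generalize κ₁ x = a at *
    generalize κ₂ x = b at *
    clear * - this
    revert a b; decide +kernel
  have K12 : vv ψ (κ₁ + κ₂) = 0 := by rw [vv_add, K1, K2, add_zero]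
  -- facts for K
  have Kb : ∀ κ : V →+ ZMod 2, vv ψ κ = 0 → ∀ χ x, κ (bb ψ x (vv ψ χ)) = 0 := by
    intro κ hκ χ x
    rw [sym1 h, hκ]; unfold bb; rw [h.zl, h.zr, add_zero, map_zero]
  have KQ : ∀ κ : V →+ ZMod 2, vv ψ κ = 0 → ∀ χ, κ (ψ (vv ψ χ) (vv ψ χ)) = 0 := by
    intro κ hκ χ
    rw [sym2 h, hκ, h.zl, map_zero]
  have Kadd : ∀ κ : V →+ ZMod 2, vv ψ κ = 0 → ∀ x y z, κ (ψ (x+y) z) = κ (ψ x z) + κ (ψ y z) := by
    intro κ hκ x y z
    have h1 := vv_zero_cc h κ hκ x y z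
    have h2 := h.coc x y z
    unfold cc at h1
    have h3 := congrArg κ h2
    simp only [map_add] at h1 h3 ⊢
    grind
  have Kadd2 : ∀ κ : V →+ ZMod 2, vv ψ κ = 0 → ∀ x y z, κ (ψ x (y+z)) = κ (ψ x y) + κ (ψ x z) := by
    intro κ hκ x y z
    have h1 := vv_zero_cc h κ hκ x y z
    unfold cc at h1
    simp only [map_add] at h1 ⊢
    grind
  -- right nondegeneracy
  have Knd : ∀ κ : V →+ ZMod 2, vv ψ κ = 0 → κ ≠ 0 → ∀ χ, vv ψ χ ≠ 0 → ∃ y, κ (ψ y (vv ψ χ)) = 1 := by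
    intro κ hκ hκ0 χ hχ
    obtain ⟨y, hy⟩ := row_one h κ hκ0 (vv ψ χ) hχ
    refine ⟨y, ?_⟩
    have := Kb κ hκ χ y
    unfold bb at this
    rw [map_add, hy] at this
    generalize κ (ψ y (vv ψ χ)) = a at *
    clear * - this
    revert a; decide +kernel
  have w12 : vv ψ (χ₀ + χ₂) = v₁ + v₂ := vv_add _ _
  have v12ne : v₁ + v₂ ≠ 0 := by intro hh; apply v12; grind
  -- count for a kernel functional
  have cnt : ∀ κ : V →+ ZMod 2, vv ψ κ = 0 → κ ≠ 0 →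
      (Finset.univ.filter (fun x : V => κ (ψ x v₁) = 0 ∧ κ (ψ x v₂) = 0)).card = 4 := by
    intro κ hκ hκ0
    apply common_zeros
    · intro x y; exact Kadd κ hκ x y _
    · intro x y; exact Kadd κ hκ x y _
    · exact Knd κ hκ hκ0 χ₀ hv0
    · exact Knd κ hκ hκ0 χ₂ v2ne
    · obtain ⟨y, hy⟩ := Knd κ hκ hκ0 (χ₀ + χ₂) (by rw [w12]; exact v12ne)
      refine ⟨y, ?_⟩
      rw [w12, Kadd2 κ hκ] at hy
      exact hy
  -- V₀ avoidance
  have notV0 : ∀ κ : V →+ ZMod 2, vv ψ κ = 0 → ∀ x, κ (ψ x x) = 1 → x ≠ 0 ∧ ∀ χ, x ≠ vv ψ χ := by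
    intro κ hκ x hx
    constructor
    · rintro rfl; rw [h.zl, map_zero] at hx; exact absurd hx (by decide)
    · rintro χ rfl; rw [KQ κ hκ] at hx; exact absurd hx (by decide)
  -- Claim 1
  have claim1 : ∀ κ : V →+ ZMod 2, vv ψ κ = 0 → ∀ x, κ (ψ x x) = 0 := by
    intro κ hκ x
    by_contra hne
    have hκx : κ (ψ x x) = 1 := by
      rcases zmod2_cases (κ (ψ x x)) with h' | h'
      · exact absurd h' hne
      · exact h'
    have : ∃ κs : V →+ ZMod 2, vv ψ κs = 0 ∧ κs ≠ 0 ∧ κs (ψ x x) = 0 := by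
      rcases zmod2_cases (κ₁ (ψ x x)) with a1 | a1
      · exact ⟨κ₁, K1, κ₁ne, a1⟩
      rcases zmod2_cases (κ₂ (ψ x x)) with a2 | a2
      · exact ⟨κ₂, K2, κ₂ne, a2⟩
      · exact ⟨κ₁ + κ₂, K12, κ₁₂ne, by rw [AddMonoidHom.add_apply, a1, a2]; decide⟩
    obtain ⟨κs, hKs, hKs0, hKsx⟩ := this
    -- for any y with κ Q y = 1, κs Q y = 0 : κs ψ(y, v) = 0
    have step : ∀ y, κ (ψ y y) = 1 → κs (ψ y y) = 0 → ∀ χ, vv ψ χ ≠ 0 → κs (ψ y (vv ψ χ)) = 0 := by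
      intro y hy1 hy2 χ hχ
      obtain ⟨ny0, nyv⟩ := notV0 κ hκ y hy1
      have key : ∀ χ' : V →+ ZMod 2, vv ψ χ' = vv ψ χ → χ' (ψ y y) = 0 → χ' (ψ y (vv ψ χ)) = 1 := by
        intro χ' he hq
        rcases zmod2_cases (χ' (ψ y (vv ψ χ))) with h' | h'
        · exfalso
          rw [← he] at h'
          have := prop_a h χ' y (by rw [he]; exact hχ) ny0 (nyv χ') h'
          rw [hq] at this
          exact absurd this (by decide)
        · exact h'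
      have : ∃ χ' : V →+ ZMod 2, vv ψ χ' = vv ψ χ ∧ χ' (ψ y y) = 0 := by
        rcases zmod2_cases (χ (ψ y y)) with h' | h'
        · exact ⟨χ, rfl, h'⟩
        · exact ⟨χ + κ, by rw [vv_add, hκ, add_zero], by rw [AddMonoidHom.add_apply, h', hy1]; decide⟩
      obtain ⟨χ', he, hq⟩ := this
      have k1 := key χ' he hq
      have k2 := key (χ' + κs) (by rw [vv_add, hKs, add_zero, he]) (by
        rw [AddMonoidHom.add_apply, hq, hy2]; decide)
      rw [AddMonoidHom.add_apply, k1] at k2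
      generalize κs (ψ y (vv ψ χ)) = a at *
      clear * - k2
      revert a; decide +kernel
    have stepv : ∀ χ, κ (ψ (x + vv ψ χ) (x + vv ψ χ)) = 1 ∧ κs (ψ (x + vv ψ χ) (x + vv ψ χ)) = 0 := by
      intro χ
      constructor
      · rw [Q_add h, map_add, map_add, hκx, KQ κ hκ, Kb κ hκ]; decide
      · rw [Q_add h, map_add, map_add, hKsx, KQ κs hKs, Kb κs hKs]; decide
    have s0 := step x hκx hKsx
    have s1 := step _ (stepv χ₀).1 (stepv χ₀).2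
    have s2 := step _ (stepv χ₂).1 (stepv χ₂).2
    have s12 := step _ (stepv (χ₀+χ₂)).1 (stepv (χ₀+χ₂)).2
    rw [w12] at s12
    rw [← hv1] at s1
    rw [← hv2] at s2
    have hcard := cnt κs hKs hKs0
    have sub : ({0, x, x + v₁, x + v₂, x + (v₁ + v₂)} : Finset V) ⊆
        Finset.univ.filter (fun x : V => κs (ψ x v₁) = 0 ∧ κs (ψ x v₂) = 0) := by
      intro t ht
      simp only [Finset.mem_insert, Finset.mem_singleton] at ht
      simp only [Finset.mem_filter, Finset.mem_univ, true_and]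
      rcases ht with rfl | rfl | rfl | rfl | rfl
      · rw [h.zl, h.zl]; exact ⟨map_zero _, map_zero _⟩
      · exact ⟨s0 χ₀ hv0, s0 χ₂ v2ne⟩
      · exact ⟨s1 χ₀ hv0, s1 χ₂ v2ne⟩
      · exact ⟨s2 χ₀ hv0, s2 χ₂ v2ne⟩
      · exact ⟨s12 χ₀ hv0, s12 χ₂ v2ne⟩
    have c5 := Finset.card_le_card sub
    rw [hcard] at c5
    obtain ⟨nx0, nxv⟩ := notV0 κ hκ x hκx
    have nx1 : x ≠ v₁ := nxv χ₀
    have nx2 : x ≠ v₂ := nxv χ₂
    have nx12 : x ≠ v₁ + v₂ := by rw [← w12]; exact nxv _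
    have : ({0, x, x + v₁, x + v₂, x + (v₁ + v₂)} : Finset V).card = 5 := by
      rw [Finset.card_insert_of_notMem, Finset.card_insert_of_notMem, Finset.card_insert_of_notMem,
        Finset.card_insert_of_notMem, Finset.card_singleton]
      · simp only [Finset.mem_singleton]
        intro hh; apply hv0; grind
      · simp only [Finset.mem_insert, Finset.mem_singleton, not_or]
        refine ⟨?_, ?_⟩
        · intro hh; apply v12; grind
        · intro hh; apply v2ne; grind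
      · simp only [Finset.mem_insert, Finset.mem_singleton, not_or]
        refine ⟨?_, ?_, ?_⟩
        · intro hh; apply hv0; grind
        · intro hh; apply v2ne; grind
        · intro hh; apply v12ne; grind
      · simp only [Finset.mem_insert, Finset.mem_singleton, not_or]
        refine ⟨fun hh => nx0 hh.symm, ?_, ?_, ?_⟩
        · intro hh; apply nx1; grind
        · intro hh; apply nx2; grind
        · intro hh; apply nx12; grind
    omega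
  -- Claim 2
  have claim2 : ∀ x, x ≠ 0 → x ≠ v₁ → x ≠ v₂ → x ≠ v₁ + v₂ →
      (κ₁ (ψ x v₁) = 0 ∧ κ₂ (ψ x v₁) = 0) ∨ (κ₁ (ψ x v₂) = 0 ∧ κ₂ (ψ x v₂) = 0) ∨
      (κ₁ (ψ x (v₁+v₂)) = 0 ∧ κ₂ (ψ x (v₁+v₂)) = 0) := by
    intro x hx0 hx1 hx2 hx12
    have key : ∀ χ : V →+ ZMod 2, vv ψ χ ≠ 0 → x ≠ vv ψ χ → χ (ψ x x) = 0 →
        κ₁ (ψ x (vv ψ χ)) = 0 ∧ κ₂ (ψ x (vv ψ χ)) = 0 := by
      intro χ hχ hxχ hq
      have key0 : ∀ κ : V →+ ZMod 2, vv ψ κ = 0 → (χ + κ) (ψ x (vv ψ χ)) = 1 := by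
        intro κ hκ
        rcases zmod2_cases ((χ + κ) (ψ x (vv ψ χ))) with h' | h'
        · exfalso
          have he : vv ψ (χ + κ) = vv ψ χ := by rw [vv_add, hκ, add_zero]
          have := prop_a h (χ + κ) x (by rw [he]; exact hχ) hx0 (by rw [he]; exact hxχ) (by rw [he]; exact h')
          rw [AddMonoidHom.add_apply, hq, claim1 κ hκ] at this
          exact absurd this (by decide)
        · exact h'
      have k0 : χ (ψ x (vv ψ χ)) = 1 := by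
        have := key0 0 (by funext i; fin_cases i <;> simp [vv])
        rwa [add_zero] at this
      have k1 := key0 κ₁ K1
      have k2 := key0 κ₂ K2
      rw [AddMonoidHom.add_apply, k0] at k1 k2
      constructor
      · generalize κ₁ (ψ x (vv ψ χ)) = a at *
        clear * - k1
        revert a; decide +kernel
      · generalize κ₂ (ψ x (vv ψ χ)) = a at *
        clear * - k2
        revert a; decide +kernel
    rcases zmod2_cases (χ₀ (ψ x x)) with a1 | a1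
    · left; exact key χ₀ hv0 hx1 a1
    rcases zmod2_cases (χ₂ (ψ x x)) with a2 | a2
    · right; left; exact key χ₂ v2ne hx2 a2
    · right; right
      rw [← w12]
      exact key (χ₀ + χ₂) (by rw [w12]; exact v12ne) (by rw [w12]; exact hx12) (by
        rw [AddMonoidHom.add_apply, a1, a2]; decide)
  -- Counting
  have cnt2 : ∀ χ : V →+ ZMod 2, vv ψ χ ≠ 0 →
      (Finset.univ.filter (fun x : V => κ₁ (ψ x (vv ψ χ)) = 0 ∧ κ₂ (ψ x (vv ψ χ)) = 0)).card = 4 := by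
    intro χ hχ
    apply common_zeros
    · intro x y; exact Kadd κ₁ K1 x y _
    · intro x y; exact Kadd κ₂ K2 x y _
    · exact Knd κ₁ K1 κ₁ne χ hχ
    · exact Knd κ₂ K2 κ₂ne χ hχ
    · obtain ⟨y, hy⟩ := Knd (κ₁ + κ₂) K12 κ₁₂ne χ hχ
      exact ⟨y, hy⟩
  have c1 := cnt2 χ₀ hv0
  have c2 := cnt2 χ₂ v2ne
  have c3 := cnt2 (χ₀ + χ₂) (by rw [w12]; exact v12ne)
  rw [← hv1] at c1
  rw [← hv2] at c2
  rw [w12] at c3
  set Z1 := Finset.univ.filter (fun x : V => κ₁ (ψ x v₁) = 0 ∧ κ₂ (ψ x v₁) = 0) with hZ1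
  set Z2 := Finset.univ.filter (fun x : V => κ₁ (ψ x v₂) = 0 ∧ κ₂ (ψ x v₂) = 0) with hZ2
  set Z3 := Finset.univ.filter (fun x : V => κ₁ (ψ x (v₁+v₂)) = 0 ∧ κ₂ (ψ x (v₁+v₂)) = 0) with hZ3
  have cover : (Finset.univ : Finset V) ⊆ ({0, v₁, v₂, v₁+v₂} : Finset V) ∪ (Z1.erase 0 ∪ (Z2.erase 0 ∪ Z3.erase 0)) := by
    intro x _
    simp only [Finset.mem_union, Finset.mem_insert, Finset.mem_singleton, Finset.mem_erase]
    by_cases hx0 : x = 0
    · left; left; exact hx0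
    by_cases hx1 : x = v₁
    · left; right; left; exact hx1
    by_cases hx2 : x = v₂
    · left; right; right; left; exact hx2
    by_cases hx12 : x = v₁ + v₂
    · left; right; right; right; exact hx12
    right
    rcases claim2 x hx0 hx1 hx2 hx12 with k | k | k
    · left; exact ⟨hx0, by rw [hZ1]; simp only [Finset.mem_filter, Finset.mem_univ, true_and]; exact k⟩
    · right; left; exact ⟨hx0, by rw [hZ2]; simp only [Finset.mem_filter, Finset.mem_univ, true_and]; exact k⟩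
    · right; right; exact ⟨hx0, by rw [hZ3]; simp only [Finset.mem_filter, Finset.mem_univ, true_and]; exact k⟩
  have hc := Finset.card_le_card cover
  have hu := Finset.card_union_le ({0, v₁, v₂, v₁+v₂} : Finset V) (Z1.erase 0 ∪ (Z2.erase 0 ∪ Z3.erase 0))
  have hu2 := Finset.card_union_le (Z1.erase 0) (Z2.erase 0 ∪ Z3.erase 0)
  have hu3 := Finset.card_union_le (Z2.erase 0) (Z3.erase 0)
  have h4 : ({0, v₁, v₂, v₁+v₂} : Finset V).card ≤ 4 := Finset.card_le_four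
  have hz : ∀ χ : V →+ ZMod 2, ∀ v : V, κ₁ (ψ 0 v) = 0 ∧ κ₂ (ψ 0 v) = 0 := by
    intro χ v; rw [h.zl]; exact ⟨map_zero _, map_zero _⟩
  have e1 : (Z1.erase 0).card = 3 := by
    rw [Finset.card_erase_of_mem, c1]
    rw [hZ1]; simp only [Finset.mem_filter, Finset.mem_univ, true_and]; exact hz χ₀ _
  have e2 : (Z2.erase 0).card = 3 := by
    rw [Finset.card_erase_of_mem, c2]
    rw [hZ2]; simp only [Finset.mem_filter, Finset.mem_univ, true_and]; exact hz χ₀ _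
  have e3 : (Z3.erase 0).card = 3 := by
    rw [Finset.card_erase_of_mem, c3]
    rw [hZ3]; simp only [Finset.mem_filter, Finset.mem_univ, true_and]; exact hz χ₀ _
  have hcard : (Finset.univ : Finset V).card = 16 := by simp [Finset.card_univ]
  omega

/-- orthogonal cocycles over F_2^4 are biadditive -/
theorem cc_zero (h : Orth ψ) (x y z : V) : cc ψ x y z = 0 := by
  by_contra hne
  obtain ⟨χ, hχ⟩ := exists_chi _ hne
  by_cases hv : vv ψ χ = 0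
  · rw [vv_zero_cc h χ hv] at hχ; exact absurd hχ (by decide)
  · exact main_contra h χ hv

theorem add_right (h : Orth ψ) (x y z : V) : ψ x (y + z) = ψ x y + ψ x z := by
  have := cc_zero h x y z
  unfold cc at this
  grind

theorem add_left (h : Orth ψ) (x y z : V) : ψ (x + y) z = ψ x z + ψ y z := by
  have h1 := cc_zero h x y z
  have h2 := h.coc x y z
  unfold cc at h1
  grind

end H197N24
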