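import Pool.Agent.H197R2.N24M

/-!
Counting: autotopism groups, orbit minima.
-/

namespace H197N24

def s16 (f : ℕ → ℕ) : ℕ :=
  Nat.add (Nat.add (Nat.add (Nat.add (f 0) (f 1)) (Nat.add (f 2) (f 3)))
    (Nat.add (Nat.add (f 4) (f 5)) (Nat.add (f 6) (f 7))))
    (Nat.add (Nat.add (Nat.add (f 8) (f 9)) (Nat.add (f 10) (f 11)))
    (Nat.add (Nat.add (f 12) (f 13)) (Nat.add (f 14) (f 15))))

theorem s16_eq (f : ℕ → ℕ) : s16 f = ∑ i ∈ Finset.range 16, f i := by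
  simp only [Finset.sum_range_succ, Finset.sum_range_zero, s16, Nat.add_eq]
  omega

def b01 (b : Bool) : ℕ := bif b then 1 else 0

theorem b01_eq (b : Bool) : b01 b = if b = true then 1 else 0 := by
  cases b <;> rfl

def cnt4 (p : ℕ → ℕ → ℕ → ℕ → Bool) : ℕ :=
  s16 fun a => s16 fun b => s16 fun c => s16 fun d => b01 (p a b c d)

def cnt3 (p : ℕ → ℕ → ℕ → Bool) : ℕ :=
  s16 fun a => s16 fun b => s16 fun c => b01 (p a b c)

abbrev T4 := ℕ × ℕ × ℕ × ℕ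

def box4 : Finset T4 :=
  Finset.range 16 ×ˢ (Finset.range 16 ×ˢ (Finset.range 16 ×ˢ Finset.range 16))

def box3 : Finset (ℕ × ℕ × ℕ) :=
  Finset.range 16 ×ˢ (Finset.range 16 ×ˢ Finset.range 16)

theorem card4 (p : ℕ → ℕ → ℕ → ℕ → Bool) :
    (box4.filter (fun t => p t.1 t.2.1 t.2.2.1 t.2.2.2 = true)).card = cnt4 p := by
  rw [Finset.card_filter, box4, Finset.sum_product]
  unfold cnt4
  rw [s16_eq]
  apply Finset.sum_congr rfl
  intro a _
  rw [Finset.sum_product, s16_eq]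
  apply Finset.sum_congr rfl
  intro b _
  rw [Finset.sum_product, s16_eq]
  apply Finset.sum_congr rfl
  intro c _
  rw [s16_eq]
  apply Finset.sum_congr rfl
  intro d _
  rw [b01_eq]

theorem card3 (p : ℕ → ℕ → ℕ → Bool) :
    (box3.filter (fun t => p t.1 t.2.1 t.2.2 = true)).card = cnt3 p := by
  rw [Finset.card_filter, box3, Finset.sum_product]
  unfold cnt3
  rw [s16_eq]
  apply Finset.sum_congr rfl
  intro a _
  rw [Finset.sum_product, s16_eq]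
  apply Finset.sum_congr rfl
  intro b _
  rw [s16_eq]
  apply Finset.sum_congr rfl
  intro c _
  rw [b01_eq]

def aut (i : ℕ) : List (ℕ × ℕ × ℕ × ℕ × ℕ) := match i with
  | 0 => aut0
  | 1 => aut1
  | _ => aut2

def autOK (i : ℕ) (g : ℕ × ℕ × ℕ × ℕ × ℕ) : Bool :=
  invn g.2.2.1 && invn g.2.2.2.1 && invn g.2.2.2.2 &&
  Nat.beq (apn g.2.2.2.1 (nib g.2.1 0)) 1 && Nat.beq (apn g.2.2.2.1 (nib g.2.1 1)) 2 &&
  Nat.beq (apn g.2.2.2.1 (nib g.2.1 2)) 4 && Nat.beq (apn g.2.2.2.1 (nib g.2.1 3)) 8 &&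
  (all16 fun v => Nat.beq (nib g.1 v) (apn g.2.2.1 v)) &&
  ([0,1,2,3].all fun j => [0,1,2,3].all fun k =>
    Nat.beq (apn g.2.2.2.2 (tl (tbl i) (Nat.pow 2 j) (Nat.pow 2 k))) (tl (tbl i) (nib g.2.2.1 j) (nib g.2.2.2.1 k)))

def im (A64 PI a b c d j : ℕ) : ℕ := nib A64 (ap a b c d (nib PI j))

def le4 (a b c d : ℕ) (g : ℕ × ℕ × ℕ × ℕ × ℕ) : Bool :=
  Nat.blt a (im g.1 g.2.1 a b c d 0) || (Nat.beq a (im g.1 g.2.1 a b c d 0) &&
  (Nat.blt b (im g.1 g.2.1 a b c d 1) || (Nat.beq b (im g.1 g.2.1 a b c d 1) &&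
  (Nat.blt c (im g.1 g.2.1 a b c d 2) || (Nat.beq c (im g.1 g.2.1 a b c d 2) &&
  Nat.ble d (im g.1 g.2.1 a b c d 3))))))

def isMin (i a b c d : ℕ) : Bool := (aut i).all (le4 a b c d)

def pT (i a b c d : ℕ) : Bool := inv4 a b c d && isMin i a b c d

theorem autsOK0 : (aut 0).all (autOK 0) = true := by decide +kernel
theorem autsOK1 : (aut 1).all (autOK 1) = true := by decide +kernel
theorem autsOK2 : (aut 2).all (autOK 2) = true := by decide +kernel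

theorem cntGL : cnt4 inv4 = 20160 := by decide +kernel

end H197N24
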