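import Pool.Agent.H197R2.N24F

/-!
Number of equivalence classes: bounds.
-/

namespace H197N24

open Classical in
theorem cT0 : cnt4 (pT 0) = 1190 := by decide +kernel
theorem cT1 : cnt4 (pT 1) = 32 := by decide +kernel
theorem cT2 : cnt4 (pT 2) = 224 := by decide +kernel

def M4 (t : T4) : V →+ V := mk4 (dec t.1) (dec t.2.1) (dec t.2.2.1) (dec t.2.2.2)

def rep (i : ℕ) (t : T4) (x y : V) : V := mu i (M4 t x) y

def GLs : Finset T4 := box4.filter (fun t => inv4 t.1 t.2.1 t.2.2.1 t.2.2.2 = true)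

theorem mem_GLs (t : T4) : t ∈ GLs ↔ (t.1 < 16 ∧ t.2.1 < 16 ∧ t.2.2.1 < 16 ∧ t.2.2.2 < 16) ∧
    inv4 t.1 t.2.1 t.2.2.1 t.2.2.2 = true := by
  unfold GLs box4
  rw [Finset.mem_filter, Finset.mem_product, Finset.mem_product, Finset.mem_product]
  simp only [Finset.mem_range]

theorem GLs_inv {t : T4} (h : t ∈ GLs) :
    inv4 (enc (dec t.1)) (enc (dec t.2.1)) (enc (dec t.2.2.1)) (enc (dec t.2.2.2)) = true := by
  rw [mem_GLs] at h
  obtain ⟨⟨h1, h2, h3, h4⟩, h5⟩ := h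
  rw [enc_dec _ h1, enc_dec _ h2, enc_dec _ h3, enc_dec _ h4]
  exact h5

noncomputable def Me (t : T4) (h : t ∈ GLs) : V ≃+ V := eq4 _ _ _ _ (GLs_inv h)

theorem Me_apply (t : T4) (h : t ∈ GLs) (x : V) : Me t h x = M4 t x := rfl

theorem rep_bil (i : ℕ) (hi : i < 3) (t : T4) (h : t ∈ GLs) : Bil (rep i t) := by
  have hm := mu_bil i hi
  constructor
  · intro x y z; unfold rep; rw [map_add, hm.addl]
  · intro x y z; unfold rep; rw [hm.addr]
  · intro x y hxy
    rcases hm.nd _ _ hxy with h1 | h1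
    · left
      rw [← Me_apply t h] at h1
      exact (map_eq_zero_iff (Me t h) (Me t h).injective).mp h1
    · right; exact h1

/-- code of an additive bijection -/
def codeOf (f : V → V) : T4 := (enc (f (E 0)), enc (f (E 1)), enc (f (E 2)), enc (f (E 3)))

theorem codeOf_mem {f : V → V} (hf : ∀ x y, f (x + y) = f x + f y) (hinj : Function.Injective f) :
    codeOf f ∈ GLs := by
  rw [mem_GLs]
  exact ⟨⟨enc_lt _, enc_lt _, enc_lt _, enc_lt _⟩, inv4_of_inj hf hinj⟩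

theorem M4_codeOf {f : V → V} (hf : ∀ x y, f (x + y) = f x + f y) (x : V) : M4 (codeOf f) x = f x := by
  unfold M4 codeOf
  simp only [dec_enc]
  exact (add_eq_mk4 f hf x).symm

theorem M4_inj {t t' : T4} (h : t ∈ GLs) (h' : t' ∈ GLs) (hM : ∀ x, M4 t x = M4 t' x) : t = t' := by
  rw [mem_GLs] at h h'
  obtain ⟨⟨h1, h2, h3, h4⟩, -⟩ := h
  obtain ⟨⟨g1, g2, g3, g4⟩, -⟩ := h'
  have e0 := congrArg enc (hM (E 0))
  have e1 := congrArg enc (hM (E 1))
  have e2 := congrArg enc (hM (E 2))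
  have e3 := congrArg enc (hM (E 3))
  unfold M4 at e0 e1 e2 e3
  rw [mk4_E0, mk4_E0, enc_dec _ h1, enc_dec _ g1] at e0
  rw [mk4_E1, mk4_E1, enc_dec _ h2, enc_dec _ g2] at e1
  rw [mk4_E2, mk4_E2, enc_dec _ h3, enc_dec _ g3] at e2
  rw [mk4_E3, mk4_E3, enc_dec _ h4, enc_dec _ g4] at e3
  ext
  · exact e0
  · exact e1
  · exact e2
  · exact e3

theorem mkn_E (M : ℕ) (j : Fin 4) : mkn M (E j) = dec (nib M j) := by
  unfold mkn
  fin_cases j
  · exact mk4_E0 _ _ _ _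
  · exact mk4_E1 _ _ _ _
  · exact mk4_E2 _ _ _ _
  · exact mk4_E3 _ _ _ _

/-- moving along an autotopism -/
def mv (g : ℕ × ℕ × ℕ × ℕ × ℕ) (t : T4) : T4 :=
  (im g.1 g.2.1 t.1 t.2.1 t.2.2.1 t.2.2.2 0, im g.1 g.2.1 t.1 t.2.1 t.2.2.1 t.2.2.2 1,
   im g.1 g.2.1 t.1 t.2.1 t.2.2.1 t.2.2.2 2, im g.1 g.2.1 t.1 t.2.1 t.2.2.1 t.2.2.2 3)

theorem mv_spec (i : ℕ) (hi : i < 3) (g : ℕ × ℕ × ℕ × ℕ × ℕ) (hg : autOK i g = true) (t : T4) (h : t ∈ GLs) :
    mv g t ∈ GLs ∧ Eqv (rep i t, R0) (rep i (mv g t), R0) := by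
  obtain ⟨A64, PI, A, P, Q⟩ := g
  unfold autOK at hg
  simp only [Bool.and_eq_true] at hg
  obtain ⟨⟨⟨⟨⟨⟨⟨⟨hA, hP⟩, hQ⟩, p0⟩, p1⟩, p2⟩, p3⟩, hA64⟩, hmul⟩ := hg
  have p0 := Nat.eq_of_beq_eq_true p0
  have p1 := Nat.eq_of_beq_eq_true p1
  have p2 := Nat.eq_of_beq_eq_true p2
  have p3 := Nat.eq_of_beq_eq_true p3
  set Ae := eqn A hA with hAe
  set Pe := eqn P hP with hPe
  set Qe := eqn Q hQ with hQe
  have hm := mu_bil i hi
  -- autotopism property
  have haut : ∀ x y, Qe (mu i x y) = mu i (Ae x) (Pe y) := by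
    refine biadd_ext (F := fun x y => Qe (mu i x y)) (G := fun x y => mu i (Ae x) (Pe y)) ?_ ?_ ?_ ?_ ?_
    · intro x y z; simp only [hm.addl, map_add]
    · intro x y z; simp only [hm.addr, map_add]
    · intro x y z; simp only [map_add, hm.addl]
    · intro x y z; simp only [map_add, hm.addr]
    · intro j k
      apply enc_inj
      simp only [List.all_cons, List.all_nil, Bool.and_true, Bool.and_eq_true] at hmul
      rw [hQe, enc_eqn, enc_mu, enc_mu, hAe, hPe, eqn_apply, eqn_apply, mkn_E, mkn_E, enc_dec _ (nib_lt _ _),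
        enc_dec _ (nib_lt _ _), enc_E, enc_E]
      obtain ⟨⟨a00, a01, a02, a03⟩, ⟨a10, a11, a12, a13⟩, ⟨a20, a21, a22, a23⟩, ⟨a30, a31, a32, a33⟩⟩ := hmul
      fin_cases j <;> fin_cases k
      · exact Nat.eq_of_beq_eq_true a00
      · exact Nat.eq_of_beq_eq_true a01
      · exact Nat.eq_of_beq_eq_true a02
      · exact Nat.eq_of_beq_eq_true a03
      · exact Nat.eq_of_beq_eq_true a10
      · exact Nat.eq_of_beq_eq_true a11
      · exact Nat.eq_of_beq_eq_true a12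
      · exact Nat.eq_of_beq_eq_true a13
      · exact Nat.eq_of_beq_eq_true a20
      · exact Nat.eq_of_beq_eq_true a21
      · exact Nat.eq_of_beq_eq_true a22
      · exact Nat.eq_of_beq_eq_true a23
      · exact Nat.eq_of_beq_eq_true a30
      · exact Nat.eq_of_beq_eq_true a31
      · exact Nat.eq_of_beq_eq_true a32
      · exact Nat.eq_of_beq_eq_true a33
  set f : V → V := fun z => Ae (M4 t (Pe.symm z)) with hf
  have fadd : ∀ x y, f (x + y) = f x + f y := by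
    intro x y; simp only [hf, map_add]
  have finj : Function.Injective f := by
    intro x y hxy
    have h1 := Ae.injective hxy
    rw [← Me_apply t h, ← Me_apply t h] at h1
    exact Pe.symm.injective ((Me t h).injective h1)
  have Psymm : ∀ (j : Fin 4), apn P (nib PI j) = enc (E j) → Pe.symm (E j) = dec (nib PI j) := by
    intro j hj
    rw [AddEquiv.symm_apply_eq]
    apply enc_inj
    rw [hPe, enc_eqn, enc_dec _ (nib_lt _ _), hj]
  have hcode : mv (A64, PI, A, P, Q) t = codeOf f := by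
    have tl := (mem_GLs t).mp h
    obtain ⟨⟨h1, h2, h3, h4⟩, h5⟩ := tl
    have key : ∀ (j : Fin 4), apn P (nib PI j) = enc (E j) →
        im A64 PI t.1 t.2.1 t.2.2.1 t.2.2.2 j = enc (f (E j)) := by
      intro j hj
      simp only [hf]
      rw [Psymm j hj, hAe, enc_eqn]
      unfold im
      have e1 : enc (M4 t (dec (nib PI j))) = ap t.1 t.2.1 t.2.2.1 t.2.2.2 (nib PI j) := by
        unfold M4
        rw [enc_mk4, enc_dec _ h1, enc_dec _ h2, enc_dec _ h3, enc_dec _ h4, enc_dec _ (nib_lt _ _)]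
      rw [← e1]
      exact Nat.eq_of_beq_eq_true (all16_spec hA64 _ (enc_lt _))
    unfold mv codeOf
    have k0 := key 0 (by rw [enc_E0]; exact p0)
    have k1 := key 1 (by rw [enc_E1]; exact p1)
    have k2 := key 2 (by rw [enc_E2]; exact p2)
    have k3 := key 3 (by rw [enc_E3]; exact p3)
    ext
    · exact k0
    · exact k1
    · exact k2
    · exact k3
  rw [hcode]
  have hmem := codeOf_mem fadd finj
  refine ⟨hmem, ?_⟩
  apply eqv_of_iso (rep_bil i hi t h) (rep_bil i hi _ hmem) Pe Qe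
  intro x y
  unfold rep
  rw [haut, M4_codeOf fadd]
  simp only [hf, Pe.symm_apply_apply]

def key4 (t : T4) : ℕ := ((t.1 * 16 + t.2.1) * 16 + t.2.2.1) * 16 + t.2.2.2

theorem le4_of_key {t : T4} {g : ℕ × ℕ × ℕ × ℕ × ℕ} (ht : t ∈ GLs) (hm : mv g t ∈ GLs)
    (hk : key4 t ≤ key4 (mv g t)) : le4 t.1 t.2.1 t.2.2.1 t.2.2.2 g = true := by
  rw [mem_GLs] at ht hm
  obtain ⟨⟨h1, h2, h3, h4⟩, -⟩ := ht
  obtain ⟨⟨g1, g2, g3, g4⟩, -⟩ := hm
  unfold le4
  unfold key4 at hk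
  change _ < 16 at g1 g2 g3 g4
  unfold mv at g1 g2 g3 g4 hk
  simp only at g1 g2 g3 g4 hk
  generalize im g.1 g.2.1 t.1 t.2.1 t.2.2.1 t.2.2.2 0 = x0 at *
  generalize im g.1 g.2.1 t.1 t.2.1 t.2.2.1 t.2.2.2 1 = x1 at *
  generalize im g.1 g.2.1 t.1 t.2.1 t.2.2.1 t.2.2.2 2 = x2 at *
  generalize im g.1 g.2.1 t.1 t.2.1 t.2.2.1 t.2.2.2 3 = x3 at *
  simp only [Bool.or_eq_true, Bool.and_eq_true, Nat.blt_eq, Nat.beq_eq, Nat.ble_eq]
  omega

def TT (i : ℕ) : Finset T4 := box4.filter (fun t => pT i t.1 t.2.1 t.2.2.1 t.2.2.2 = true)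

theorem autsOK (i : ℕ) (g : ℕ × ℕ × ℕ × ℕ × ℕ) (hg : g ∈ aut i) (hi : i < 3) : autOK i g = true := by
  interval_cases i
  · exact List.all_eq_true.mp autsOK0 g hg
  · exact List.all_eq_true.mp autsOK1 g hg
  · exact List.all_eq_true.mp autsOK2 g hg

/-- every valid class has a minimal representative -/
theorem upper (x : X) (hx : Valid x) : ∃ i < 3, ∃ t ∈ TT i, cls x = cls (rep i t, R0) := by
  classical
  obtain ⟨ψ, hψ, hxψ⟩ := normal_form x hx
  obtain ⟨i, hi, A, P, Q, hAPQ⟩ := bil_class hψ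
  set f : V → V := fun z => A (P.symm z) with hf
  have fadd : ∀ x y, f (x + y) = f x + f y := by intro x y; simp only [hf, map_add]
  have finj : Function.Injective f := A.injective.comp P.symm.injective
  have hmem := codeOf_mem fadd finj
  have h1 : Eqv x (rep i (codeOf f), R0) := by
    apply Eqv.trans (rep_bil i hi _ hmem).valid hxψ
    apply eqv_of_iso hψ (rep_bil i hi _ hmem) P Q
    intro a b
    unfold rep
    rw [M4_codeOf fadd, hAPQ]
    simp only [hf, P.symm_apply_apply]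
  -- minimal element
  set S := GLs.filter (fun t => Eqv x (rep i t, R0)) with hS
  have hne : S.Nonempty := ⟨codeOf f, by rw [hS, Finset.mem_filter]; exact ⟨hmem, h1⟩⟩
  obtain ⟨t, htS, hmin⟩ := Finset.exists_min_image S key4 hne
  rw [hS, Finset.mem_filter] at htS
  obtain ⟨htG, htE⟩ := htS
  refine ⟨i, hi, t, ?_, cls_eq (rep_bil i hi t htG).valid htE⟩
  unfold TT
  rw [Finset.mem_filter]
  constructor
  · unfold GLs at htG; exact (Finset.mem_filter.mp htG).1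
  · unfold pT
    rw [Bool.and_eq_true]
    refine ⟨((mem_GLs t).mp htG).2, ?_⟩
    unfold isMin
    rw [List.all_eq_true]
    intro g hg
    obtain ⟨hm1, hm2⟩ := mv_spec i hi g (autsOK i g hg hi) t htG
    apply le4_of_key htG hm1
    apply hmin
    rw [hS, Finset.mem_filter]
    exact ⟨hm1, Eqv.trans (rep_bil i hi _ hm1).valid htE hm2⟩

theorem TT_card0 : (TT 0).card = 1190 := by unfold TT; rw [card4 (pT 0)]; exact cT0
theorem TT_card1 : (TT 1).card = 32 := by unfold TT; rw [card4 (pT 1)]; exact cT1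
theorem TT_card2 : (TT 2).card = 224 := by unfold TT; rw [card4 (pT 2)]; exact cT2
theorem GLs_card : GLs.card = 20160 := by unfold GLs; rw [card4 inv4]; exact cntGL

def classes : Set (Set X) := {S | ∃ x : X, Valid x ∧ S = cls x}

theorem upper_bound : Nat.card classes ≤ 1446 := by
  classical
  have hsub : classes ⊆ (((TT 0).image (fun t => cls (rep 0 t, R0)) ∪ ((TT 1).image (fun t => cls (rep 1 t, R0)) ∪
      (TT 2).image (fun t => cls (rep 2 t, R0))) : Finset (Set X)) : Set (Set X)) := by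
    rintro S ⟨x, hx, rfl⟩
    obtain ⟨i, hi, t, ht, he⟩ := upper x hx
    rw [he]
    simp only [Finset.coe_union, Finset.coe_image, Set.mem_union, Set.mem_image]
    interval_cases i
    · left; exact ⟨t, ht, rfl⟩
    · right; left; exact ⟨t, ht, rfl⟩
    · right; right; exact ⟨t, ht, rfl⟩
  have h1 : Nat.card classes ≤ Nat.card (((TT 0).image (fun t => cls (rep 0 t, R0)) ∪ ((TT 1).image (fun t => cls (rep 1 t, R0)) ∪
      (TT 2).image (fun t => cls (rep 2 t, R0))) : Finset (Set X)) : Set (Set X)) :=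
    Nat.card_mono (Finset.finite_toSet _) hsub
  rw [Nat.card_coe_set_eq, Nat.card_coe_set_eq, Set.ncard_coe_finset] at h1
  rw [Nat.card_coe_set_eq]
  refine h1.trans ((Finset.card_union_le _ _).trans ?_)
  have h2 := Finset.card_union_le ((TT 1).image (fun t => cls (rep 1 t, R0))) ((TT 2).image (fun t => cls (rep 2 t, R0)))
  have h3 : ((TT 0).image (fun t => cls (rep 0 t, R0))).card ≤ 1190 := Finset.card_image_le.trans TT_card0.le
  have h4 : ((TT 1).image (fun t => cls (rep 1 t, R0))).card ≤ 32 := Finset.card_image_le.trans TT_card1.le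
  have h5 : ((TT 2).image (fun t => cls (rep 2 t, R0))).card ≤ 224 := Finset.card_image_le.trans TT_card2.le
  omega

/-! lower bound -/

theorem rd_ok0 : (all16 fun a => all16 fun p => imp (nz p) (Nat.beq (tl rdT (tl tb0 a p) p) a)) = true := by
  decide +kernel
theorem ld_ok0 : (all16 fun a => all16 fun b => imp (nz a) (Nat.beq (tl ldT a (tl tb0 a b)) b)) = true := by
  decide +kernel

theorem rd_ok (a p : V) (hp : p ≠ 0) : enc a = tl rdT (enc (mu 0 a p)) (enc p) := by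
  rw [enc_mu]
  exact (Nat.eq_of_beq_eq_true (imp_spec (all16_spec (all16_spec rd_ok0 (enc a) (enc_lt a)) (enc p) (enc_lt p))
    (by rw [nz_iff, Ne, enc_eq_zero]; exact hp))).symm

theorem ld_ok (a b : V) (ha : a ≠ 0) : enc b = tl ldT (enc a) (enc (mu 0 a b)) := by
  rw [enc_mu]
  exact (Nat.eq_of_beq_eq_true (imp_spec (all16_spec (all16_spec ld_ok0 (enc a) (enc_lt a)) (enc b) (enc_lt b))
    (by rw [nz_iff, Ne, enc_eq_zero]; exact ha))).symm

def kA1 (_a0 p q : ℕ) : ℕ := tl rdT q p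
def kP1 (a0 _p q : ℕ) : ℕ := tl ldT a0 q
def kQ2 (a0 p q : ℕ) : ℕ := tl tb0 (kA1 a0 p q) (kP1 a0 p q)
def kA2 (a0 p q : ℕ) : ℕ := tl rdT (kQ2 a0 p q) p
def kP2 (a0 p q : ℕ) : ℕ := tl ldT a0 (kQ2 a0 p q)
def kQ3 (a0 p q : ℕ) : ℕ := tl tb0 (kA1 a0 p q) (kP2 a0 p q)
def kA3 (a0 p q : ℕ) : ℕ := tl rdT (kQ3 a0 p q) p
def kP3 (a0 p q : ℕ) : ℕ := tl ldT a0 (kQ3 a0 p q)

def kQ (a0 p q v : ℕ) : ℕ := ap (tl tb0 a0 p) q (kQ2 a0 p q) (kQ3 a0 p q) v

def pass (a0 p q : ℕ) : Bool :=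
  nz a0 && nz p && nz q &&
  Nat.beq (kQ a0 p q (tl tb0 2 8)) (tl tb0 (kA1 a0 p q) (kP3 a0 p q)) &&
  Nat.beq (kQ a0 p q (tl tb0 4 2)) (tl tb0 (kA2 a0 p q) (kP1 a0 p q)) &&
  Nat.beq (kQ a0 p q (tl tb0 4 4)) (tl tb0 (kA2 a0 p q) (kP2 a0 p q)) &&
  Nat.beq (kQ a0 p q (tl tb0 4 8)) (tl tb0 (kA2 a0 p q) (kP3 a0 p q)) &&
  Nat.beq (kQ a0 p q (tl tb0 8 2)) (tl tb0 (kA3 a0 p q) (kP1 a0 p q)) &&
  Nat.beq (kQ a0 p q (tl tb0 8 4)) (tl tb0 (kA3 a0 p q) (kP2 a0 p q)) &&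
  Nat.beq (kQ a0 p q (tl tb0 8 8)) (tl tb0 (kA3 a0 p q) (kP3 a0 p q))

theorem cntPass : cnt3 pass = 18 := by decide +kernel

def keys : Finset (ℕ × ℕ × ℕ) := box3.filter (fun t => pass t.1 t.2.1 t.2.2 = true)

theorem keys_card : keys.card = 18 := by unfold keys; rw [card3 pass]; exact cntPass

theorem mu0_l (y : V) : mu 0 (E 0) y = y := by revert y; decide +kernel
theorem mu0_r (y : V) : mu 0 y (E 0) = y := by revert y; decide +kernel
theorem mu0_11 : mu 0 (E 1) (E 1) = E 2 := by decide +kernel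
theorem mu0_12 : mu 0 (E 1) (E 2) = E 3 := by decide +kernel

/-- an autotopism is determined by its key, and the key passes -/
theorem aut_key (A P Q : V ≃+ V) (h : ∀ x y, Q (mu 0 x y) = mu 0 (A x) (P y)) :
    (enc (A (E 0)), enc (P (E 0)), enc (Q (E 1))) ∈ keys ∧
    enc (A (E 1)) = kA1 (enc (A (E 0))) (enc (P (E 0))) (enc (Q (E 1))) ∧
    enc (A (E 2)) = kA2 (enc (A (E 0))) (enc (P (E 0))) (enc (Q (E 1))) ∧
    enc (A (E 3)) = kA3 (enc (A (E 0))) (enc (P (E 0))) (enc (Q (E 1))) ∧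
    enc (P (E 1)) = kP1 (enc (A (E 0))) (enc (P (E 0))) (enc (Q (E 1))) ∧
    enc (P (E 2)) = kP2 (enc (A (E 0))) (enc (P (E 0))) (enc (Q (E 1))) ∧
    enc (P (E 3)) = kP3 (enc (A (E 0))) (enc (P (E 0))) (enc (Q (E 1))) := by
  have e0 : E 0 ≠ 0 := by decide +kernel
  have e1 : E 1 ≠ 0 := by decide +kernel
  have A0 : A (E 0) ≠ 0 := by rw [Ne, map_eq_zero_iff A A.injective]; exact e0
  have P0 : P (E 0) ≠ 0 := by rw [Ne, map_eq_zero_iff P P.injective]; exact e0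
  have Q1 : Q (E 1) ≠ 0 := by rw [Ne, map_eq_zero_iff Q Q.injective]; exact e1
  have hQA : ∀ x, mu 0 (A x) (P (E 0)) = Q x := by intro x; rw [← h, mu0_r]
  have hQP : ∀ x, mu 0 (A (E 0)) (P x) = Q x := by intro x; rw [← h, mu0_l]
  have cA : ∀ x, enc (A x) = tl rdT (enc (Q x)) (enc (P (E 0))) := by
    intro x
    have := rd_ok (A x) (P (E 0)) P0
    rwa [hQA] at this
  have cP : ∀ x, enc (P x) = tl ldT (enc (A (E 0))) (enc (Q x)) := by
    intro x
    have := ld_ok (A (E 0)) (P x) A0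
    rwa [hQP] at this
  have q0 : enc (Q (E 0)) = tl tb0 (enc (A (E 0))) (enc (P (E 0))) := by rw [← hQA, enc_mu]; rfl
  have a1 : enc (A (E 1)) = kA1 (enc (A (E 0))) (enc (P (E 0))) (enc (Q (E 1))) := cA (E 1)
  have p1 : enc (P (E 1)) = kP1 (enc (A (E 0))) (enc (P (E 0))) (enc (Q (E 1))) := cP (E 1)
  have q2 : enc (Q (E 2)) = kQ2 (enc (A (E 0))) (enc (P (E 0))) (enc (Q (E 1))) := by
    rw [← mu0_11, h, enc_mu]
    unfold kQ2
    rw [← a1, ← p1]; rfl
  have a2 : enc (A (E 2)) = kA2 (enc (A (E 0))) (enc (P (E 0))) (enc (Q (E 1))) := by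
    unfold kA2; rw [← q2]; exact cA _
  have p2 : enc (P (E 2)) = kP2 (enc (A (E 0))) (enc (P (E 0))) (enc (Q (E 1))) := by
    unfold kP2; rw [← q2]; exact cP _
  have q3 : enc (Q (E 3)) = kQ3 (enc (A (E 0))) (enc (P (E 0))) (enc (Q (E 1))) := by
    rw [← mu0_12, h, enc_mu]
    unfold kQ3
    rw [← a1, ← p2]; rfl
  have a3 : enc (A (E 3)) = kA3 (enc (A (E 0))) (enc (P (E 0))) (enc (Q (E 1))) := by
    unfold kA3; rw [← q3]; exact cA _
  have p3 : enc (P (E 3)) = kP3 (enc (A (E 0))) (enc (P (E 0))) (enc (Q (E 1))) := by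
    unfold kP3; rw [← q3]; exact cP _
  refine ⟨?_, a1, a2, a3, p1, p2, p3⟩
  have hQv : ∀ v, kQ (enc (A (E 0))) (enc (P (E 0))) (enc (Q (E 1))) (enc v) = enc (Q v) := by
    intro v
    unfold kQ
    rw [enc_add_map Q (fun x y => map_add Q x y) v, q0, q2, q3]
  have chk : ∀ x y : V, Nat.beq (kQ (enc (A (E 0))) (enc (P (E 0))) (enc (Q (E 1))) (tl tb0 (enc x) (enc y)))
      (tl tb0 (enc (A x)) (enc (P y))) = true := by
    intro x y
    have : tl tb0 (enc x) (enc y) = enc (mu 0 x y) := (enc_mu 0 x y).symm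
    rw [this, hQv, h, enc_mu]
    exact Nat.beq_refl _
  unfold keys box3
  rw [Finset.mem_filter, Finset.mem_product, Finset.mem_product]
  simp only [Finset.mem_range]
  refine ⟨⟨enc_lt _, enc_lt _, enc_lt _⟩, ?_⟩
  unfold pass
  simp only [Bool.and_eq_true]
  rw [← a1, ← a2, ← a3, ← p1, ← p2, ← p3]
  refine ⟨⟨⟨⟨⟨⟨⟨⟨⟨?_, ?_⟩, ?_⟩, ?_⟩, ?_⟩, ?_⟩, ?_⟩, ?_⟩, ?_⟩, ?_⟩
  · rw [nz_iff, Ne, enc_eq_zero]; exact A0
  · rw [nz_iff, Ne, enc_eq_zero]; exact P0
  · rw [nz_iff, Ne, enc_eq_zero]; exact Q1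
  · have := chk (E 1) (E 3); rwa [enc_E1, enc_E3] at this
  · have := chk (E 2) (E 1); rwa [enc_E1, enc_E2] at this
  · have := chk (E 2) (E 2); rwa [enc_E2] at this
  · have := chk (E 2) (E 3); rwa [enc_E2, enc_E3] at this
  · have := chk (E 3) (E 1); rwa [enc_E1, enc_E3] at this
  · have := chk (E 3) (E 2); rwa [enc_E2, enc_E3] at this
  · have := chk (E 3) (E 3); rwa [enc_E3] at this

theorem fiber_bound (t : T4) (ht : t ∈ GLs) (F : Finset T4) (hF : ∀ t' ∈ F, t' ∈ GLs ∧ Eqv (rep 0 t, R0) (rep 0 t', R0)) :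
    F.card ≤ 18 := by
  classical
  have hex : ∀ t' ∈ F, ∃ A P Q : V ≃+ V, (∀ x y, Q (mu 0 x y) = mu 0 (A x) (P y)) ∧ (∀ x, M4 t' (P x) = A (M4 t x)) := by
    intro t' ht'
    obtain ⟨hG, hE⟩ := hF t' ht'
    obtain ⟨P, Q, hPQ⟩ := iso_of_eqv (rep_bil 0 (by norm_num) t ht) (rep_bil 0 (by norm_num) t' hG) hE
    refine ⟨(Me t ht).symm.trans (P.trans (Me t' hG)), P, Q, ?_, ?_⟩
    · intro x y
      have h1 := hPQ ((Me t ht).symm x) y
      unfold rep at h1
      rw [← Me_apply t ht, (Me t ht).apply_symm_apply, ← Me_apply t' hG] at h1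
      rw [h1]; rfl
    · intro x
      simp only [AddEquiv.trans_apply]
      rw [← Me_apply t ht, (Me t ht).symm_apply_apply]; rfl
  choose! A P Q h1 h2 using hex
  rw [← keys_card]
  apply Finset.card_le_card_of_injOn (fun t' => (enc (A t' (E 0)), enc (P t' (E 0)), enc (Q t' (E 1))))
  · intro t' ht'
    exact (aut_key (A t') (P t') (Q t') (h1 t' ht')).1
  · intro t' ht' t'' ht'' heq
    obtain ⟨-, a1, a2, a3, p1, p2, p3⟩ := aut_key (A t') (P t') (Q t') (h1 t' ht')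
    obtain ⟨-, b1, b2, b3, r1, r2, r3⟩ := aut_key (A t'') (P t'') (Q t'') (h1 t'' ht'')
    simp only [Prod.mk.injEq] at heq
    obtain ⟨k0, k1, k2⟩ := heq
    rw [k0, k1, k2] at a1 a2 a3 p1 p2 p3
    have eA : ∀ x, A t' x = A t'' x := by
      intro x
      apply enc_inj
      rw [enc_add_map (A t') (fun x y => map_add _ x y), enc_add_map (A t'') (fun x y => map_add _ x y), k0,
        a1, a2, a3, b1, b2, b3]
    have eP : ∀ x, P t' x = P t'' x := by
      intro x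
      apply enc_inj
      rw [enc_add_map (P t') (fun x y => map_add _ x y), enc_add_map (P t'') (fun x y => map_add _ x y), k1,
        p1, p2, p3, r1, r2, r3]
    apply M4_inj (hF t' ht').1 (hF t'' ht'').1
    intro x
    have e1 := h2 t' ht' ((P t').symm x)
    have e2 := h2 t'' ht'' ((P t'').symm x)
    rw [AddEquiv.apply_symm_apply] at e1 e2
    have : (P t').symm x = (P t'').symm x := by
      rw [AddEquiv.symm_apply_eq, eP, AddEquiv.apply_symm_apply]
    rw [e1, e2, this, eA]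

theorem lower_bound : 1120 ≤ Nat.card classes := by
  classical
  have h1 := Finset.card_le_mul_card_image (f := fun t => cls (rep 0 t, R0)) GLs 18 (by
    intro S hS
    rw [Finset.mem_image] at hS
    obtain ⟨t, ht, rfl⟩ := hS
    apply fiber_bound t ht
    intro t' ht'
    rw [Finset.mem_filter] at ht'
    refine ⟨ht'.1, ?_⟩
    exact eqv_of_cls (rep_bil 0 (by norm_num) t ht).valid (rep_bil 0 (by norm_num) t' ht'.1).valid ht'.2.symm)
  rw [GLs_card] at h1
  have h2 : ((GLs.image (fun t => cls (rep 0 t, R0)) : Finset (Set X)) : Set (Set X)) ⊆ classes := by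
    intro S hS
    rw [Finset.mem_coe, Finset.mem_image] at hS
    obtain ⟨t, ht, rfl⟩ := hS
    exact ⟨_, (rep_bil 0 (by norm_num) t ht).valid, rfl⟩
  have h3 := Nat.card_mono (Set.toFinite classes) h2
  rw [Nat.card_coe_set_eq, Set.ncard_coe_finset] at h3
  omega

theorem not_pow (k : ℕ) : Nat.card classes ≠ 2 ^ k := by
  intro h
  have h1 := lower_bound
  have h2 := upper_bound
  rw [h] at h1 h2
  by_cases hk : k ≤ 10
  · have : 2 ^ k ≤ 2 ^ 10 := Nat.pow_le_pow_right (by norm_num) hk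
    omega
  · have : 2 ^ 11 ≤ 2 ^ k := Nat.pow_le_pow_right (by norm_num) (by omega)
    omega

end H197N24
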