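import Pool.Agent.H197R2.N24A
import Pool.Agent.H197R2.N24Data

/-!
Codes for vectors and linear maps.
-/

namespace H197N24

def dec (n : ℕ) : V := fun i => if n.testBit i then 1 else 0
def enc (v : V) : ℕ := (v 0).val + 2*(v 1).val + 4*(v 2).val + 8*(v 3).val

theorem enc_lt (v : V) : enc v < 16 := by
  revert v; decide +kernel

theorem dec_enc (v : V) : dec (enc v) = v := by
  revert v; decide +kernel

theorem enc_dec : ∀ n < 16, enc (dec n) = n := by decide +kernel

theorem enc_add (v w : V) : enc (v + w) = enc v ^^^ enc w := by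
  revert v w; decide +kernel

theorem enc_zero : enc 0 = 0 := by decide +kernel

theorem enc_inj {v w : V} (h : enc v = enc w) : v = w := by
  rw [← dec_enc v, h, dec_enc]

theorem enc_eq_zero {v : V} : enc v = 0 ↔ v = 0 := by
  constructor
  · intro h; apply enc_inj; rw [h, enc_zero]
  · rintro rfl; exact enc_zero

theorem dec_xor (a b : ℕ) (ha : a < 16) (hb : b < 16) : dec (a ^^^ b) = dec a + dec b := by
  apply enc_inj
  rw [enc_add, enc_dec a ha, enc_dec b hb, enc_dec]
  exact Nat.xor_lt_two_pow (n := 4) ha hb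

theorem enc_E (i : Fin 4) : enc (E i) = 2 ^ (i : ℕ) := by revert i; decide +kernel

/-- application of a linear map given by the codes of the images of the basis -/
def ap (a b c d v : ℕ) : ℕ :=
  Nat.xor (Nat.xor (Nat.mul (Nat.mod v 2) a) (Nat.mul (Nat.mod (Nat.div v 2) 2) b))
    (Nat.xor (Nat.mul (Nat.mod (Nat.div v 4) 2) c) (Nat.mul (Nat.mod (Nat.div v 8) 2) d))

def mk4 (x y z w : V) : V →+ V where
  toFun v := v 0 • x + v 1 • y + v 2 • z + v 3 • w
  map_zero' := by simp
  map_add' u v := by simp only [Pi.add_apply, add_smul]; abel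

theorem mk4_apply (x y z w v : V) : mk4 x y z w v = v 0 • x + v 1 • y + v 2 • z + v 3 • w := rfl

theorem enc_smul (a : ZMod 2) (v : V) : enc (a • v) = a.val * enc v := by
  rcases zmod2_cases a with rfl | rfl
  · simp [enc_zero]
  · rw [one_smul]; change enc v = 1 * enc v; rw [one_mul]

theorem enc_mod2 (v : V) : enc v % 2 = (v 0).val := by revert v; decide +kernel
theorem enc_div2 (v : V) : enc v / 2 % 2 = (v 1).val := by revert v; decide +kernel
theorem enc_div4 (v : V) : enc v / 4 % 2 = (v 2).val := by revert v; decide +kernel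
theorem enc_div8 (v : V) : enc v / 8 % 2 = (v 3).val := by revert v; decide +kernel

theorem enc_mk4 (x y z w v : V) : enc (mk4 x y z w v) = ap (enc x) (enc y) (enc z) (enc w) (enc v) := by
  rw [mk4_apply, enc_add, enc_add, enc_add, enc_smul, enc_smul, enc_smul, enc_smul]
  unfold ap
  change _ = (((enc v % 2) * enc x) ^^^ ((enc v / 2 % 2) * enc y)) ^^^
    (((enc v / 4 % 2) * enc z) ^^^ ((enc v / 8 % 2) * enc w))
  rw [enc_mod2, enc_div2, enc_div4, enc_div8, Nat.xor_assoc, Nat.xor_assoc]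

theorem add_eq_mk4 (f : V → V) (hf : ∀ x y, f (x + y) = f x + f y) (v : V) :
    f v = mk4 (f (E 0)) (f (E 1)) (f (E 2)) (f (E 3)) v := by
  have f0 : f 0 = 0 := by
    have := hf 0 0
    rw [add_zero] at this; grind
  have fs : ∀ (a : ZMod 2) (y : V), f (a • y) = a • f y := by
    intro a y
    rcases zmod2_cases a with rfl | rfl
    · simp [f0]
    · simp
  rw [mk4_apply]
  conv_lhs => rw [V_expand v]
  rw [hf, hf, hf, fs, fs, fs, fs]

theorem enc_add_map (f : V → V) (hf : ∀ x y, f (x + y) = f x + f y) (v : V) :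
    enc (f v) = ap (enc (f (E 0))) (enc (f (E 1))) (enc (f (E 2))) (enc (f (E 3))) (enc v) := by
  rw [add_eq_mk4 f hf v, enc_mk4]

def nz (n : ℕ) : Bool := Nat.blt 0 n

theorem nz_iff (n : ℕ) : nz n = true ↔ n ≠ 0 := by
  unfold nz
  rw [Nat.blt_eq]; omega

/-- invertibility of the matrix with columns a,b,c,d -/
def inv4 (a b c d : ℕ) : Bool :=
  nz a && nz b && nz (Nat.xor a b) && nz c && nz (Nat.xor a c) && nz (Nat.xor b c) &&
  nz (Nat.xor (Nat.xor a b) c) && nz d && nz (Nat.xor a d) && nz (Nat.xor b d) && nz (Nat.xor (Nat.xor a b) d) &&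
  nz (Nat.xor c d) && nz (Nat.xor (Nat.xor a c) d) && nz (Nat.xor (Nat.xor b c) d) &&
  nz (Nat.xor (Nat.xor (Nat.xor a b) c) d)

theorem inv4_iff (a b c d : ℕ) : inv4 a b c d = true ↔ ∀ v < 16, v ≠ 0 → ap a b c d v ≠ 0 := by
  constructor
  · intro h v hv hv0
    unfold inv4 at h
    simp only [Bool.and_eq_true, nz_iff] at h
    obtain ⟨⟨⟨⟨⟨⟨⟨⟨⟨⟨⟨⟨⟨⟨h1, h2⟩, h3⟩, h4⟩, h5⟩, h6⟩, h7⟩, h8⟩, h9⟩, h10⟩, h11⟩, h12⟩, h13⟩, h14⟩, h15⟩ := h
    have key : ∀ x : ℕ, x = ap a b c d v → x ≠ 0 → ap a b c d v ≠ 0 := fun x hx h => hx ▸ h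
    unfold ap
    interval_cases v
    · exact absurd rfl hv0
    all_goals
      simp only [show ∀ a b, Nat.xor a b = a ^^^ b from fun _ _ => rfl,
        show ∀ a b, Nat.mul a b = a * b from fun _ _ => rfl,
        show ∀ a b, Nat.mod a b = a % b from fun _ _ => rfl,
        show ∀ a b, Nat.div a b = a / b from fun _ _ => rfl] at *
      norm_num [Nat.xor_assoc] at *
      assumption
  · intro h
    unfold inv4
    simp only [Bool.and_eq_true, nz_iff]
    have e : ∀ v, v < 16 → v ≠ 0 → ap a b c d v ≠ 0 := h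
    unfold ap at e
    simp only [show ∀ a b, Nat.xor a b = a ^^^ b from fun _ _ => rfl,
        show ∀ a b, Nat.mul a b = a * b from fun _ _ => rfl,
        show ∀ a b, Nat.mod a b = a % b from fun _ _ => rfl,
        show ∀ a b, Nat.div a b = a / b from fun _ _ => rfl] at *
    refine ⟨⟨⟨⟨⟨⟨⟨⟨⟨⟨⟨⟨⟨⟨?_, ?_⟩, ?_⟩, ?_⟩, ?_⟩, ?_⟩, ?_⟩, ?_⟩, ?_⟩, ?_⟩, ?_⟩, ?_⟩, ?_⟩, ?_⟩, ?_⟩
    · simpa using e 1 (by norm_num) (by norm_num)
    · simpa using e 2 (by norm_num) (by norm_num)
    · simpa using e 3 (by norm_num) (by norm_num)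
    · simpa using e 4 (by norm_num) (by norm_num)
    · simpa using e 5 (by norm_num) (by norm_num)
    · simpa using e 6 (by norm_num) (by norm_num)
    · simpa using e 7 (by norm_num) (by norm_num)
    · simpa using e 8 (by norm_num) (by norm_num)
    · simpa using e 9 (by norm_num) (by norm_num)
    · simpa using e 10 (by norm_num) (by norm_num)
    · simpa using e 11 (by norm_num) (by norm_num)
    · simpa [Nat.xor_assoc] using e 12 (by norm_num) (by norm_num)
    · simpa [Nat.xor_assoc] using e 13 (by norm_num) (by norm_num)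
    · simpa [Nat.xor_assoc] using e 14 (by norm_num) (by norm_num)
    · simpa [Nat.xor_assoc] using e 15 (by norm_num) (by norm_num)

/-- injectivity from codes -/
theorem mk4_inj {x y z w : V} (h : inv4 (enc x) (enc y) (enc z) (enc w) = true) :
    Function.Injective (mk4 x y z w) := by
  rw [inv4_iff] at h
  intro u v huv
  by_contra hne
  have h1 : mk4 x y z w (u + v) = 0 := by rw [map_add, huv]; exact add_self_V _
  have h2 : u + v ≠ 0 := by intro hh; apply hne; grind
  apply h (enc (u + v)) (enc_lt _) (by rw [Ne, enc_eq_zero]; exact h2)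
  rw [← enc_mk4, h1, enc_zero]

theorem inv4_of_inj {f : V → V} (hf : ∀ x y, f (x + y) = f x + f y) (hinj : Function.Injective f) :
    inv4 (enc (f (E 0))) (enc (f (E 1))) (enc (f (E 2))) (enc (f (E 3))) = true := by
  rw [inv4_iff]
  intro v hv hv0 h1
  have f0 : f 0 = 0 := by
    have := hf 0 0
    rw [add_zero] at this; grind
  have : enc (f (dec v)) = 0 := by
    rw [enc_add_map f hf, enc_dec v hv]; exact h1
  rw [enc_eq_zero] at this
  have h2 := hinj (this.trans f0.symm)
  apply hv0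
  rw [← enc_dec v hv, h2, enc_zero]

noncomputable def eq4 (x y z w : V) (h : inv4 (enc x) (enc y) (enc z) (enc w) = true) : V ≃+ V :=
  AddEquiv.ofBijective (mk4 x y z w) ((Finite.injective_iff_bijective).mp (mk4_inj h))

theorem eq4_apply (x y z w : V) (h : inv4 (enc x) (enc y) (enc z) (enc w) = true) (v : V) :
    eq4 x y z w h v = mk4 x y z w v := rfl

theorem mk4_E0 (x y z w : V) : mk4 x y z w (E 0) = x := by
  rw [mk4_apply]; simp [E]
theorem mk4_E1 (x y z w : V) : mk4 x y z w (E 1) = y := by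
  rw [mk4_apply]; simp [E]
theorem mk4_E2 (x y z w : V) : mk4 x y z w (E 2) = z := by
  rw [mk4_apply]; simp [E]
theorem mk4_E3 (x y z w : V) : mk4 x y z w (E 3) = w := by
  rw [mk4_apply]; simp [E]

/-- two biadditive maps agreeing on a basis are equal -/
theorem biadd_ext {F G : V → V → V} (hFl : ∀ x y z, F (x + y) z = F x z + F y z)
    (hFr : ∀ x y z, F x (y + z) = F x y + F x z) (hGl : ∀ x y z, G (x + y) z = G x z + G y z)
    (hGr : ∀ x y z, G x (y + z) = G x y + G x z) (h : ∀ i j, F (E i) (E j) = G (E i) (E j)) (x y : V) :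
    F x y = G x y := by
  have h1 : ∀ i y, F (E i) y = G (E i) y := by
    intro i y
    rw [add_eq_mk4 (F (E i)) (hFr _) y, add_eq_mk4 (G (E i)) (hGr _) y, h, h, h, h]
  rw [add_eq_mk4 (fun x => F x y) (fun a b => hFl a b y) x, add_eq_mk4 (fun x => G x y) (fun a b => hGl a b y) x,
    h1, h1, h1, h1]

/-- table lookup -/
def tl (T a b : ℕ) : ℕ := Nat.land (Nat.shiftRight T (Nat.mul 4 (Nat.add (Nat.mul 16 a) b))) 15

theorem tl_lt (T a b : ℕ) : tl T a b < 16 := by
  unfold tl
  have : Nat.land (Nat.shiftRight T (Nat.mul 4 (Nat.add (Nat.mul 16 a) b))) 15 ≤ 15 := Nat.and_le_right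
  omega

def tbl (i : ℕ) : ℕ := match i with
  | 0 => tb0
  | 1 => tb1
  | _ => tb2

/-- the three multiplications -/
def mu (i : ℕ) (x y : V) : V := dec (tl (tbl i) (enc x) (enc y))

theorem enc_mu (i : ℕ) (x y : V) : enc (mu i x y) = tl (tbl i) (enc x) (enc y) := by
  unfold mu
  rw [enc_dec _ (tl_lt _ _ _)]

theorem tb_addl : ∀ i < 3, ∀ a < 16, ∀ b < 16, ∀ c < 16,
    Nat.beq (tl (tbl i) (Nat.xor a b) c) (Nat.xor (tl (tbl i) a c) (tl (tbl i) b c)) = true := by
  decide +kernel

theorem tb_addr : ∀ i < 3, ∀ a < 16, ∀ b < 16, ∀ c < 16,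
    Nat.beq (tl (tbl i) c (Nat.xor a b)) (Nat.xor (tl (tbl i) c a) (tl (tbl i) c b)) = true := by
  decide +kernel

theorem tb_nd : ∀ i < 3, ∀ a < 16, ∀ b < 16,
    tl (tbl i) a b = 0 → a = 0 ∨ b = 0 := by
  decide +kernel

theorem mu_bil (i : ℕ) (hi : i < 3) : Bil (mu i) where
  addl x y z := by
    apply enc_inj
    rw [enc_add, enc_mu, enc_mu, enc_mu, enc_add]
    exact Nat.eq_of_beq_eq_true (tb_addl i hi _ (enc_lt x) _ (enc_lt y) _ (enc_lt z))
  addr x y z := by
    apply enc_inj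
    rw [enc_add, enc_mu, enc_mu, enc_mu, enc_add]
    exact Nat.eq_of_beq_eq_true (tb_addr i hi _ (enc_lt y) _ (enc_lt z) _ (enc_lt x))
  nd x y h := by
    have := tb_nd i hi _ (enc_lt x) _ (enc_lt y) (by rw [← enc_mu, h, enc_zero])
    rw [enc_eq_zero, enc_eq_zero] at this
    exact this

end H197N24
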