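import Pool.Agent.H197R2.N24K

/-!
Classification of normalised semifields of order 16 by a kernel search.
-/

namespace H197N24

def P7 (c a b d a' b' d' x y : ℕ) : ℕ :=
  ap (ap 1 2 4 8 y) (ap 2 4 8 c y) (ap 4 a b d y) (ap 8 a' b' d' y) x

theorem ap_eq (a b c d v : ℕ) : ap a b c d v =
  (((v % 2) * a) ^^^ ((v / 2 % 2) * b)) ^^^ (((v / 4 % 2) * c) ^^^ ((v / 8 % 2) * d)) := rfl

def all16 (f : ℕ → Bool) : Bool :=
  f 0 && f 1 && f 2 && f 3 && f 4 && f 5 && f 6 && f 7 && f 8 && f 9 && f 10 && f 11 && f 12 && f 13 && f 14 && f 15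

theorem all16_spec {f : ℕ → Bool} (h : all16 f = true) (n : ℕ) (hn : n < 16) : f n = true := by
  unfold all16 at h
  simp only [Bool.and_eq_true] at h
  obtain ⟨⟨⟨⟨⟨⟨⟨⟨⟨⟨⟨⟨⟨⟨⟨h0, h1⟩, h2⟩, h3⟩, h4⟩, h5⟩, h6⟩, h7⟩, h8⟩, h9⟩, h10⟩, h11⟩, h12⟩, h13⟩, h14⟩, h15⟩ := h
  interval_cases n <;> assumption

def imp (p q : Bool) : Bool := bif p then q else true

theorem imp_spec {p q : Bool} (h : imp p q = true) (hp : p = true) : q = true := by
  unfold imp at h; rw [hp] at h; exact h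

def chk (xs ys : List ℕ) (f : ℕ → ℕ → ℕ) : Bool := xs.all fun x => ys.all fun y => nz (f x y)

theorem chk_of {xs ys : List ℕ} {f : ℕ → ℕ → ℕ} (h : ∀ x ∈ xs, ∀ y ∈ ys, f x y ≠ 0) : chk xs ys f = true := by
  unfold chk
  rw [List.all_eq_true]
  intro x hx
  rw [List.all_eq_true]
  intro y hy
  rw [nz_iff]
  exact h x hx y hy

def l2 : List ℕ := [2, 3]
def l4 : List ℕ := [4, 5, 6, 7]
def l8 : List ℕ := [8, 9, 10, 11, 12, 13, 14, 15]

def okC (c : ℕ) : Bool := chk l2 l8 (P7 c 0 0 0 0 0 0)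
def okA (c a : ℕ) : Bool := chk l4 l2 (P7 c a 0 0 0 0 0)
def okB (c a b : ℕ) : Bool := chk l4 l4 (P7 c a b 0 0 0 0)
def okD (c a b d : ℕ) : Bool := chk l4 l8 (P7 c a b d 0 0 0)
def okA' (c a b d a' : ℕ) : Bool := chk l8 l2 (P7 c a b d a' 0 0)
def okB' (c a b d a' b' : ℕ) : Bool := chk l8 l4 (P7 c a b d a' b' 0)
def okD' (c a b d a' b' d' : ℕ) : Bool := chk l8 l8 (P7 c a b d a' b' d')

theorem red_C (c a b d a' b' d' : ℕ) : ∀ x ∈ l2, ∀ y ∈ l8, P7 c 0 0 0 0 0 0 x y = P7 c a b d a' b' d' x y := by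
  unfold l2 l8
  intro x hx y hy
  fin_cases hx <;> fin_cases hy <;>
    simp [P7, ap_eq]

theorem red_A (c a b d a' b' d' : ℕ) : ∀ x ∈ l4, ∀ y ∈ l2, P7 c a 0 0 0 0 0 x y = P7 c a b d a' b' d' x y := by
  unfold l4 l2
  intro x hx y hy
  fin_cases hx <;> fin_cases hy <;>
    simp [P7, ap_eq]

theorem red_B (c a b d a' b' d' : ℕ) : ∀ x ∈ l4, ∀ y ∈ l4, P7 c a b 0 0 0 0 x y = P7 c a b d a' b' d' x y := by
  unfold l4
  intro x hx y hy
  fin_cases hx <;> fin_cases hy <;>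
    simp [P7, ap_eq]

theorem red_D (c a b d a' b' d' : ℕ) : ∀ x ∈ l4, ∀ y ∈ l8, P7 c a b d 0 0 0 x y = P7 c a b d a' b' d' x y := by
  unfold l4 l8
  intro x hx y hy
  fin_cases hx <;> fin_cases hy <;>
    simp [P7, ap_eq]

theorem red_A' (c a b d a' b' d' : ℕ) : ∀ x ∈ l8, ∀ y ∈ l2, P7 c a b d a' 0 0 x y = P7 c a b d a' b' d' x y := by
  unfold l8 l2
  intro x hx y hy
  fin_cases hx <;> fin_cases hy <;>
    simp [P7, ap_eq]

theorem red_B' (c a b d a' b' d' : ℕ) : ∀ x ∈ l8, ∀ y ∈ l4, P7 c a b d a' b' 0 x y = P7 c a b d a' b' d' x y := by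
  unfold l8 l4
  intro x hx y hy
  fin_cases hx <;> fin_cases hy <;>
    simp [P7, ap_eq]

def nib (n k : ℕ) : ℕ := Nat.land (Nat.shiftRight n (Nat.mul 4 k)) 15

theorem nib_lt (n k : ℕ) : nib n k < 16 := by
  unfold nib
  have : Nat.land (Nat.shiftRight n (Nat.mul 4 k)) 15 ≤ 15 := Nat.and_le_right
  omega

/-- the 4-nibble map -/
def apn (M v : ℕ) : ℕ := ap (nib M 0) (nib M 1) (nib M 2) (nib M 3) v

def invn (M : ℕ) : Bool := inv4 (nib M 0) (nib M 1) (nib M 2) (nib M 3)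

def verify (c a b d a' b' d' i A P Q : ℕ) : Bool :=
  Nat.blt i 3 && invn A && invn P && invn Q &&
  Nat.beq (apn Q 1) (tl (tbl i) (nib A 0) (nib P 0)) && Nat.beq (apn Q 2) (tl (tbl i) (nib A 0) (nib P 1)) &&
  Nat.beq (apn Q 4) (tl (tbl i) (nib A 0) (nib P 2)) && Nat.beq (apn Q 8) (tl (tbl i) (nib A 0) (nib P 3)) &&
  Nat.beq (apn Q 2) (tl (tbl i) (nib A 1) (nib P 0)) && Nat.beq (apn Q 4) (tl (tbl i) (nib A 1) (nib P 1)) &&
  Nat.beq (apn Q 8) (tl (tbl i) (nib A 1) (nib P 2)) && Nat.beq (apn Q c) (tl (tbl i) (nib A 1) (nib P 3)) &&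
  Nat.beq (apn Q 4) (tl (tbl i) (nib A 2) (nib P 0)) && Nat.beq (apn Q a) (tl (tbl i) (nib A 2) (nib P 1)) &&
  Nat.beq (apn Q b) (tl (tbl i) (nib A 2) (nib P 2)) && Nat.beq (apn Q d) (tl (tbl i) (nib A 2) (nib P 3)) &&
  Nat.beq (apn Q 8) (tl (tbl i) (nib A 3) (nib P 0)) && Nat.beq (apn Q a') (tl (tbl i) (nib A 3) (nib P 1)) &&
  Nat.beq (apn Q b') (tl (tbl i) (nib A 3) (nib P 2)) && Nat.beq (apn Q d') (tl (tbl i) (nib A 3) (nib P 3))

def key7 (c a b d a' b' d' : ℕ) : ℕ :=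
  c + 16 * (a + 16 * (b + 16 * (d + 16 * (a' + 16 * (b' + 16 * d')))))

def leaf (c a b d a' b' d' : ℕ) : Bool :=
  certs.any fun t => Nat.beq t.1 (key7 c a b d a' b' d') &&
    verify c a b d a' b' d' t.2.1 t.2.2.1 t.2.2.2.1 t.2.2.2.2

def search : Bool :=
  all16 fun c => imp (okC c) <| all16 fun a => imp (okA c a) <| all16 fun b => imp (okB c a b) <|
  all16 fun d => imp (okD c a b d) <| all16 fun a' => imp (okA' c a b d a') <|
  all16 fun b' => imp (okB' c a b d a' b') <| all16 fun d' => imp (okD' c a b d a' b' d') <|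
  leaf c a b d a' b' d'

theorem search_true : search = true := by decide +kernel

end H197N24
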