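import Pool.Agent.H197R2.N24L

/-!
Semantic consequences of the kernel search.
-/

namespace H197N24

def mkn (M : ℕ) : V →+ V := mk4 (dec (nib M 0)) (dec (nib M 1)) (dec (nib M 2)) (dec (nib M 3))

theorem enc_mkn (M : ℕ) (v : V) : enc (mkn M v) = apn M (enc v) := by
  unfold mkn apn
  rw [enc_mk4, enc_dec _ (nib_lt _ _), enc_dec _ (nib_lt _ _), enc_dec _ (nib_lt _ _), enc_dec _ (nib_lt _ _)]

noncomputable def eqn (M : ℕ) (h : invn M = true) : V ≃+ V :=
  eq4 (dec (nib M 0)) (dec (nib M 1)) (dec (nib M 2)) (dec (nib M 3))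
    (by rw [enc_dec _ (nib_lt _ _), enc_dec _ (nib_lt _ _), enc_dec _ (nib_lt _ _), enc_dec _ (nib_lt _ _)]; exact h)

theorem eqn_apply (M : ℕ) (h : invn M = true) (v : V) : eqn M h v = mkn M v := rfl

theorem enc_eqn (M : ℕ) (h : invn M = true) (v : V) : enc (eqn M h v) = apn M (enc v) := enc_mkn M v

structure Norm (f : V → V → V) : Prop where
  bil : Bil f
  l0 : ∀ y, f (E 0) y = y
  r0 : ∀ x, f x (E 0) = x
  h11 : f (E 1) (E 1) = E 2
  h12 : f (E 1) (E 2) = E 3

theorem enc_E0 : enc (E 0) = 1 := by decide +kernel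
theorem enc_E1 : enc (E 1) = 2 := by decide +kernel
theorem enc_E2 : enc (E 2) = 4 := by decide +kernel
theorem enc_E3 : enc (E 3) = 8 := by decide +kernel

theorem leaf_spec {f : V → V → V} (h : Norm f)
    (hl : leaf (enc (f (E 1) (E 3))) (enc (f (E 2) (E 1))) (enc (f (E 2) (E 2))) (enc (f (E 2) (E 3)))
      (enc (f (E 3) (E 1))) (enc (f (E 3) (E 2))) (enc (f (E 3) (E 3))) = true) :
    ∃ i < 3, ∃ A P Q : V ≃+ V, ∀ x y, Q (f x y) = mu i (A x) (P y) := by
  unfold leaf at hl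
  rw [List.any_eq_true] at hl
  obtain ⟨⟨k, i, A, P, Q⟩, -, hv⟩ := hl
  rw [Bool.and_eq_true] at hv
  have hv := hv.2
  simp only at hv
  unfold verify at hv
  simp only [Bool.and_eq_true] at hv
  obtain ⟨⟨⟨⟨⟨⟨⟨⟨⟨⟨⟨⟨⟨⟨⟨⟨⟨⟨⟨hi, hA⟩, hP⟩, hQ⟩, h00⟩, h01⟩, h02⟩, h03⟩, h10⟩, h11⟩, h12⟩, h13⟩, h20⟩, h21⟩, h22⟩, h23⟩,
    h30⟩, h31⟩, h32⟩, h33⟩ := hv
  rw [Nat.blt_eq] at hi
  refine ⟨i, hi, eqn A hA, eqn P hP, eqn Q hQ, ?_⟩
  have hm := mu_bil i hi
  have hf := h.bil
  refine biadd_ext (F := fun x y => eqn Q hQ (f x y)) (G := fun x y => mu i (eqn A hA x) (eqn P hP y)) ?_ ?_ ?_ ?_ ?_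
  · intro x y z; simp only [hf.addl, map_add]
  · intro x y z; simp only [hf.addr, map_add]
  · intro x y z; simp only [map_add, hm.addl]
  · intro x y z; simp only [map_add, hm.addr]
  · intro j k
    apply enc_inj
    rw [enc_eqn, enc_mu]
    have cA : ∀ j : Fin 4, enc (eqn A hA (E j)) = nib A j := by
      intro j
      rw [eqn_apply, mkn]
      fin_cases j
      · change enc (mk4 _ _ _ _ (E 0)) = _; rw [mk4_E0, enc_dec _ (nib_lt _ _)]
      · change enc (mk4 _ _ _ _ (E 1)) = _; rw [mk4_E1, enc_dec _ (nib_lt _ _)]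
      · change enc (mk4 _ _ _ _ (E 2)) = _; rw [mk4_E2, enc_dec _ (nib_lt _ _)]
      · change enc (mk4 _ _ _ _ (E 3)) = _; rw [mk4_E3, enc_dec _ (nib_lt _ _)]
    have cP : ∀ j : Fin 4, enc (eqn P hP (E j)) = nib P j := by
      intro j
      rw [eqn_apply, mkn]
      fin_cases j
      · change enc (mk4 _ _ _ _ (E 0)) = _; rw [mk4_E0, enc_dec _ (nib_lt _ _)]
      · change enc (mk4 _ _ _ _ (E 1)) = _; rw [mk4_E1, enc_dec _ (nib_lt _ _)]
      · change enc (mk4 _ _ _ _ (E 2)) = _; rw [mk4_E2, enc_dec _ (nib_lt _ _)]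
      · change enc (mk4 _ _ _ _ (E 3)) = _; rw [mk4_E3, enc_dec _ (nib_lt _ _)]
    rw [cA, cP]
    fin_cases j <;> fin_cases k
    · change apn Q (enc (f (E 0) (E 0))) = _; rw [h.l0, enc_E0]; exact Nat.eq_of_beq_eq_true h00
    · change apn Q (enc (f (E 0) (E 1))) = _; rw [h.l0, enc_E1]; exact Nat.eq_of_beq_eq_true h01
    · change apn Q (enc (f (E 0) (E 2))) = _; rw [h.l0, enc_E2]; exact Nat.eq_of_beq_eq_true h02
    · change apn Q (enc (f (E 0) (E 3))) = _; rw [h.l0, enc_E3]; exact Nat.eq_of_beq_eq_true h03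
    · change apn Q (enc (f (E 1) (E 0))) = _; rw [h.r0, enc_E1]; exact Nat.eq_of_beq_eq_true h10
    · change apn Q (enc (f (E 1) (E 1))) = _; rw [h.h11, enc_E2]; exact Nat.eq_of_beq_eq_true h11
    · change apn Q (enc (f (E 1) (E 2))) = _; rw [h.h12, enc_E3]; exact Nat.eq_of_beq_eq_true h12
    · change apn Q (enc (f (E 1) (E 3))) = _; exact Nat.eq_of_beq_eq_true h13
    · change apn Q (enc (f (E 2) (E 0))) = _; rw [h.r0, enc_E2]; exact Nat.eq_of_beq_eq_true h20
    · change apn Q (enc (f (E 2) (E 1))) = _; exact Nat.eq_of_beq_eq_true h21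
    · change apn Q (enc (f (E 2) (E 2))) = _; exact Nat.eq_of_beq_eq_true h22
    · change apn Q (enc (f (E 2) (E 3))) = _; exact Nat.eq_of_beq_eq_true h23
    · change apn Q (enc (f (E 3) (E 0))) = _; rw [h.r0, enc_E3]; exact Nat.eq_of_beq_eq_true h30
    · change apn Q (enc (f (E 3) (E 1))) = _; exact Nat.eq_of_beq_eq_true h31
    · change apn Q (enc (f (E 3) (E 2))) = _; exact Nat.eq_of_beq_eq_true h32
    · change apn Q (enc (f (E 3) (E 3))) = _; exact Nat.eq_of_beq_eq_true h33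

theorem enc_prod {f : V → V → V} (h : Norm f) (x y : ℕ) (hx : x < 16) (hy : y < 16) :
    P7 (enc (f (E 1) (E 3))) (enc (f (E 2) (E 1))) (enc (f (E 2) (E 2))) (enc (f (E 2) (E 3)))
      (enc (f (E 3) (E 1))) (enc (f (E 3) (E 2))) (enc (f (E 3) (E 3))) x y = enc (f (dec x) (dec y)) := by
  unfold P7
  rw [enc_add_map (fun x => f x (dec y)) (fun a b => h.bil.addl a b _) (dec x)]
  rw [enc_add_map (f (E 0)) (h.bil.addr _) (dec y), enc_add_map (f (E 1)) (h.bil.addr _) (dec y),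
    enc_add_map (f (E 2)) (h.bil.addr _) (dec y), enc_add_map (f (E 3)) (h.bil.addr _) (dec y)]
  simp only [h.l0, h.r0, h.h11, h.h12, enc_E0, enc_E1, enc_E2, enc_E3, enc_dec x hx, enc_dec y hy]

theorem norm_class {f : V → V → V} (h : Norm f) :
    ∃ i < 3, ∃ A P Q : V ≃+ V, ∀ x y, Q (f x y) = mu i (A x) (P y) := by
  apply leaf_spec h
  have hne : ∀ x y : ℕ, x < 16 → y < 16 → x ≠ 0 → y ≠ 0 →
      P7 (enc (f (E 1) (E 3))) (enc (f (E 2) (E 1))) (enc (f (E 2) (E 2))) (enc (f (E 2) (E 3)))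
      (enc (f (E 3) (E 1))) (enc (f (E 3) (E 2))) (enc (f (E 3) (E 3))) x y ≠ 0 := by
    intro x y hx hy hx0 hy0
    rw [enc_prod h x y hx hy, Ne, enc_eq_zero]
    intro h0
    rcases h.bil.nd _ _ h0 with h1 | h1
    · apply hx0; rw [← enc_dec x hx, h1, enc_zero]
    · apply hy0; rw [← enc_dec y hy, h1, enc_zero]
  generalize hc : enc (f (E 1) (E 3)) = c at *
  generalize ha : enc (f (E 2) (E 1)) = a at *
  generalize hb : enc (f (E 2) (E 2)) = b at *
  generalize hd : enc (f (E 2) (E 3)) = d at *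
  generalize ha' : enc (f (E 3) (E 1)) = a' at *
  generalize hb' : enc (f (E 3) (E 2)) = b' at *
  generalize hd' : enc (f (E 3) (E 3)) = d' at *
  have lc : c < 16 := by rw [← hc]; exact enc_lt _
  have la : a < 16 := by rw [← ha]; exact enc_lt _
  have lb : b < 16 := by rw [← hb]; exact enc_lt _
  have ld : d < 16 := by rw [← hd]; exact enc_lt _
  have la' : a' < 16 := by rw [← ha']; exact enc_lt _
  have lb' : b' < 16 := by rw [← hb']; exact enc_lt _
  have ld' : d' < 16 := by rw [← hd']; exact enc_lt _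
  have m2 : ∀ x ∈ l2, x < 16 ∧ x ≠ 0 := by decide
  have m4 : ∀ x ∈ l4, x < 16 ∧ x ≠ 0 := by decide
  have m8 : ∀ x ∈ l8, x < 16 ∧ x ≠ 0 := by decide
  have s := search_true
  unfold search at s
  have s := imp_spec (all16_spec s c lc) (by
    unfold okC; apply chk_of; intro x hx y hy
    rw [red_C c a b d a' b' d' x hx y hy]
    exact hne x y (m2 x hx).1 (m8 y hy).1 (m2 x hx).2 (m8 y hy).2)
  have s := imp_spec (all16_spec s a la) (by
    unfold okA; apply chk_of; intro x hx y hy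
    rw [red_A c a b d a' b' d' x hx y hy]
    exact hne x y (m4 x hx).1 (m2 y hy).1 (m4 x hx).2 (m2 y hy).2)
  have s := imp_spec (all16_spec s b lb) (by
    unfold okB; apply chk_of; intro x hx y hy
    rw [red_B c a b d a' b' d' x hx y hy]
    exact hne x y (m4 x hx).1 (m4 y hy).1 (m4 x hx).2 (m4 y hy).2)
  have s := imp_spec (all16_spec s d ld) (by
    unfold okD; apply chk_of; intro x hx y hy
    rw [red_D c a b d a' b' d' x hx y hy]
    exact hne x y (m4 x hx).1 (m8 y hy).1 (m4 x hx).2 (m8 y hy).2)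
  have s := imp_spec (all16_spec s a' la') (by
    unfold okA'; apply chk_of; intro x hx y hy
    rw [red_A' c a b d a' b' d' x hx y hy]
    exact hne x y (m8 x hx).1 (m2 y hy).1 (m8 x hx).2 (m2 y hy).2)
  have s := imp_spec (all16_spec s b' lb') (by
    unfold okB'; apply chk_of; intro x hx y hy
    rw [red_B' c a b d a' b' d' x hx y hy]
    exact hne x y (m8 x hx).1 (m4 y hy).1 (m8 x hx).2 (m4 y hy).2)
  have s := imp_spec (all16_spec s d' ld') (by
    unfold okD'; apply chk_of; intro x hx y hy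
    exact hne x y (m8 x hx).1 (m8 y hy).1 (m8 x hx).2 (m8 y hy).2)
  exact s

/-! normalisation -/

def any16 (f : ℕ → Bool) : Bool :=
  f 0 || f 1 || f 2 || f 3 || f 4 || f 5 || f 6 || f 7 || f 8 || f 9 || f 10 || f 11 || f 12 || f 13 || f 14 || f 15

theorem any16_spec {f : ℕ → Bool} (h : any16 f = true) : ∃ n < 16, f n = true := by
  unfold any16 at h
  simp only [Bool.or_eq_true] at h
  rcases h with ((((((((((((((h | h) | h) | h) | h) | h) | h) | h) | h) | h) | h) | h) | h) | h) | h) | h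
  · exact ⟨0, by norm_num, h⟩
  · exact ⟨1, by norm_num, h⟩
  · exact ⟨2, by norm_num, h⟩
  · exact ⟨3, by norm_num, h⟩
  · exact ⟨4, by norm_num, h⟩
  · exact ⟨5, by norm_num, h⟩
  · exact ⟨6, by norm_num, h⟩
  · exact ⟨7, by norm_num, h⟩
  · exact ⟨8, by norm_num, h⟩
  · exact ⟨9, by norm_num, h⟩
  · exact ⟨10, by norm_num, h⟩
  · exact ⟨11, by norm_num, h⟩
  · exact ⟨12, by norm_num, h⟩
  · exact ⟨13, by norm_num, h⟩
  · exact ⟨14, by norm_num, h⟩
  · exact ⟨15, by norm_num, h⟩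

theorem ext_basis0 : (all16 fun u => all16 fun w => imp (nz u && nz w && nz (Nat.xor u w))
    (any16 fun y => any16 fun z => inv4 u w y z)) = true := by
  decide +kernel

theorem ext_basis (u : ℕ) (hu : u < 16) (w : ℕ) (hw : w < 16) (h1 : nz u = true) (h2 : nz w = true)
    (h3 : nz (Nat.xor u w) = true) : ∃ y < 16, ∃ z < 16, inv4 u w y z = true := by
  have := imp_spec (all16_spec (all16_spec ext_basis0 u hu) w hw) (by rw [h1, h2, h3]; rfl)
  obtain ⟨y, hy, h⟩ := any16_spec this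
  obtain ⟨z, hz, h⟩ := any16_spec h
  exact ⟨y, hy, z, hz, h⟩

theorem pow_check0 : (all16 fun a => all16 fun b => all16 fun c => imp (inv4 2 a b c)
    (imp (inv4 (Nat.xor 2 1) (Nat.xor a 2) (Nat.xor b 4) (Nat.xor c 8))
    (Nat.beq a 3 || inv4 1 2 a (ap 2 a b c a)))) = true := by
  decide +kernel

theorem pow_check (a : ℕ) (ha : a < 16) (b : ℕ) (hb : b < 16) (c : ℕ) (hc : c < 16)
    (h1 : inv4 2 a b c = true)
    (h2 : inv4 (Nat.xor 2 1) (Nat.xor a 2) (Nat.xor b 4) (Nat.xor c 8) = true) :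
    a = 3 ∨ inv4 1 2 a (ap 2 a b c a) = true := by
  have := imp_spec (imp_spec (all16_spec (all16_spec (all16_spec pow_check0 a ha) b hb) c hc) h1) h2
  rw [Bool.or_eq_true] at this
  rcases this with h | h
  · left; exact Nat.eq_of_beq_eq_true h
  · right; exact h

def ok7 (u x : ℕ) : Bool := nz x && nz (Nat.xor x u)

theorem three_more0 : (all16 fun u => any16 fun x => any16 fun y => any16 fun z =>
    ok7 u x && ok7 u y && ok7 u z && ok7 u (Nat.xor x y) && ok7 u (Nat.xor x z) && ok7 u (Nat.xor y z) &&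
    ok7 u (Nat.xor x (Nat.xor y z))) = true := by
  decide +kernel

theorem ok7_spec {u x : V} (h : ok7 (enc u) (enc x) = true) : x ≠ 0 ∧ x ≠ u := by
  unfold ok7 at h
  rw [Bool.and_eq_true, nz_iff, nz_iff] at h
  obtain ⟨h1, h2⟩ := h
  constructor
  · intro hh; apply h1; rw [hh, enc_zero]
  · intro hh; apply h2
    change enc x ^^^ enc u = 0
    rw [hh, Nat.xor_self]

theorem three_more (u : V) : ∃ x y z : V, (x ≠ 0 ∧ x ≠ u) ∧ (y ≠ 0 ∧ y ≠ u) ∧ (z ≠ 0 ∧ z ≠ u) ∧
    (x + y ≠ 0 ∧ x + y ≠ u) ∧ (x + z ≠ 0 ∧ x + z ≠ u) ∧ (y + z ≠ 0 ∧ y + z ≠ u) ∧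
    (x + (y + z) ≠ 0 ∧ x + (y + z) ≠ u) := by
  obtain ⟨x, hx, h⟩ := any16_spec (all16_spec three_more0 (enc u) (enc_lt u))
  obtain ⟨y, hy, h⟩ := any16_spec h
  obtain ⟨z, hz, h⟩ := any16_spec h
  simp only [Bool.and_eq_true] at h
  obtain ⟨⟨⟨⟨⟨⟨h1, h2⟩, h3⟩, h4⟩, h5⟩, h6⟩, h7⟩ := h
  have exy : enc (dec x + dec y) = Nat.xor x y := by rw [enc_add, enc_dec x hx, enc_dec y hy]; rfl
  have exz : enc (dec x + dec z) = Nat.xor x z := by rw [enc_add, enc_dec x hx, enc_dec z hz]; rfl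
  have eyz : enc (dec y + dec z) = Nat.xor y z := by rw [enc_add, enc_dec y hy, enc_dec z hz]; rfl
  have exyz : enc (dec x + (dec y + dec z)) = Nat.xor x (Nat.xor y z) := by
    rw [enc_add, enc_dec x hx, eyz]; rfl
  rw [← enc_dec x hx] at h1
  rw [← enc_dec y hy] at h2
  rw [← enc_dec z hz] at h3
  rw [← exy] at h4
  rw [← exz] at h5
  rw [← eyz] at h6
  rw [← exyz] at h7
  exact ⟨dec x, dec y, dec z, ok7_spec h1, ok7_spec h2, ok7_spec h3, ok7_spec h4, ok7_spec h5, ok7_spec h6,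
    ok7_spec h7⟩

theorem exists_map (u w : V) (hu : u ≠ 0) (hw : w ≠ 0) (huw : w ≠ u) :
    ∃ N : V ≃+ V, N (E 0) = u ∧ N (E 1) = w := by
  obtain ⟨y, hy, z, hz, h⟩ := ext_basis (enc u) (enc_lt u) (enc w) (enc_lt w)
    (by rw [nz_iff, Ne, enc_eq_zero]; exact hu) (by rw [nz_iff, Ne, enc_eq_zero]; exact hw)
    (by rw [nz_iff]
        change enc u ^^^ enc w ≠ 0
        rw [← enc_add, Ne, enc_eq_zero]
        intro hh; apply huw; grind)
  rw [← enc_dec y hy, ← enc_dec z hz] at h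
  refine ⟨eq4 u w (dec y) (dec z) h, ?_, ?_⟩
  · rw [eq4_apply, mk4_E0]
  · rw [eq4_apply, mk4_E1]

theorem powers {g : V → V → V} (hg : Bil g) (u : V) (hu : u ≠ 0) (gl : ∀ y, g u y = y) (gr : ∀ x, g x u = x)
    (w : V) (hw : w ≠ 0) (hwu : w ≠ u) :
    g w w = w + u ∨ inv4 (enc u) (enc w) (enc (g w w)) (enc (g w (g w w))) = true := by
  obtain ⟨N, hN0, hN1⟩ := exists_map u w hu hw hwu
  set L : V → V := fun v => N.symm (g w (N v)) with hL
  have Ladd : ∀ x y, L (x + y) = L x + L y := by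
    intro x y; simp only [hL, map_add, hg.addr]
  have Linj : Function.Injective L := by
    intro x y hxy
    exact N.injective (hg.inj hw (N.symm.injective hxy))
  have L1add : ∀ x y, (L (x + y) + (x + y)) = (L x + x) + (L y + y) := by
    intro x y; rw [Ladd]; abel
  have L1inj : Function.Injective (fun x => L x + x) := by
    intro x y hxy
    have e : ∀ t, L t + t = N.symm (g (w + u) (N t)) := by
      intro t
      rw [hg.addl, gl, map_add, N.symm_apply_apply]
    simp only [e] at hxy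
    have hwu' : w + u ≠ 0 := by intro hh; apply hwu; grind
    exact N.injective (hg.inj hwu' (N.symm.injective hxy))
  have i1 := inv4_of_inj Ladd Linj
  have i2 := inv4_of_inj L1add L1inj
  have LE0 : L (E 0) = E 1 := by
    simp only [hL]; rw [hN0, gr, ← hN1, N.symm_apply_apply]
  simp only [enc_add, LE0, enc_E0, enc_E1, enc_E2, enc_E3] at i1 i2
  have key := pow_check (enc (L (E 1))) (enc_lt _) (enc (L (E 2))) (enc_lt _) (enc (L (E 3))) (enc_lt _) i1 i2
  -- L(E1) = N⁻¹ (w*w)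
  have LE1 : N (L (E 1)) = g w w := by
    simp only [hL]; rw [hN1, N.apply_symm_apply]
  have LLE1 : N (L (L (E 1))) = g w (g w w) := by
    have : L (L (E 1)) = N.symm (g w (N (L (E 1)))) := rfl
    rw [this, LE1, N.apply_symm_apply]
  have e1 : ap 2 (enc (L (E 1))) (enc (L (E 2))) (enc (L (E 3))) (enc (L (E 1))) = enc (L (L (E 1))) := by
    rw [enc_add_map L Ladd (L (E 1)), LE0, enc_E1]
  rcases key with h3 | h4
  · left
    have : L (E 1) = E 0 + E 1 := by
      apply enc_inj; rw [h3, enc_add, enc_E0, enc_E1]; rfl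
    rw [← LE1, this, map_add, hN0, hN1, add_comm]
  · right
    rw [e1, ← enc_E0, ← enc_E1] at h4
    -- transport by N
    have hinj : Function.Injective (mk4 (E 0) (E 1) (L (E 1)) (L (L (E 1)))) := mk4_inj h4
    have hinj2 : Function.Injective (fun v => N (mk4 (E 0) (E 1) (L (E 1)) (L (L (E 1))) v)) :=
      N.injective.comp hinj
    have hadd2 : ∀ x y, N (mk4 (E 0) (E 1) (L (E 1)) (L (L (E 1))) (x + y)) =
        N (mk4 (E 0) (E 1) (L (E 1)) (L (L (E 1))) x) + N (mk4 (E 0) (E 1) (L (E 1)) (L (L (E 1))) y) := by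
      intro x y; rw [map_add, map_add]
    have := inv4_of_inj hadd2 hinj2
    rw [mk4_E0, mk4_E1, mk4_E2, mk4_E3, hN0, hN1, LE1, LLE1] at this
    exact this

theorem exists_w {g : V → V → V} (hg : Bil g) (u : V) (hu : u ≠ 0) (gl : ∀ y, g u y = y) (gr : ∀ x, g x u = x) :
    ∃ w, inv4 (enc u) (enc w) (enc (g w w)) (enc (g w (g w w))) = true := by
  by_contra hcon
  push Not at hcon
  have sq : ∀ w, w ≠ 0 → w ≠ u → g w w = w + u := by
    intro w h1 h2
    rcases powers hg u hu gl gr w h1 h2 with h | h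
    · exact h
    · exact absurd h (hcon w)
  obtain ⟨x, y, z, ⟨x0, xu⟩, ⟨y0, yu⟩, ⟨z0, zu⟩, ⟨xy0, xyu⟩, ⟨xz0, xzu⟩, ⟨yz0, yzu⟩, ⟨xyz0, xyzu⟩⟩ := three_more u
  have cm : ∀ a b, a ≠ 0 → a ≠ u → b ≠ 0 → b ≠ u → a + b ≠ 0 → a + b ≠ u → g a b + g b a = u := by
    intro a b a0 au b0 bu ab0 abu
    have h1 := sq (a + b) ab0 abu
    rw [hg.addl, hg.addr, hg.addr, sq a a0 au, sq b b0 bu] at h1
    grind
  have c1 := cm x y x0 xu y0 yu xy0 xyu
  have c2 := cm x z x0 xu z0 zu xz0 xzu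
  have c3 := cm x (y + z) x0 xu yz0 yzu xyz0 xyzu
  rw [hg.addl, hg.addr] at c3
  apply hu
  grind

theorem normalise {ψ : V → V → V} (h : Bil ψ) :
    ∃ f, Norm f ∧ ∃ A P Q : V ≃+ V, ∀ x y, Q (ψ x y) = f (A x) (P y) := by
  have e0 : E 0 ≠ 0 := by decide +kernel
  let R : V ≃+ V := AddEquiv.ofBijective (AddMonoidHom.mk' (fun x => ψ x (E 0)) (fun a b => h.addl a b _))
    ((Finite.injective_iff_bijective).mp (h.injl e0))
  let L : V ≃+ V := AddEquiv.ofBijective (AddMonoidHom.mk' (fun x => ψ (E 0) x) (fun a b => h.addr _ a b))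
    ((Finite.injective_iff_bijective).mp (h.inj e0))
  have hR : ∀ x, R x = ψ x (E 0) := fun _ => rfl
  have hL : ∀ x, L x = ψ (E 0) x := fun _ => rfl
  set g : V → V → V := fun a b => ψ (R.symm a) (L.symm b) with hg
  have gbil : Bil g := by
    constructor
    · intro x y z; simp only [hg, map_add, h.addl]
    · intro x y z; simp only [hg, map_add, h.addr]
    · intro x y hxy
      rcases h.nd _ _ hxy with h1 | h1
      · left; exact (map_eq_zero_iff R.symm R.symm.injective).mp h1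
      · right; exact (map_eq_zero_iff L.symm L.symm.injective).mp h1
  set u := ψ (E 0) (E 0) with hu
  have Ru : R.symm u = E 0 := by rw [AddEquiv.symm_apply_eq]; exact (hR _).symm
  have Lu : L.symm u = E 0 := by rw [AddEquiv.symm_apply_eq]; exact (hL _).symm
  have gl : ∀ y, g u y = y := by
    intro y
    simp only [hg]
    rw [Ru, ← hL, L.apply_symm_apply]
  have gr : ∀ y, g y u = y := by
    intro y
    simp only [hg]
    rw [Lu, ← hR, R.apply_symm_apply]
  have hu0 : u ≠ 0 := by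
    intro hh
    rcases h.nd _ _ hh with h1 | h1 <;> exact e0 h1
  obtain ⟨w, hw⟩ := exists_w gbil u hu0 gl gr
  set M : V ≃+ V := eq4 u w (g w w) (g w (g w w)) hw with hM
  have M0 : M (E 0) = u := by rw [hM, eq4_apply, mk4_E0]
  have M1 : M (E 1) = w := by rw [hM, eq4_apply, mk4_E1]
  have M2 : M (E 2) = g w w := by rw [hM, eq4_apply, mk4_E2]
  have M3 : M (E 3) = g w (g w w) := by rw [hM, eq4_apply, mk4_E3]
  refine ⟨fun a b => M.symm (g (M a) (M b)), ?_, R.trans M.symm, L.trans M.symm, M.symm, ?_⟩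
  · constructor
    · constructor
      · intro x y z; simp only [map_add, gbil.addl]
      · intro x y z; simp only [map_add, gbil.addr]
      · intro x y hxy
        have h1 := (map_eq_zero_iff M.symm M.symm.injective).mp hxy
        rcases gbil.nd _ _ h1 with h2 | h2
        · left; exact (map_eq_zero_iff M M.injective).mp h2
        · right; exact (map_eq_zero_iff M M.injective).mp h2
    · intro y; rw [M0, gl, M.symm_apply_apply]
    · intro y; rw [M0, gr, M.symm_apply_apply]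
    · rw [M1, ← M2, M.symm_apply_apply]
    · rw [M1, M2, ← M3, M.symm_apply_apply]
  · intro x y
    simp only [AddEquiv.trans_apply, AddEquiv.apply_symm_apply, hg, AddEquiv.symm_apply_apply]

theorem bil_class {ψ : V → V → V} (h : Bil ψ) :
    ∃ i < 3, ∃ A P Q : V ≃+ V, ∀ x y, Q (ψ x y) = mu i (A x) (P y) := by
  obtain ⟨f, hf, A, P, Q, h1⟩ := normalise h
  obtain ⟨i, hi, A', P', Q', h2⟩ := norm_class hf
  refine ⟨i, hi, A.trans A', P.trans P', Q.trans Q', ?_⟩
  intro x y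
  simp only [AddEquiv.trans_apply]
  rw [h1, h2]

end H197N24
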