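import Pool.Agent.H357R2.SI.PairFinal

set_option autoImplicit false

open Filter Topology

namespace Pool.Agent.H197R2.PG

open Pool.Agent.Helper601.HK (sfR mem_sfR sfR_prod harmonic_le log_le)
open Pool.Agent.H357R2.SI

/-- the product of `1 + 1/p` over the primes `p` dividing `h` -/
noncomputable def gg (h : ℕ) : ℝ := ∏ p ∈ h.primeFactors, (1 + 1 / (p : ℝ))

lemma one_le_gg (h : ℕ) : 1 ≤ gg h := by
  unfold gg
  have h1 : ∀ s : Finset ℕ, (1 : ℝ) ≤ ∏ p ∈ s, (1 + 1 / (p : ℝ)) := by
    intro s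
    classical
    induction s using Finset.induction_on with
    | empty => simp
    | insert a s ha ih =>
      rw [Finset.prod_insert ha]
      have h2 : (1 : ℝ) ≤ 1 + 1 / (a : ℝ) := by
        have : (0 : ℝ) ≤ 1 / (a : ℝ) := by positivity
        linarith
      calc (1 : ℝ) = 1 * 1 := by ring
        _ ≤ _ := mul_le_mul h2 ih (by norm_num) (by linarith)
  exact h1 _

lemma selberg_sharp {h M N : ℕ} (hh : 0 < h) (hM : 1 ≤ M) (hMN : M * M ≤ N) (hhM : 2 * h ≤ M) :
    Real.log M ^ 2 / (32 * gg (2 * h)) ≤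
      ∑ l ∈ (Finset.Icc 1 N).filter Squarefree, ∏ p ∈ l.primeFactors,
        (if p ∈ (Finset.Icc 1 N).filter (fun p => p.Prime ∧ ¬ p ∣ 2 * h) then
          2 / ((p : ℝ) - 2) else 1 / ((p : ℝ) - 1)) := by
  classical
  set R' := (2 * h).primeFactors with hR'
  have hR'p : ∀ r ∈ R', r.Prime := fun r hr => Nat.prime_of_mem_primeFactors hr
  set P : ℝ := gg (2 * h) with hP
  have hP1 : 1 ≤ P := one_le_gg _
  have hPdef : P = ∏ r ∈ R', (1 + 1 / (r : ℝ)) := rfl
  set F : ℕ → ℝ := fun l => ∏ p ∈ l.primeFactors,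
        (if p ∈ (Finset.Icc 1 N).filter (fun p => p.Prime ∧ ¬ p ∣ 2 * h) then
          2 / ((p : ℝ) - 2) else 1 / ((p : ℝ) - 1)) with hF
  have h1 := log_le M hM
  have h2 := harmonic_le (Nat.sqrt M)
  have h3 := sfR_prod (Nat.sqrt M) R' hR'p
  set Q := ∑ a ∈ sfR R' (Nat.sqrt M), 1 / (a : ℝ) with hQ
  have hQ0 : 0 ≤ Q := Finset.sum_nonneg (fun _ _ => by positivity)
  rw [← hPdef] at h3
  have h5 : Real.log M ≤ 4 * P * Q := by linarith
  have hlog0 : 0 ≤ Real.log M := Real.log_natCast_nonneg M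
  have h6 : Real.log M ^ 2 ≤ (4 * P * Q) ^ 2 := by gcongr
  have h7 := pair_lower R' hR'p M
  set D := ∑ l ∈ sfR R' M, (l.divisors.card : ℝ) / l with hD
  rw [← hQ] at h7
  have h8 : Real.log M ^ 2 / (32 * P) ≤ P * D := by
    rw [div_le_iff₀ (by positivity)]
    have e1 : (4 * P * Q) ^ 2 = 16 * P ^ 2 * Q ^ 2 := by ring
    rw [e1] at h6
    have h9 : 16 * P ^ 2 * Q ^ 2 ≤ 16 * P ^ 2 * (2 * D) :=
      mul_le_mul_of_nonneg_left h7 (by positivity)
    linarith
  refine h8.trans ?_
  set S : Finset (Finset ℕ × ℕ) := R'.powerset ×ˢ sfR R' M with hS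
  set i : Finset ℕ × ℕ → ℕ := fun x => (∏ p ∈ x.1, p) * x.2 with hi
  have hexp : P * D = ∑ x ∈ S, (∏ p ∈ x.1, (1 / (p : ℝ))) * ((x.2.divisors.card : ℝ) / x.2) := by
    rw [hPdef, Finset.prod_one_add, hD, Finset.sum_mul_sum, hS, Finset.sum_product]
  have hfac : ∀ x ∈ S, x.1 ⊆ R' ∧ (∏ p ∈ x.1, p).primeFactors = x.1 ∧
      Nat.Coprime (∏ p ∈ x.1, p) x.2 ∧ 1 ≤ x.2 ∧ x.2 ≤ M ∧ Squarefree x.2 ∧
      (∀ r ∈ R', ¬ r ∣ x.2) := by
    intro x hx
    rw [hS, Finset.mem_product, Finset.mem_powerset, mem_sfR] at hx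
    obtain ⟨hx1, ⟨hx2, hx3⟩, hx4, hx5⟩ := hx
    refine ⟨hx1, Nat.primeFactors_prod (fun p hp => hR'p p (hx1 hp)), ?_, hx2, hx3, hx4, hx5⟩
    apply Nat.Coprime.prod_left
    intro p hp
    exact (Nat.Prime.coprime_iff_not_dvd (hR'p p (hx1 hp))).mpr (hx5 p (hx1 hp))
  have hne : ∀ x ∈ S, (∏ p ∈ x.1, p) ≠ 0 := by
    intro x hx
    rw [Finset.prod_ne_zero_iff]
    intro p hp
    exact (hR'p p ((hfac x hx).1 hp)).ne_zero
  have hpf : ∀ x ∈ S, (i x).primeFactors = x.1 ∪ x.2.primeFactors := by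
    intro x hx
    obtain ⟨g1, g2, g3, g4, g5, g6, g7⟩ := hfac x hx
    simp only [hi]
    rw [g3.primeFactors_mul, g2]
  have hdisj : ∀ x ∈ S, Disjoint x.1 x.2.primeFactors := by
    intro x hx
    obtain ⟨g1, g2, g3, g4, g5, g6, g7⟩ := hfac x hx
    rw [Finset.disjoint_left]
    intro p hp hp2
    exact g7 p (g1 hp) (Nat.dvd_of_mem_primeFactors hp2)
  have hinj : Set.InjOn i (S : Set (Finset ℕ × ℕ)) := by
    intro x hx y hy hxy
    have hx' := hfac x hx
    have hy' := hfac y hy
    have e1 : ∀ z ∈ S, (i z).primeFactors ∩ R' = z.1 := by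
      intro z hz
      obtain ⟨g1, g2, g3, g4, g5, g6, g7⟩ := hfac z hz
      rw [hpf z hz]
      ext p
      rw [Finset.mem_inter, Finset.mem_union]
      constructor
      · rintro ⟨h | h, h'⟩
        · exact h
        · exact absurd (Nat.dvd_of_mem_primeFactors h) (g7 p h')
      · intro h
        exact ⟨Or.inl h, g1 h⟩
    have e2 : x.1 = y.1 := by rw [← e1 x hx, ← e1 y hy, hxy]
    have e3 : x.2 = y.2 := by
      simp only [hi] at hxy
      rw [e2] at hxy
      exact Nat.eq_of_mul_eq_mul_left (Nat.pos_of_ne_zero (hne y hy)) hxy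
    exact Prod.ext e2 e3
  have hmaps : ∀ x ∈ S, i x ∈ (Finset.Icc 1 N).filter Squarefree := by
    intro x hx
    obtain ⟨g1, g2, g3, g4, g5, g6, g7⟩ := hfac x hx
    rw [Finset.mem_filter, Finset.mem_Icc]
    have hdvd : (∏ p ∈ x.1, p) ∣ 2 * h := by
      apply Finset.prod_primes_dvd
      · intro p hp
        exact (hR'p p (g1 hp)).prime
      · intro p hp
        exact Nat.dvd_of_mem_primeFactors (g1 hp)
    have hle : (∏ p ∈ x.1, p) ≤ M := (Nat.le_of_dvd (by positivity) hdvd).trans hhM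
    have hsq : Squarefree (∏ p ∈ x.1, p) := by
      refine Finset.squarefree_prod_of_pairwise_isCoprime (fun p hp r hr hpr => ?_) fun p hp => ?_
      · simp only [← Nat.coprime_iff_isRelPrime]
        exact (Nat.coprime_primes (hR'p p (g1 hp)) (hR'p r (g1 hr))).mpr hpr
      · exact (hR'p p (g1 hp)).squarefree
    refine ⟨⟨Nat.one_le_iff_ne_zero.mpr (Nat.mul_ne_zero (hne x hx) (by omega)), ?_⟩, ?_⟩
    · exact (Nat.mul_le_mul hle g5).trans hMN
    · simp only [hi]
      rw [Nat.squarefree_mul g3]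
      exact ⟨hsq, g6⟩
  have hFnn : ∀ l : ℕ, 0 ≤ F l := by
    intro l
    simp only [hF]
    apply Finset.prod_nonneg
    intro p hp
    have hpp := Nat.prime_of_mem_primeFactors hp
    have hp2 : (2 : ℝ) ≤ p := by exact_mod_cast hpp.two_le
    split_ifs
    · apply div_nonneg (by norm_num) (by linarith)
    · apply div_nonneg (by norm_num) (by linarith)
  have hterm : ∀ x ∈ S, (∏ p ∈ x.1, (1 / (p : ℝ))) * ((x.2.divisors.card : ℝ) / x.2) ≤ F (i x) := by
    intro x hx
    obtain ⟨g1, g2, g3, g4, g5, g6, g7⟩ := hfac x hx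
    simp only [hF]
    rw [hpf x hx, Finset.prod_union (hdisj x hx)]
    apply mul_le_mul
    · apply Finset.prod_le_prod
      · intro p _
        positivity
      · intro p hp
        have hpp := hR'p p (g1 hp)
        have hpd : p ∣ 2 * h := Nat.dvd_of_mem_primeFactors (g1 hp)
        rw [if_neg (by rw [Finset.mem_filter]; exact fun h => h.2.2 hpd)]
        have hp2 : (2 : ℝ) ≤ p := by exact_mod_cast hpp.two_le
        apply div_le_div_of_nonneg_left (by norm_num) (by linarith) (by linarith)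
    · rw [card_divisors_sqfree g6]
      have hlprod : (x.2 : ℝ) = ∏ p ∈ x.2.primeFactors, (p : ℝ) := by
        have := Nat.prod_primeFactors_of_squarefree g6
        conv_lhs => rw [← this]
        push_cast
        rfl
      conv_lhs => rw [hlprod]
      rw [← Finset.prod_div_distrib]
      apply Finset.prod_le_prod
      · intro p _; positivity
      · intro p hp
        have hpp := Nat.prime_of_mem_primeFactors hp
        have hpl := Nat.dvd_of_mem_primeFactors hp
        have hpR' : ¬ p ∣ 2 * h := by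
          intro hd
          exact g7 p (Nat.mem_primeFactors.mpr ⟨hpp, hd, by positivity⟩) hpl
        have hpN : p ≤ N := by
          have t1 : p ≤ x.2 := Nat.le_of_dvd g4 hpl
          have t2 : M ≤ M * M := Nat.le_mul_of_pos_left M hM
          omega
        have hpmem : p ∈ (Finset.Icc 1 N).filter (fun p => p.Prime ∧ ¬ p ∣ 2 * h) := by
          rw [Finset.mem_filter, Finset.mem_Icc]
          exact ⟨⟨hpp.one_lt.le, hpN⟩, hpp, hpR'⟩
        rw [if_pos hpmem]
        have hp3 : 3 ≤ p := by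
          rcases Nat.lt_or_ge p 3 with h9 | h9
          · have : p = 2 := le_antisymm (by omega) hpp.two_le
            subst this
            exact absurd (dvd_mul_right 2 h) hpR'
          · exact h9
        have hp3' : (3 : ℝ) ≤ p := by exact_mod_cast hp3
        apply div_le_div_of_nonneg_left (by norm_num) (by linarith) (by linarith)
    · positivity
    · apply Finset.prod_nonneg
      intro p hp
      have hpp := hR'p p (g1 hp)
      have hp2 : (2 : ℝ) ≤ p := by exact_mod_cast hpp.two_le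
      split_ifs
      · apply div_nonneg (by norm_num) (by linarith)
      · apply div_nonneg (by norm_num) (by linarith)
  rw [hexp]
  calc ∑ x ∈ S, (∏ p ∈ x.1, (1 / (p : ℝ))) * ((x.2.divisors.card : ℝ) / x.2)
      ≤ ∑ x ∈ S, F (i x) := Finset.sum_le_sum hterm
    _ = ∑ l ∈ S.image i, F l := (Finset.sum_image hinj).symm
    _ ≤ ∑ l ∈ (Finset.Icc 1 N).filter Squarefree, F l := by
        apply Finset.sum_le_sum_of_subset_of_nonneg
        · intro l hl
          obtain ⟨x, hx, rfl⟩ := Finset.mem_image.mp hl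
          exact hmaps x hx
        · intro l _ _
          exact hFnn l

end Pool.Agent.H197R2.PG
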