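import Pool.Agent.H197R2.PG1

set_option autoImplicit false

open Filter Topology

namespace Pool.Agent.H197R2.PG

open Pool.Agent.H357R2.SI

lemma asymp32 : ∀ᶠ x : ℝ in atTop, x ^ (1 / 32 : ℝ) + 1 ≤ x ^ (1 / 16 : ℝ) := by
  have h1 : ∀ᶠ x : ℝ in atTop, 2 ≤ x ^ (1 / 32 : ℝ) :=
    (tendsto_rpow_atTop (by norm_num : (0 : ℝ) < 1 / 32)).eventually_ge_atTop 2
  filter_upwards [h1, eventually_gt_atTop 1] with x h1 h3
  have hx0 : 0 < x := by linarith
  have e : x ^ (1 / 16 : ℝ) = x ^ (1 / 32 : ℝ) * x ^ (1 / 32 : ℝ) := by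
    rw [← Real.rpow_add hx0]; norm_num
  rw [e]
  nlinarith

/-- Upper bound sieve for prime pairs with a given small difference, with the sharp dependence on
the difference. -/
theorem pair_sieve_sharp : ∃ C : ℝ, 1 ≤ C ∧ ∃ u0 : ℕ, ∀ h a u : ℕ, 0 < h → u0 ≤ u →
    2 * (h : ℝ) ≤ (u : ℝ) ^ (1 / 16 : ℝ) →
    (((Finset.Ioc a (a + u)).filter (fun n => n.Prime ∧ (n + h).Prime)).card : ℝ) ≤
      C * gg (2 * h) * u / Real.log u ^ 2 := by
  refine ⟨32769, by norm_num, ?_⟩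
  obtain ⟨x0, hx0⟩ := Filter.eventually_atTop.mp (pair_asymp.and asymp32)
  refine ⟨⌈x0⌉₊, ?_⟩
  intro h a u hh hu hhu
  have hux : x0 ≤ (u : ℝ) := Nat.ceil_le.mp hu
  obtain ⟨⟨hu1, h16, h34⟩, h32⟩ := hx0 u hux
  have hu0 : (0 : ℝ) < u := by linarith
  have hlog : 0 < Real.log u := Real.log_pos hu1
  have hgg := one_le_gg (2 * h)
  set M : ℕ := ⌊(u : ℝ) ^ (1 / 16 : ℝ)⌋₊ with hM
  set N : ℕ := M * M with hN
  have hM32 : (u : ℝ) ^ (1 / 32 : ℝ) ≤ M := by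
    have := Nat.lt_floor_add_one ((u : ℝ) ^ (1 / 16 : ℝ))
    rw [← hM] at this
    linarith
  have h321 : 1 ≤ (u : ℝ) ^ (1 / 32 : ℝ) := Real.one_le_rpow hu1.le (by norm_num)
  have hM1r : (1 : ℝ) ≤ M := h321.trans hM32
  have hM1 : 1 ≤ M := by exact_mod_cast hM1r
  have hN1 : 1 ≤ N := Nat.mul_pos hM1 hM1
  have hM16 : (M : ℝ) ≤ (u : ℝ) ^ (1 / 16 : ℝ) := Nat.floor_le (by positivity)
  have hN8 : (N : ℝ) ≤ (u : ℝ) ^ (1 / 8 : ℝ) := by
    have e : (u : ℝ) ^ (1 / 8 : ℝ) = (u : ℝ) ^ (1 / 16 : ℝ) * (u : ℝ) ^ (1 / 16 : ℝ) := by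
      rw [← Real.rpow_add hu0]; norm_num
    rw [e, hN]
    push_cast
    gcongr
  have hlogM : (1 / 32) * Real.log u ≤ Real.log M := by
    rw [← Real.log_rpow hu0]
    exact Real.log_le_log (by positivity) hM32
  have hhM : 2 * h ≤ M := by
    rw [hM]
    apply Nat.le_floor
    push_cast
    exact hhu
  have hlow := selberg_sharp hh hM1 le_rfl hhM
  set R := (Finset.Icc 1 N).filter (fun p => p.Prime ∧ ¬ p ∣ 2 * h) with hR
  have hRp : ∀ r ∈ R, r.Prime := fun r hr => (Finset.mem_filter.mp hr).2.1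
  have hR3 : ∀ r ∈ R, 3 ≤ r := by
    intro r hr
    have h1 := (Finset.mem_filter.mp hr).2
    rcases Nat.lt_or_ge r 3 with h9 | h9
    · have : r = 2 := le_antisymm (by omega) h1.1.two_le
      subst this
      exact absurd (dvd_mul_right 2 h) h1.2
    · exact h9
  have hRh : ∀ r ∈ R, ¬ r ∣ h := by
    intro r hr hd
    exact (Finset.mem_filter.mp hr).2.2 (hd.mul_left 2)
  have hL : 0 < Real.log M ^ 2 / (32 * gg (2 * h)) := by
    have : 0 < Real.log M := lt_of_lt_of_le (by positivity) hlogM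
    positivity
  have h1 := pair_aux (s := h) hR3 hRp hRh (a := a) (u := u) hN1 _ hL hlow
  have hsub : (Finset.Ioc a (a + u)).filter (fun n => n.Prime ∧ (n + h).Prime) ⊆
      (Finset.Ioc a (a + u)).filter (fun n => n.Prime ∧ ∀ r ∈ R, ¬ r ∣ n + h) ∪ Finset.Icc 1 N := by
    intro n hn
    rw [Finset.mem_filter] at hn
    obtain ⟨hn1, hn2, hn3⟩ := hn
    rw [Finset.mem_union, Finset.mem_filter, Finset.mem_Icc]
    by_cases hnN : n ≤ N
    · exact Or.inr ⟨hn2.one_lt.le, hnN⟩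
    · left
      refine ⟨hn1, hn2, ?_⟩
      intro r hr hd
      have hrN := (Finset.mem_Icc.mp (Finset.mem_filter.mp hr).1).2
      have := (Nat.prime_dvd_prime_iff_eq (hRp r hr) hn3).mp hd
      omega
  have h2 : (((Finset.Ioc a (a + u)).filter (fun n => n.Prime ∧ (n + h).Prime)).card : ℝ) ≤
      (((Finset.Ioc a (a + u)).filter (fun n => n.Prime ∧ ∀ r ∈ R, ¬ r ∣ n + h)).card : ℝ) + N := by
    have := (Finset.card_le_card hsub).trans (Finset.card_union_le _ _)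
    rw [Nat.card_Icc, Nat.add_sub_cancel] at this
    exact_mod_cast this
  have h3 : (u : ℝ) / (Real.log M ^ 2 / (32 * gg (2 * h))) ≤
      32768 * gg (2 * h) * u / Real.log u ^ 2 := by
    have h4 : (1 / 1024) * Real.log u ^ 2 ≤ Real.log M ^ 2 := by
      have : ((1 / 32) * Real.log u) ^ 2 ≤ Real.log M ^ 2 := by gcongr
      calc _ = ((1 / 32) * Real.log u) ^ 2 := by ring
        _ ≤ _ := this
    calc (u : ℝ) / (Real.log M ^ 2 / (32 * gg (2 * h)))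
        ≤ (u : ℝ) / ((1 / 1024) * Real.log u ^ 2 / (32 * gg (2 * h))) := by gcongr
      _ = 32768 * gg (2 * h) * u / Real.log u ^ 2 := by
          field_simp
          ring
  have h6 : (N : ℝ) ^ 6 ≤ (u : ℝ) ^ (3 / 4 : ℝ) := by
    calc (N : ℝ) ^ 6 ≤ ((u : ℝ) ^ (1 / 8 : ℝ)) ^ 6 := by gcongr
      _ = (u : ℝ) ^ (3 / 4 : ℝ) := by
          rw [← Real.rpow_natCast _ 6, ← Real.rpow_mul hu0.le]; norm_num
  have h7 : (N : ℝ) ≤ (u : ℝ) ^ (3 / 4 : ℝ) := by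
    calc (N : ℝ) ≤ (u : ℝ) ^ (1 / 8 : ℝ) := hN8
      _ ≤ (u : ℝ) ^ (3 / 4 : ℝ) := Real.rpow_le_rpow_of_exponent_le hu1.le (by norm_num)
  have h8 : (u : ℝ) / Real.log u ^ 2 ≤ gg (2 * h) * u / Real.log u ^ 2 := by
    apply div_le_div_of_nonneg_right _ (by positivity)
    nlinarith
  have h9 : 32769 * gg (2 * h) * (u : ℝ) / Real.log u ^ 2 =
    32768 * gg (2 * h) * u / Real.log u ^ 2 + gg (2 * h) * u / Real.log u ^ 2 := by ring
  rw [h9]
  linarith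

end Pool.Agent.H197R2.PG
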