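import Pool.Agent.H197R2.PG1
import Pool.Agent.Helper601.Mertens

set_option autoImplicit false

open Finset

namespace Pool.Agent.H197R2.PG

/-- the primes up to `Y` -/
noncomputable def PY (Y : ℕ) : Finset ℕ := (Finset.Icc 1 Y).filter Nat.Prime

/-- the auxiliary weight `(1+1/p)^k - 1` -/
noncomputable def wt (k p : ℕ) : ℝ := (1 + 1 / (p : ℝ)) ^ k - 1

lemma wt_nonneg (k p : ℕ) : 0 ≤ wt k p := by
  unfold wt
  have : (0 : ℝ) ≤ 1 / (p : ℝ) := by positivity
  have h : (1 : ℝ) ≤ (1 + 1 / (p : ℝ)) ^ k := one_le_pow₀ (by linarith)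
  linarith

lemma moment_le (k Y : ℕ) :
    ∑ h ∈ Icc 1 Y, gg h ^ k ≤ Y * ∏ p ∈ PY Y, (1 + wt k p / p) := by
  classical
  have hPY : ∀ p ∈ PY Y, p.Prime := fun p hp => (mem_filter.mp hp).2
  have h1 : ∀ h ∈ Icc 1 Y, gg h ^ k = ∑ T ∈ (PY Y).powerset,
      if T ⊆ h.primeFactors then ∏ p ∈ T, wt k p else 0 := by
    intro h hh
    rw [mem_Icc] at hh
    have e1 : gg h ^ k = ∏ p ∈ h.primeFactors, (1 + wt k p) := by
      unfold gg
      rw [← Finset.prod_pow]
      apply Finset.prod_congr rfl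
      intro p _
      unfold wt
      ring
    rw [e1, Finset.prod_one_add, ← Finset.sum_filter]
    apply Finset.sum_congr _ (fun _ _ => rfl)
    ext T
    rw [mem_filter, mem_powerset, mem_powerset]
    constructor
    · intro hT
      refine ⟨?_, hT⟩
      intro p hp
      have hpp := hT hp
      rw [Nat.mem_primeFactors] at hpp
      unfold PY
      rw [mem_filter, mem_Icc]
      exact ⟨⟨hpp.1.one_lt.le, (Nat.le_of_dvd (by omega) hpp.2.1).trans hh.2⟩, hpp.1⟩
    · exact fun hT => hT.2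
  rw [Finset.sum_congr rfl h1, Finset.sum_comm, Finset.prod_one_add, Finset.mul_sum]
  apply Finset.sum_le_sum
  intro T hT
  rw [mem_powerset] at hT
  rw [← Finset.sum_filter, Finset.sum_const, nsmul_eq_mul]
  have hcard : ((Icc 1 Y).filter (fun h => T ⊆ h.primeFactors)).card ≤ Y / ∏ p ∈ T, p := by
    rw [← Nat.Ioc_filter_dvd_card_eq_div Y (∏ p ∈ T, p)]
    apply Finset.card_le_card
    intro h hh
    rw [mem_filter, mem_Icc] at hh
    rw [mem_filter, mem_Ioc]
    refine ⟨⟨by omega, hh.1.2⟩, ?_⟩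
    apply Finset.prod_primes_dvd
    · intro p hp
      exact (hPY p (hT hp)).prime
    · intro p hp
      exact Nat.dvd_of_mem_primeFactors (hh.2 hp)
  have h2 : (((Icc 1 Y).filter (fun h => T ⊆ h.primeFactors)).card : ℝ) ≤
      (Y : ℝ) / ∏ p ∈ T, (p : ℝ) := by
    calc (((Icc 1 Y).filter (fun h => T ⊆ h.primeFactors)).card : ℝ)
        ≤ ((Y / ∏ p ∈ T, p : ℕ) : ℝ) := by exact_mod_cast hcard
      _ ≤ (Y : ℝ) / ((∏ p ∈ T, p : ℕ) : ℝ) := Nat.cast_div_le
      _ = (Y : ℝ) / ∏ p ∈ T, (p : ℝ) := by push_cast; rfl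
  calc (((Icc 1 Y).filter (fun h => T ⊆ h.primeFactors)).card : ℝ) * ∏ p ∈ T, wt k p
      ≤ (Y : ℝ) / (∏ p ∈ T, (p : ℝ)) * ∏ p ∈ T, wt k p := by
        apply mul_le_mul_of_nonneg_right h2
        exact Finset.prod_nonneg (fun p _ => wt_nonneg k p)
    _ = Y * ∏ p ∈ T, (wt k p / p) := by
        rw [Finset.prod_div_distrib]
        ring

lemma euler_le : ∃ C : ℝ, 1 ≤ C ∧ ∀ k Y : ℕ, 3 ≤ k →
    ∏ p ∈ PY Y, (1 + wt k p / p) ≤ (C * Real.log k) ^ k := by
  classical
  obtain ⟨C0, hC0⟩ := Pool.Agent.Helper601.Mertens.mertens_inv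
  refine ⟨Real.exp (|C0| + 2), Real.one_le_exp (by positivity), ?_⟩
  intro k Y hk
  have hk0 : (0 : ℝ) < k := by exact_mod_cast (by omega : 0 < k)
  have hk3 : (3 : ℝ) ≤ k := by exact_mod_cast hk
  have hlogk : 0 < Real.log k := Real.log_pos (by linarith)
  have hfac1 : ∀ p : ℕ, 1 ≤ 1 + wt k p / p := by
    intro p
    have : 0 ≤ wt k p / p := div_nonneg (wt_nonneg k p) (Nat.cast_nonneg p)
    linarith
  have hsplit : ∏ p ∈ PY Y, (1 + wt k p / p) =
      (∏ p ∈ (PY Y).filter (fun p => p ≤ k), (1 + wt k p / p)) *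
        ∏ p ∈ (PY Y).filter (fun p => ¬ p ≤ k), (1 + wt k p / p) :=
    (Finset.prod_filter_mul_prod_filter_not _ _ _).symm
  rw [hsplit]
  -- small primes
  have hsmall : ∏ p ∈ (PY Y).filter (fun p => p ≤ k), (1 + wt k p / p) ≤
      Real.exp (k * (Real.log (Real.log k) + |C0|)) := by
    have h1 : ∏ p ∈ (PY Y).filter (fun p => p ≤ k), (1 + wt k p / p) ≤
        ∏ p ∈ (PY Y).filter (fun p => p ≤ k), Real.exp (k * (1 / (p : ℝ))) := by
      apply Finset.prod_le_prod
      · intro p _
        linarith [hfac1 p]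
      · intro p hp
        have hpp : p.Prime := (mem_filter.mp (mem_filter.mp hp).1).2
        have hp1 : (1 : ℝ) ≤ p := by exact_mod_cast hpp.one_lt.le
        have h2 : wt k p / p ≤ wt k p := div_le_self (wt_nonneg k p) hp1
        have h3 : 1 + wt k p = (1 + 1 / (p : ℝ)) ^ k := by unfold wt; ring
        have h4 : (1 + 1 / (p : ℝ)) ^ k ≤ Real.exp (1 / (p : ℝ)) ^ k := by
          have : (0 : ℝ) ≤ 1 / (p : ℝ) := by positivity
          apply pow_le_pow_left₀ (by linarith)
          have := Real.add_one_le_exp (1 / (p : ℝ))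
          linarith
        rw [← Real.exp_nat_mul] at h4
        linarith
    refine h1.trans ?_
    rw [← Real.exp_sum, ← Finset.mul_sum]
    apply Real.exp_le_exp.mpr
    apply mul_le_mul_of_nonneg_left _ hk0.le
    have h5 : ∑ p ∈ (PY Y).filter (fun p => p ≤ k), 1 / (p : ℝ) ≤
        ∑ p ∈ (Finset.Icc 1 k).filter Nat.Prime, (1 : ℝ) / p := by
      apply Finset.sum_le_sum_of_subset_of_nonneg
      · intro p hp
        rw [mem_filter] at hp
        unfold PY at hp
        rw [mem_filter, mem_Icc] at hp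
        rw [mem_filter, mem_Icc]
        exact ⟨⟨hp.1.1.1, hp.2⟩, hp.1.2⟩
      · intro p _ _
        positivity
    have h6 := (abs_le.mp (hC0 k hk)).2
    have h7 := le_abs_self C0
    linarith
  -- large primes
  have hlarge : ∏ p ∈ (PY Y).filter (fun p => ¬ p ≤ k), (1 + wt k p / p) ≤ Real.exp 2 := by
    have h1 : ∏ p ∈ (PY Y).filter (fun p => ¬ p ≤ k), (1 + wt k p / p) ≤
        ∏ p ∈ (PY Y).filter (fun p => ¬ p ≤ k), Real.exp (2 * k * ((p : ℝ) ^ 2)⁻¹) := by
      apply Finset.prod_le_prod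
      · intro p _
        linarith [hfac1 p]
      · intro p hp
        have hpk : k < p := not_le.mp (mem_filter.mp hp).2
        have hpk' : (k : ℝ) < p := by exact_mod_cast hpk
        have hp0 : (0 : ℝ) < p := by linarith
        have h3 : wt k p ≤ 2 * (k / p) := by
          have h4 : (1 + 1 / (p : ℝ)) ^ k ≤ Real.exp (1 / (p : ℝ)) ^ k := by
            have : (0 : ℝ) ≤ 1 / (p : ℝ) := by positivity
            apply pow_le_pow_left₀ (by linarith)
            have := Real.add_one_le_exp (1 / (p : ℝ))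
            linarith
          rw [← Real.exp_nat_mul] at h4
          have h5 : (k : ℝ) * (1 / p) = k / p := by ring
          rw [h5] at h4
          have h6 : |(k : ℝ) / p| ≤ 1 := by
            rw [abs_of_nonneg (by positivity), div_le_one hp0]
            exact hpk'.le
          have h7 := Real.abs_exp_sub_one_le h6
          rw [abs_of_nonneg (by positivity : (0 : ℝ) ≤ (k : ℝ) / p)] at h7
          have h8 := le_abs_self (Real.exp ((k : ℝ) / p) - 1)
          unfold wt
          linarith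
        have h9 : wt k p / p ≤ 2 * k * ((p : ℝ) ^ 2)⁻¹ := by
          calc wt k p / p ≤ 2 * (k / p) / p := by gcongr
            _ = 2 * k * ((p : ℝ) ^ 2)⁻¹ := by field_simp
        have h10 := Real.add_one_le_exp (2 * k * ((p : ℝ) ^ 2)⁻¹)
        linarith
    refine h1.trans ?_
    rw [← Real.exp_sum, ← Finset.mul_sum]
    apply Real.exp_le_exp.mpr
    have h11 : ∑ p ∈ (PY Y).filter (fun p => ¬ p ≤ k), ((p : ℝ) ^ 2)⁻¹ ≤ (k : ℝ)⁻¹ := by
      rcases le_or_gt k Y with hkY | hkY
      · have h12 := sum_Ioc_inv_sq_le_sub (α := ℝ) (k := k) (n := Y) (by omega) hkY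
        have h13 : ∑ p ∈ (PY Y).filter (fun p => ¬ p ≤ k), ((p : ℝ) ^ 2)⁻¹ ≤
            ∑ p ∈ Ioc k Y, ((p : ℝ) ^ 2)⁻¹ := by
          apply Finset.sum_le_sum_of_subset_of_nonneg
          · intro p hp
            rw [mem_filter] at hp
            unfold PY at hp
            rw [mem_filter, mem_Icc] at hp
            rw [mem_Ioc]
            exact ⟨not_le.mp hp.2, hp.1.1.2⟩
          · intro p _ _
            positivity
        have h14 : (0 : ℝ) ≤ (Y : ℝ)⁻¹ := by positivity
        linarith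
      · have h15 : (PY Y).filter (fun p => ¬ p ≤ k) = ∅ := by
          rw [Finset.filter_eq_empty_iff]
          intro p hp
          unfold PY at hp
          rw [mem_filter, mem_Icc] at hp
          omega
        rw [h15, Finset.sum_empty]
        positivity
    calc 2 * (k : ℝ) * ∑ p ∈ (PY Y).filter (fun p => ¬ p ≤ k), ((p : ℝ) ^ 2)⁻¹
        ≤ 2 * (k : ℝ) * (k : ℝ)⁻¹ := by gcongr
      _ = 2 := by field_simp
  calc (∏ p ∈ (PY Y).filter (fun p => p ≤ k), (1 + wt k p / p)) *
        ∏ p ∈ (PY Y).filter (fun p => ¬ p ≤ k), (1 + wt k p / p)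
      ≤ Real.exp (k * (Real.log (Real.log k) + |C0|)) * Real.exp 2 := by
        apply mul_le_mul hsmall hlarge
        · apply Finset.prod_nonneg
          intro p _
          linarith [hfac1 p]
        · positivity
    _ = Real.exp (k * (Real.log (Real.log k) + |C0|) + 2) := by rw [Real.exp_add]
    _ ≤ Real.exp (k * (Real.log (Real.log k) + (|C0| + 2))) := by
        apply Real.exp_le_exp.mpr
        nlinarith
    _ = (Real.exp (|C0| + 2) * Real.log k) ^ k := by
        rw [Real.exp_nat_mul, Real.exp_add (Real.log (Real.log k)), Real.exp_log hlogk]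
        ring

end Pool.Agent.H197R2.PG
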