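import Pool.Agent.H197R2.PG3

set_option autoImplicit false

open Finset

namespace Pool.Agent.H197R2.PG

lemma gg_two_mul_le (h : ℕ) (hh : 0 < h) : gg (2 * h) ≤ 3 / 2 * gg h := by
  classical
  unfold gg
  have h1 : (2 * h).primeFactors = insert 2 h.primeFactors := by
    rw [Nat.primeFactors_mul (by norm_num) hh.ne', Nat.Prime.primeFactors Nat.prime_two]
    rfl
  rw [h1]
  have hg := one_le_gg h
  unfold gg at hg
  by_cases h2 : 2 ∈ h.primeFactors
  · rw [Finset.insert_eq_of_mem h2]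
    linarith
  · rw [Finset.prod_insert h2]
    have : (1 + 1 / ((2 : ℕ) : ℝ)) = 3 / 2 := by norm_num
    rw [this]

/-- number of pairs with a given distance -/
lemma sum_dist_le (S : Finset ℕ) (Y : ℕ) (hS : S ⊆ Icc 1 Y) (F : ℕ → ℝ) (hF : ∀ n, 0 ≤ F n) :
    ∑ x ∈ S.offDiag, F (Nat.dist x.1 x.2) ≤ 2 * #S * ∑ h ∈ Icc 1 Y, F h := by
  classical
  have h0 : S.offDiag ⊆ (S ×ˢ S).filter (fun x => x.1 < x.2) ∪ (S ×ˢ S).filter (fun x => x.2 < x.1) := by
    intro x hx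
    rw [mem_offDiag] at hx
    rw [mem_union, mem_filter, mem_filter, mem_product]
    rcases lt_or_gt_of_ne hx.2.2 with h | h
    · exact Or.inl ⟨⟨hx.1, hx.2.1⟩, h⟩
    · exact Or.inr ⟨⟨hx.1, hx.2.1⟩, h⟩
  have key : ∀ a ∈ S, ∀ T : Finset ℕ, T ⊆ S → (∀ b ∈ T, a ≠ b) → Set.InjOn (fun b => Nat.dist a b) T →
      ∑ b ∈ T, F (Nat.dist a b) ≤ ∑ h ∈ Icc 1 Y, F h := by
    intro a ha T hT hne hinj
    rw [← Finset.sum_image (f := F) hinj]
    apply Finset.sum_le_sum_of_subset_of_nonneg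
    · intro d hd
      obtain ⟨b, hb, rfl⟩ := mem_image.mp hd
      have h1 := mem_Icc.mp (hS ha)
      have h2 := mem_Icc.mp (hS (hT hb))
      have h3 := hne b hb
      rw [mem_Icc]
      unfold Nat.dist
      omega
    · intro d _ _
      exact hF d
  have hfst : ∑ x ∈ (S ×ˢ S).filter (fun x => x.1 < x.2), F (Nat.dist x.1 x.2) ≤
      #S * ∑ h ∈ Icc 1 Y, F h := by
    rw [Finset.sum_filter, Finset.sum_product, ← nsmul_eq_mul, ← Finset.sum_const]
    apply Finset.sum_le_sum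
    intro a ha
    rw [← Finset.sum_filter]
    apply key a ha _ (Finset.filter_subset _ _)
    · intro b hb
      exact (mem_filter.mp hb).2.ne
    · intro b hb c hc hbc
      have hb' := (mem_filter.mp (mem_coe.mp hb)).2
      have hc' := (mem_filter.mp (mem_coe.mp hc)).2
      simp only [Nat.dist] at hbc
      omega
  have hsnd : ∑ x ∈ (S ×ˢ S).filter (fun x => x.2 < x.1), F (Nat.dist x.1 x.2) ≤
      #S * ∑ h ∈ Icc 1 Y, F h := by
    rw [Finset.sum_filter, Finset.sum_product, ← nsmul_eq_mul, ← Finset.sum_const]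
    apply Finset.sum_le_sum
    intro a ha
    rw [← Finset.sum_filter]
    apply key a ha _ (Finset.filter_subset _ _)
    · intro b hb
      exact (mem_filter.mp hb).2.ne'
    · intro b hb c hc hbc
      have hb' := (mem_filter.mp (mem_coe.mp hb)).2
      have hc' := (mem_filter.mp (mem_coe.mp hc)).2
      simp only [Nat.dist] at hbc
      omega
  calc ∑ x ∈ S.offDiag, F (Nat.dist x.1 x.2)
      ≤ ∑ x ∈ (S ×ˢ S).filter (fun x => x.1 < x.2) ∪ (S ×ˢ S).filter (fun x => x.2 < x.1),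
          F (Nat.dist x.1 x.2) :=
        Finset.sum_le_sum_of_subset_of_nonneg h0 (fun _ _ _ => hF _)
    _ ≤ ∑ x ∈ (S ×ˢ S).filter (fun x => x.1 < x.2), F (Nat.dist x.1 x.2) +
        ∑ x ∈ (S ×ˢ S).filter (fun x => x.2 < x.1), F (Nat.dist x.1 x.2) := by
        have := Finset.sum_union_inter (s₁ := (S ×ˢ S).filter (fun x => x.1 < x.2))
          (s₂ := (S ×ˢ S).filter (fun x => x.2 < x.1)) (f := fun x => F (Nat.dist x.1 x.2))
        have h1 : 0 ≤ ∑ x ∈ (S ×ˢ S).filter (fun x => x.1 < x.2) ∩ (S ×ˢ S).filter (fun x => x.2 < x.1),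
          F (Nat.dist x.1 x.2) := Finset.sum_nonneg (fun _ _ => hF _)
        linarith
    _ ≤ 2 * #S * ∑ h ∈ Icc 1 Y, F h := by linarith

/-- The average of the singular factor over the differences of a fairly dense set. -/
theorem pair_avg : ∃ C : ℝ, 1 ≤ C ∧ ∀ (k Y : ℕ) (S : Finset ℕ) (E : ℝ), 3 ≤ k → S ⊆ Icc 1 Y →
    0 ≤ E → 2 * (Y : ℝ) ≤ E ^ k * #S →
    ∑ x ∈ S.offDiag, gg (2 * Nat.dist x.1 x.2) ≤ C * E * Real.log k * (#S : ℝ) ^ 2 := by
  classical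
  obtain ⟨C, hC, hE⟩ := euler_le
  refine ⟨3 / 2 * C, by linarith, ?_⟩
  intro k Y S E hk hS hE0 hYE
  have hk3 : (3 : ℝ) ≤ k := by exact_mod_cast hk
  have hlogk : 0 < Real.log k := Real.log_pos (by linarith)
  set X := ∑ x ∈ S.offDiag, gg (2 * Nat.dist x.1 x.2) with hX
  have hK0 : (0 : ℝ) ≤ (#S : ℝ) := Nat.cast_nonneg _
  obtain ⟨m, rfl⟩ : ∃ m, k = m + 1 := ⟨k - 1, by omega⟩
  have h1 : X ^ (m + 1) ≤ (#S.offDiag : ℝ) ^ m * ∑ x ∈ S.offDiag, gg (2 * Nat.dist x.1 x.2) ^ (m + 1) :=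
    pow_sum_le_card_mul_sum_pow (fun x _ => by linarith [one_le_gg (2 * Nat.dist x.1 x.2)]) m
  have h2 : (#S.offDiag : ℝ) ≤ (#S : ℝ) ^ 2 := by
    have : #S.offDiag ≤ #S * #S := by
      rw [offDiag_card]
      exact Nat.sub_le _ _
    calc (#S.offDiag : ℝ) ≤ ((#S * #S : ℕ) : ℝ) := by exact_mod_cast this
      _ = (#S : ℝ) ^ 2 := by push_cast; ring
  have h3 : ∑ x ∈ S.offDiag, gg (2 * Nat.dist x.1 x.2) ^ (m + 1) ≤
      ∑ x ∈ S.offDiag, (fun n : ℕ => (3 / 2 : ℝ) ^ (m + 1) * gg n ^ (m + 1)) (Nat.dist x.1 x.2) := by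
    apply Finset.sum_le_sum
    intro x hx
    rw [mem_offDiag] at hx
    have hd : 0 < Nat.dist x.1 x.2 := Nat.dist_pos_of_ne hx.2.2
    have h4 := gg_two_mul_le _ hd
    simp only
    rw [← mul_pow]
    exact pow_le_pow_left₀ (by linarith [one_le_gg (2 * Nat.dist x.1 x.2)]) h4 _
  have h5 := sum_dist_le S Y hS (fun n : ℕ => (3 / 2 : ℝ) ^ (m + 1) * gg n ^ (m + 1))
    (fun n => mul_nonneg (by positivity) (pow_nonneg (by linarith [one_le_gg n]) _))
  have h6 : ∑ h ∈ Icc 1 Y, (3 / 2 : ℝ) ^ (m + 1) * gg h ^ (m + 1) ≤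
      (3 / 2 : ℝ) ^ (m + 1) * (Y * (C * Real.log ((m + 1 : ℕ) : ℝ)) ^ (m + 1)) := by
    rw [← Finset.mul_sum]
    apply mul_le_mul_of_nonneg_left _ (by positivity)
    exact (moment_le (m + 1) Y).trans (mul_le_mul_of_nonneg_left (hE (m + 1) Y hk) (Nat.cast_nonneg _))
  set W : ℝ := C * Real.log ((m + 1 : ℕ) : ℝ) with hW
  have hW0 : 0 ≤ W := by positivity
  have h7 : X ^ (m + 1) ≤ (3 / 2 * C * E * Real.log ((m + 1 : ℕ) : ℝ) * (#S : ℝ) ^ 2) ^ (m + 1) := by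
    calc X ^ (m + 1) ≤ (#S.offDiag : ℝ) ^ m * ∑ x ∈ S.offDiag, gg (2 * Nat.dist x.1 x.2) ^ (m + 1) := h1
      _ ≤ ((#S : ℝ) ^ 2) ^ m * (2 * #S * ((3 / 2 : ℝ) ^ (m + 1) * (Y * W ^ (m + 1)))) := by
          apply mul_le_mul
          · gcongr
          · refine h3.trans (h5.trans ?_)
            apply mul_le_mul_of_nonneg_left h6 (by positivity)
          · apply Finset.sum_nonneg
            intro x _
            exact pow_nonneg (by linarith [one_le_gg (2 * Nat.dist x.1 x.2)]) _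
          · positivity
      _ = ((#S : ℝ) ^ 2) ^ m * ((3 / 2 : ℝ) ^ (m + 1) * W ^ (m + 1) * #S * (2 * Y)) := by ring
      _ ≤ ((#S : ℝ) ^ 2) ^ m * ((3 / 2 : ℝ) ^ (m + 1) * W ^ (m + 1) * #S * (E ^ (m + 1) * #S)) := by
          gcongr
      _ = (3 / 2 * C * E * Real.log ((m + 1 : ℕ) : ℝ) * (#S : ℝ) ^ 2) ^ (m + 1) := by
          rw [hW]
          simp only [mul_pow]
          ring
  exact le_of_pow_le_pow_left₀ (by omega) (by positivity) h7

end Pool.Agent.H197R2.PG
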