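import Pool.Agent.H197R2.PG2
import Pool.Agent.H197R2.PG4

set_option autoImplicit false

open Finset

namespace Pool.Agent.H197R2.PG

/-- the odd primes up to `x` -/
noncomputable def QQ (x : ℕ) : Finset ℕ := (Ioc 2 x).filter Nat.Prime

/-- the integers `n` in `[3, x]` with `2 n = a + q`, `a` in `S` and `q` prime -/
noncomputable def RR (S : Finset ℕ) (x : ℕ) : Finset ℕ := by
  classical
  exact (Icc 3 x).filter (fun n => ∃ a ∈ S, ∃ q : ℕ, q.Prime ∧ a + q = 2 * n)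

lemma cnt_le (x a b : ℕ) (hab : b < a) :
    ∑ q ∈ QQ x, #((QQ x).filter (fun q' => b + q' = a + q)) ≤
      #((Ioc 0 (0 + x)).filter (fun n => n.Prime ∧ (n + (a - b)).Prime)) := by
  classical
  have h1 : ∀ q ∈ QQ x, #((QQ x).filter (fun q' => b + q' = a + q)) ≤
      if (q + (a - b)).Prime then 1 else 0 := by
    intro q _
    split_ifs with h
    · apply Finset.card_le_one.mpr
      intro u hu v hv
      have h2 := (mem_filter.mp hu).2
      have h3 := (mem_filter.mp hv).2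
      omega
    · rw [Nat.le_zero, Finset.card_eq_zero, Finset.filter_eq_empty_iff]
      intro q' hq' h4
      apply h
      have h5 : q + (a - b) = q' := by omega
      rw [h5]
      exact (mem_filter.mp hq').2
  refine (Finset.sum_le_sum h1).trans ?_
  rw [← Finset.card_filter]
  apply Finset.card_le_card
  intro q hq
  rw [mem_filter] at hq
  have h6 := hq.1
  unfold QQ at h6
  rw [mem_filter, mem_Ioc] at h6
  rw [mem_filter, mem_Ioc]
  exact ⟨⟨by omega, by omega⟩, h6.2, hq.2⟩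

lemma cnt_swap (x a b : ℕ) :
    ∑ q ∈ QQ x, #((QQ x).filter (fun q' => b + q' = a + q)) =
      ∑ q ∈ QQ x, #((QQ x).filter (fun q' => a + q' = b + q)) := by
  classical
  simp only [Finset.card_filter]
  rw [Finset.sum_comm]
  apply Finset.sum_congr rfl
  intro q _
  apply Finset.sum_congr rfl
  intro q' _
  simp only [eq_comm]

lemma cnt_self (x a : ℕ) :
    ∑ q ∈ QQ x, #((QQ x).filter (fun q' => a + q' = a + q)) ≤ #(QQ x) := by
  classical
  rw [Finset.card_eq_sum_ones]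
  apply Finset.sum_le_sum
  intro q _
  apply Finset.card_le_one.mpr
  intro u hu v hv
  have h2 := (mem_filter.mp hu).2
  have h3 := (mem_filter.mp hv).2
  omega

theorem second_moment : ∃ C : ℝ, 1 ≤ C ∧ ∃ u0 : ℕ, ∀ (x Y : ℕ) (S : Finset ℕ), u0 ≤ x →
    2 * (Y : ℝ) ≤ (x : ℝ) ^ (1 / 16 : ℝ) → S ⊆ Icc 1 Y → (∀ a ∈ S, 3 ≤ a ∧ a % 2 = 1) →
    ((#S : ℝ) * #(QQ x)) ^ 2 ≤ #(RR S x) * ((#S : ℝ) * #(QQ x) +
      C * (∑ z ∈ S.offDiag, gg (2 * Nat.dist z.1 z.2)) * x / Real.log x ^ 2) := by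
  classical
  obtain ⟨C, hC, u0, hps⟩ := pair_sieve_sharp
  refine ⟨C, hC, max u0 1, ?_⟩
  intro x Y S hx hY hS hodd
  have hx1 : 1 ≤ x := (le_max_right _ _).trans hx
  have hxu : u0 ≤ x := (le_max_left _ _).trans hx
  have hx1' : (1 : ℝ) ≤ x := by exact_mod_cast hx1
  have hYx : Y ≤ x := by
    have h1 : (x : ℝ) ^ (1 / 16 : ℝ) ≤ (x : ℝ) ^ (1 : ℝ) :=
      Real.rpow_le_rpow_of_exponent_le hx1' (by norm_num)
    rw [Real.rpow_one] at h1
    have h2 : (0 : ℝ) ≤ Y := Nat.cast_nonneg _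
    have h3 : (Y : ℝ) ≤ x := by linarith
    exact_mod_cast h3
  set Q := QQ x with hQ
  set Pairs := S ×ˢ Q with hPairs
  set f : ℕ × ℕ → ℕ := fun z => z.1 + z.2 with hf
  set I := Pairs.image f with hI
  set r : ℕ → ℕ := fun m => #(Pairs.filter (fun z => f z = m)) with hr
  have hcardP : #Pairs = ∑ m ∈ I, r m := Finset.card_eq_sum_card_image f Pairs
  have hcardP' : (#Pairs : ℝ) = (#S : ℝ) * #Q := by
    rw [hPairs, Finset.card_product]
    push_cast
    rfl
  have hCS : (#Pairs : ℝ) ^ 2 ≤ #I * ∑ m ∈ I, (r m : ℝ) ^ 2 := by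
    rw [hcardP]
    push_cast
    exact sq_sum_le_card_mul_sum_sq
  -- the second moment
  have hmom : ∑ m ∈ I, (r m : ℝ) ^ 2 ≤ (#S : ℝ) * #Q +
      C * (∑ z ∈ S.offDiag, gg (2 * Nat.dist z.1 z.2)) * x / Real.log x ^ 2 := by
    have e1 : ∑ m ∈ I, (r m) ^ 2 = ∑ z ∈ Pairs, r (f z) := by
      rw [Finset.sum_comp r f]
      apply Finset.sum_congr rfl
      intro m _
      rw [smul_eq_mul, sq]
    have e2 : ∑ z ∈ Pairs, r (f z) = ∑ a ∈ S, ∑ b ∈ S,
        ∑ q ∈ Q, #(Q.filter (fun q' => b + q' = a + q)) := by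
      rw [hPairs, Finset.sum_product]
      apply Finset.sum_congr rfl
      intro a _
      rw [Finset.sum_comm]
      apply Finset.sum_congr rfl
      intro q _
      simp only [hr, hf, Finset.card_filter, hPairs]
      rw [Finset.sum_product]
    have e3 : ∑ a ∈ S, ∑ b ∈ S, ∑ q ∈ Q, #(Q.filter (fun q' => b + q' = a + q)) =
        ∑ z ∈ S ×ˢ S, ∑ q ∈ Q, #(Q.filter (fun q' => z.2 + q' = z.1 + q)) := by
      rw [Finset.sum_product]
    have e4 : ∑ z ∈ S ×ˢ S, ∑ q ∈ Q, #(Q.filter (fun q' => z.2 + q' = z.1 + q)) =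
        ∑ z ∈ S.diag, ∑ q ∈ Q, #(Q.filter (fun q' => z.2 + q' = z.1 + q)) +
        ∑ z ∈ S.offDiag, ∑ q ∈ Q, #(Q.filter (fun q' => z.2 + q' = z.1 + q)) := by
      rw [← Finset.diag_union_offDiag, Finset.sum_union (Finset.disjoint_diag_offDiag S)]
    have e5 : ∑ z ∈ S.diag, ∑ q ∈ Q, #(Q.filter (fun q' => z.2 + q' = z.1 + q)) ≤ #S * #Q := by
      rw [← Finset.diag_card S, ← smul_eq_mul, ← Finset.sum_const]
      apply Finset.sum_le_sum
      intro z hz
      rw [Finset.mem_diag] at hz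
      rw [← hz.2]
      exact cnt_self x z.1
    have e6 : ∀ z ∈ S.offDiag, ((∑ q ∈ Q, #(Q.filter (fun q' => z.2 + q' = z.1 + q)) : ℕ) : ℝ) ≤
        C * gg (2 * Nat.dist z.1 z.2) * x / Real.log x ^ 2 := by
      intro z hz
      rw [mem_offDiag] at hz
      have hz1 := mem_Icc.mp (hS hz.1)
      have hz2 := mem_Icc.mp (hS hz.2.1)
      have hd0 : 0 < Nat.dist z.1 z.2 := Nat.dist_pos_of_ne hz.2.2
      have hdY : Nat.dist z.1 z.2 ≤ Y := by
        unfold Nat.dist
        omega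
      have hdY' : 2 * (Nat.dist z.1 z.2 : ℝ) ≤ (x : ℝ) ^ (1 / 16 : ℝ) := by
        have : (Nat.dist z.1 z.2 : ℝ) ≤ Y := by exact_mod_cast hdY
        linarith
      have hbound := hps (Nat.dist z.1 z.2) 0 x hd0 hxu hdY'
      have hcnt : ∑ q ∈ Q, #(Q.filter (fun q' => z.2 + q' = z.1 + q)) ≤
          #((Ioc 0 (0 + x)).filter (fun n => n.Prime ∧ (n + Nat.dist z.1 z.2).Prime)) := by
        rcases lt_or_gt_of_ne hz.2.2 with h | h
        · have e : Nat.dist z.1 z.2 = z.2 - z.1 := Nat.dist_eq_sub_of_le h.le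
          rw [e, hQ, cnt_swap]
          exact cnt_le x z.2 z.1 h
        · have e : Nat.dist z.1 z.2 = z.1 - z.2 := Nat.dist_eq_sub_of_le_right h.le
          rw [e]
          exact cnt_le x z.1 z.2 h
      calc ((∑ q ∈ Q, #(Q.filter (fun q' => z.2 + q' = z.1 + q)) : ℕ) : ℝ)
          ≤ (#((Ioc 0 (0 + x)).filter (fun n => n.Prime ∧ (n + Nat.dist z.1 z.2).Prime)) : ℝ) := by
            exact_mod_cast hcnt
        _ ≤ _ := hbound
    have e7 : ∑ m ∈ I, (r m : ℝ) ^ 2 = ((∑ m ∈ I, (r m) ^ 2 : ℕ) : ℝ) := by push_cast; rfl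
    rw [e7, e1, e2, e3, e4]
    push_cast
    have e8 : (∑ z ∈ S.diag, ∑ q ∈ Q, (#(Q.filter (fun q' => z.2 + q' = z.1 + q)) : ℝ)) ≤
        (#S : ℝ) * #Q := by exact_mod_cast e5
    have e9 : (∑ z ∈ S.offDiag, ∑ q ∈ Q, (#(Q.filter (fun q' => z.2 + q' = z.1 + q)) : ℝ)) ≤
        C * (∑ z ∈ S.offDiag, gg (2 * Nat.dist z.1 z.2)) * x / Real.log x ^ 2 := by
      have e10 : C * (∑ z ∈ S.offDiag, gg (2 * Nat.dist z.1 z.2)) * x / Real.log x ^ 2 =
          ∑ z ∈ S.offDiag, C * gg (2 * Nat.dist z.1 z.2) * x / Real.log x ^ 2 := by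
        rw [Finset.mul_sum, Finset.sum_mul, Finset.sum_div]
      rw [e10]
      apply Finset.sum_le_sum
      intro z hz
      have := e6 z hz
      push_cast at this
      exact this
    linarith
  -- the support
  have hsupp : #I ≤ #(RR S x) := by
    have h1 : I ⊆ (RR S x).image (fun n => 2 * n) := by
      intro m hm
      obtain ⟨z, hz, rfl⟩ := mem_image.mp hm
      rw [hPairs, mem_product] at hz
      obtain ⟨hz1, hz2⟩ := hz
      rw [hQ] at hz2
      unfold QQ at hz2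
      rw [mem_filter, mem_Ioc] at hz2
      obtain ⟨⟨h2, h3⟩, h4⟩ := hz2
      have h5 := hodd z.1 hz1
      have h6 := mem_Icc.mp (hS hz1)
      have h7 : z.2 % 2 = 1 := by
        rcases h4.eq_two_or_odd with h | h
        · omega
        · exact h
      rw [mem_image]
      refine ⟨(z.1 + z.2) / 2, ?_, ?_⟩
      · unfold RR
        rw [mem_filter, mem_Icc]
        refine ⟨⟨by omega, by omega⟩, z.1, hz1, z.2, h4, ?_⟩
        omega
      · simp only [hf]
        omega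
    exact (Finset.card_le_card h1).trans Finset.card_image_le
  have hmom0 : 0 ≤ ∑ m ∈ I, (r m : ℝ) ^ 2 := Finset.sum_nonneg (fun _ _ => by positivity)
  rw [← hcardP']
  refine hCS.trans ?_
  have hsupp' : (#I : ℝ) ≤ #(RR S x) := by exact_mod_cast hsupp
  rw [hcardP']
  apply mul_le_mul hsupp' hmom hmom0 (Nat.cast_nonneg _)

end Pool.Agent.H197R2.PG
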