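import Pool.Agent.H197R2.PG5

set_option autoImplicit false

open Finset Filter Topology

namespace Pool.Agent.H197R2.PG

lemma QQ_card : ∀ᶠ x : ℕ in atTop, (x : ℝ) / (2 * Real.log x) ≤ #(QQ x) := by
  have h1 : ∀ᶠ t : ℝ in atTop, Real.log t ≤ (1 / 20) * t := by
    have := Real.isLittleO_log_id_atTop.bound (by norm_num : (0 : ℝ) < 1 / 20)
    filter_upwards [this, eventually_ge_atTop 1] with t ht ht1
    rw [Real.norm_of_nonneg (Real.log_nonneg ht1)] at ht
    simp only [id] at ht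
    rw [Real.norm_of_nonneg (by linarith)] at ht
    exact ht
  have h2 := (tendsto_natCast_atTop_atTop (R := ℝ)).eventually h1
  have h3 := (tendsto_natCast_atTop_atTop (R := ℝ)).eventually
    ((tendsto_atTop_add_const_right atTop (1 : ℝ) tendsto_id).eventually h1)
  filter_upwards [h2, h3, eventually_ge_atTop 10] with x h2 h3 hx
  simp only [id] at h3
  have hx10 : (10 : ℝ) ≤ x := by exact_mod_cast hx
  have hlog : 0 < Real.log x := Real.log_pos (by linarith)
  have h4 := Chebyshev.pi_ge x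
  have h5 : Nat.primeCounting x ≤ #(QQ x) + 1 := by
    classical
    rw [Nat.primeCounting, Nat.primeCounting', Nat.count_eq_card_filter_range]
    have h6 : (range (x + 1)).filter Nat.Prime ⊆ insert 2 (QQ x) := by
      intro p hp
      rw [mem_filter, mem_range] at hp
      rw [mem_insert]
      unfold QQ
      rw [mem_filter, mem_Ioc]
      by_cases h : p = 2
      · exact Or.inl h
      · right
        have := hp.2.two_le
        exact ⟨⟨by omega, by omega⟩, hp.2⟩
    exact (Finset.card_le_card h6).trans (Finset.card_insert_le _ _)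
  have h5' : (Nat.primeCounting x : ℝ) ≤ #(QQ x) + 1 := by exact_mod_cast h5
  have h7 : (x : ℝ) / (2 * Real.log x) + 1 ≤ (x * Real.log 2 - Real.log (x + 1)) / Real.log x := by
    rw [le_div_iff₀ hlog]
    have h8 : ((x : ℝ) / (2 * Real.log x) + 1) * Real.log x = x / 2 + Real.log x := by
      field_simp
    rw [h8]
    have h9 := Real.log_two_gt_d9
    nlinarith
  linarith

lemma ev_exp : ∀ᶠ L : ℝ in atTop, 2 * L ^ 2 ≤ Real.exp (L / 16) := by
  have h1 := (Real.tendsto_exp_div_pow_atTop 2).eventually_ge_atTop 512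
  have h2 : Tendsto (fun L : ℝ => L / 16) atTop atTop :=
    tendsto_id.atTop_div_const (by norm_num)
  filter_upwards [h2.eventually h1, eventually_gt_atTop 0] with L h hL
  rw [le_div_iff₀ (by positivity)] at h
  nlinarith

lemma ev_log (B : ℕ) : ∀ᶠ L : ℝ in atTop, (2 * Real.log L) ^ B ≤ L / 2 := by
  have h1 := (Real.isLittleO_pow_log_id_atTop (n := B)).bound
    (by positivity : (0 : ℝ) < 1 / (2 * 2 ^ B))
  filter_upwards [h1, eventually_ge_atTop 1] with L h hL
  have hl : 0 ≤ Real.log L := Real.log_nonneg hL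
  rw [Real.norm_of_nonneg (by positivity)] at h
  simp only [id] at h
  rw [Real.norm_of_nonneg (by linarith)] at h
  rw [mul_pow]
  calc (2 : ℝ) ^ B * Real.log L ^ B ≤ 2 ^ B * (1 / (2 * 2 ^ B) * L) := by gcongr
    _ = L / 2 := by field_simp

/-- Sums of a prime and an element of a fairly dense set of odd numbers. -/
theorem romanoff (B : ℕ) (A : Set ℕ) (hA : ∀ a ∈ A, 3 ≤ a ∧ a % 2 = 1)
    (hd : ∃ y0 : ℕ, ∀ y : ℕ, y0 ≤ y → ∃ S : Finset ℕ, S ⊆ Icc 1 y ∧ (∀ a ∈ S, a ∈ A) ∧
      (y : ℝ) ≤ #S * Real.log y ^ B) :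
    ∃ c : ℝ, 0 < c ∧ ∃ x0 : ℕ, ∀ x : ℕ, x0 ≤ x → ∃ T : Finset ℕ, T ⊆ Icc 3 x ∧
      (∀ n ∈ T, ∃ a ∈ A, ∃ q : ℕ, q.Prime ∧ a + q = 2 * n) ∧
      c * x / Real.log (Real.log (Real.log (Real.log x))) ≤ #T := by
  classical
  obtain ⟨y0, hd⟩ := hd
  obtain ⟨C1, hC1, hpa⟩ := pair_avg
  obtain ⟨C2, hC2, u0, hsm⟩ := second_moment
  set E : ℝ := Real.exp (B + 1) with hE
  have hE0 : 0 < E := Real.exp_pos _
  set D' : ℝ := C2 * (C1 * E * 2) with hD'
  have hD'0 : 0 < D' := by positivity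
  refine ⟨1 / (2 + 4 * D'), by positivity, ?_⟩
  have hlogt : Tendsto (fun x : ℕ => Real.log (x : ℝ)) atTop atTop :=
    Real.tendsto_log_atTop.comp tendsto_natCast_atTop_atTop
  have hloglog : Tendsto (fun L : ℝ => Real.log (Real.log L)) atTop atTop :=
    Real.tendsto_log_atTop.comp Real.tendsto_log_atTop
  have hlogloglog : Tendsto (fun L : ℝ => Real.log (Real.log (Real.log L))) atTop atTop :=
    Real.tendsto_log_atTop.comp hloglog
  have ev : ∀ᶠ L : ℝ in atTop, 2 * L ^ 2 ≤ Real.exp (L / 16) ∧ (2 * Real.log L) ^ B ≤ L / 2 ∧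
      3 ≤ Real.log (Real.log L) ∧ 1 ≤ Real.log (Real.log (Real.log L)) ∧ (y0 : ℝ) + 2 ≤ L := by
    filter_upwards [ev_exp, ev_log B, hloglog.eventually_ge_atTop 3,
      hlogloglog.eventually_ge_atTop 1, eventually_ge_atTop ((y0 : ℝ) + 2)] with L h1 h2 h3 h4 h5
    exact ⟨h1, h2, h3, h4, h5⟩
  have ev2 := hlogt.eventually ev
  obtain ⟨x0, hx0⟩ := eventually_atTop.mp (ev2.and (QQ_card.and
    ((eventually_ge_atTop u0).and (eventually_ge_atTop 10))))
  refine ⟨x0, fun x hx => ?_⟩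
  obtain ⟨⟨f1, f2, f3, f4, f5⟩, hQ, hxu, hx10⟩ := hx0 x hx
  set L := Real.log (x : ℝ) with hL
  have hL2 : (2 : ℝ) ≤ L := by
    have : (0 : ℝ) ≤ y0 := Nat.cast_nonneg _
    linarith
  have hL0 : 0 < L := by linarith
  have hxpos : (0 : ℝ) < x := by exact_mod_cast (by omega : 0 < x)
  set Y : ℕ := ⌊L ^ 2⌋₊ with hY
  have hYle : (Y : ℝ) ≤ L ^ 2 := Nat.floor_le (by positivity)
  have hYge : L ^ 2 / 2 ≤ Y := by
    have := Nat.lt_floor_add_one (L ^ 2)
    rw [← hY] at this
    nlinarith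
  have hYL : L ≤ Y := by nlinarith
  have hYy0 : y0 ≤ Y := by
    have : (y0 : ℝ) ≤ Y := by linarith
    exact_mod_cast this
  have hY0 : (0 : ℝ) < Y := by linarith
  obtain ⟨S, hSY, hSA, hSK⟩ := hd Y hYy0
  have hY116 : 2 * (Y : ℝ) ≤ (x : ℝ) ^ (1 / 16 : ℝ) := by
    have e1 : (x : ℝ) ^ (1 / 16 : ℝ) = Real.exp (L / 16) := by
      rw [Real.rpow_def_of_pos hxpos, ← hL]
      congr 1
      ring
    rw [e1]
    linarith
  have hmain := hsm x Y S hxu hY116 hSY (fun a ha => hA a (hSA a ha))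
  -- logarithms of `Y`
  have hlogY : Real.log Y ≤ 2 * Real.log L := by
    have : Real.log Y ≤ Real.log (L ^ 2) := Real.log_le_log hY0 hYle
    rw [Real.log_pow] at this
    exact_mod_cast this
  have hlogY1 : 0 ≤ Real.log Y := Real.log_nonneg (by linarith)
  have hKL : L ≤ #S := by
    have h1 : Real.log Y ^ B ≤ L / 2 := (pow_le_pow_left₀ hlogY1 hlogY B).trans f2
    have h2 : (Y : ℝ) ≤ #S * (L / 2) := hSK.trans (by gcongr)
    have h3 : L ^ 2 / 2 ≤ #S * (L / 2) := hYge.trans h2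
    have h4 : L * (L / 2) ≤ #S * (L / 2) := by
      calc L * (L / 2) = L ^ 2 / 2 := by ring
        _ ≤ _ := h3
    exact le_of_mul_le_mul_right h4 (by linarith)
  have hK0 : (0 : ℝ) < #S := by linarith
  -- the exponent
  have hlogL0 : 0 < Real.log L := Real.log_pos (by linarith)
  have hlogLbig : 1 < Real.log L := by
    by_contra hcon
    push Not at hcon
    have := Real.log_nonpos hlogL0.le hcon
    linarith
  have hlogYpos : 0 < Real.log Y := Real.log_pos (by linarith)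
  have hllY : Real.log (Real.log Y) ≤ 1 + Real.log (Real.log L) := by
    have h1 : Real.log (Real.log Y) ≤ Real.log (2 * Real.log L) := Real.log_le_log hlogYpos hlogY
    rw [Real.log_mul (by norm_num) hlogL0.ne'] at h1
    have h2 := Real.log_two_lt_d9
    linarith
  set k : ℕ := ⌈Real.log (Real.log Y)⌉₊ + 3 with hk
  have hk3 : 3 ≤ k := by omega
  have hkge : Real.log (Real.log Y) ≤ k := by
    have := Nat.le_ceil (Real.log (Real.log Y))
    rw [hk]
    push_cast
    linarith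
  have hkle : (k : ℝ) ≤ Real.log (Real.log L) + 5 := by
    have h1 : (⌈Real.log (Real.log Y)⌉₊ : ℝ) ≤ Real.log (Real.log L) + 2 := by
      rcases le_or_gt 0 (Real.log (Real.log Y)) with h | h
      · have := Nat.ceil_lt_add_one h
        linarith
      · have : ⌈Real.log (Real.log Y)⌉₊ = 0 := Nat.ceil_eq_zero.mpr h.le
        rw [this]
        push_cast
        linarith
    rw [hk]
    push_cast
    linarith
  have hk1 : (1 : ℝ) ≤ k := by exact_mod_cast (by omega : 1 ≤ k)
  have hlogk : Real.log k ≤ 2 * Real.log (Real.log (Real.log L)) := by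
    have h1 : (k : ℝ) ≤ Real.log (Real.log L) ^ 2 := by nlinarith
    have h2 : Real.log k ≤ Real.log (Real.log (Real.log L) ^ 2) := Real.log_le_log (by linarith) h1
    rw [Real.log_pow] at h2
    exact_mod_cast h2
  have hEk : 2 * (Y : ℝ) ≤ E ^ k * #S := by
    have h1 : Real.log Y ^ B ≤ Real.exp (B * k) := by
      calc Real.log Y ^ B = Real.exp (B * Real.log (Real.log Y)) := by
            rw [Real.exp_nat_mul, Real.exp_log hlogYpos]
        _ ≤ Real.exp (B * k) := by
            apply Real.exp_le_exp.mpr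
            gcongr
    have h2 : (2 : ℝ) ≤ Real.exp k := by
      have := Real.add_one_le_exp (k : ℝ)
      linarith
    have h3 : E ^ k = Real.exp k * Real.exp (B * k) := by
      rw [hE, ← Real.exp_nat_mul, ← Real.exp_add]
      congr 1
      ring
    calc 2 * (Y : ℝ) ≤ 2 * (#S * Real.log Y ^ B) := by gcongr
      _ = 2 * Real.log Y ^ B * #S := by ring
      _ ≤ Real.exp k * Real.exp (B * k) * #S := by gcongr
      _ = E ^ k * #S := by rw [h3]
  have havg := hpa k Y S E hk3 hSY hE0.le hEk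
  -- final computation
  set K : ℝ := (#S : ℝ) with hKdef
  set t : ℝ := K * #(QQ x) with ht
  set l4 : ℝ := Real.log (Real.log (Real.log L)) with hl4
  have ht1 : K * x / (2 * L) ≤ t := by
    rw [ht]
    calc K * x / (2 * L) = K * (x / (2 * L)) := by ring
      _ ≤ _ := mul_le_mul_of_nonneg_left hQ hK0.le
  have htpos : 0 < t := lt_of_lt_of_le (by positivity) ht1
  have ht2 : (x : ℝ) / 2 ≤ t := by
    refine le_trans ?_ ht1
    rw [div_le_div_iff₀ (by norm_num) (by positivity)]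
    nlinarith
  have hZ : C2 * (∑ z ∈ S.offDiag, gg (2 * Nat.dist z.1 z.2)) * x / L ^ 2 ≤
      4 * (D' * l4) * t ^ 2 / x := by
    have h1 : C2 * (∑ z ∈ S.offDiag, gg (2 * Nat.dist z.1 z.2)) * x / L ^ 2 ≤
        C2 * (C1 * E * (2 * l4) * K ^ 2) * x / L ^ 2 := by
      gcongr
      refine havg.trans ?_
      gcongr
    refine h1.trans ?_
    have h2 : (K * x / (2 * L)) ^ 2 ≤ t ^ 2 := by gcongr
    have h3 : C2 * (C1 * E * (2 * l4) * K ^ 2) * x / L ^ 2 =
        4 * (D' * l4) * (K * x / (2 * L)) ^ 2 / x := by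
      rw [hD']
      field_simp
      ring
    rw [h3]
    gcongr
  have ht3 : t ≤ 2 * t ^ 2 / x := by
    rw [le_div_iff₀ hxpos]
    nlinarith
  have hfin : (x : ℝ) ≤ #(RR S x) * ((2 + 4 * D') * l4) := by
    have h1 : t ^ 2 ≤ #(RR S x) * (((2 + 4 * D') * l4) * t ^ 2 / x) := by
      refine hmain.trans ?_
      apply mul_le_mul_of_nonneg_left _ (Nat.cast_nonneg _)
      have h2 : 2 * t ^ 2 / x ≤ 2 * l4 * t ^ 2 / x := by
        gcongr
        linarith
      calc t + C2 * (∑ z ∈ S.offDiag, gg (2 * Nat.dist z.1 z.2)) * x / L ^ 2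
          ≤ 2 * l4 * t ^ 2 / x + 4 * (D' * l4) * t ^ 2 / x := by linarith
        _ = ((2 + 4 * D') * l4) * t ^ 2 / x := by ring
    have h3 : t ^ 2 * x ≤ t ^ 2 * (#(RR S x) * ((2 + 4 * D') * l4)) := by
      calc t ^ 2 * x ≤ (#(RR S x) * (((2 + 4 * D') * l4) * t ^ 2 / x)) * x := by gcongr
        _ = t ^ 2 * (#(RR S x) * ((2 + 4 * D') * l4)) := by field_simp
    exact le_of_mul_le_mul_left h3 (by positivity)
  refine ⟨RR S x, ?_, ?_, ?_⟩
  · unfold RR
    exact Finset.filter_subset _ _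
  · intro n hn
    unfold RR at hn
    obtain ⟨a, ha, q, hq, hqa⟩ := (mem_filter.mp hn).2
    exact ⟨a, hSA a ha, q, hq, hqa⟩
  · rw [div_le_iff₀ (by linarith)]
    rw [one_div, inv_mul_le_iff₀ (by positivity)]
    calc (x : ℝ) ≤ #(RR S x) * ((2 + 4 * D') * l4) := hfin
      _ = (2 + 4 * D') * (#(RR S x) * l4) := by ring

end Pool.Agent.H197R2.PG
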