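import Pool.Agent.H197R2.PG6

set_option autoImplicit false

open Finset Filter Topology

namespace Pool.Agent.H197R2.PG

lemma pi_lower : ∀ᶠ y : ℕ in atTop, (y : ℝ) ≤ Nat.primeCounting y * Real.log y ^ 2 := by
  have h1 : Tendsto (fun x : ℕ => Real.log (x : ℝ)) atTop atTop :=
    Real.tendsto_log_atTop.comp tendsto_natCast_atTop_atTop
  filter_upwards [QQ_card, h1.eventually_ge_atTop 2, eventually_ge_atTop 10] with y h2 h3 hy
  have hy0 : (0 : ℝ) < y := by exact_mod_cast (by omega : 0 < y)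
  have h4 : #(QQ y) ≤ Nat.primeCounting y := by
    classical
    rw [Nat.primeCounting, Nat.primeCounting', Nat.count_eq_card_filter_range]
    apply Finset.card_le_card
    intro p hp
    unfold QQ at hp
    rw [mem_filter, mem_Ioc] at hp
    rw [mem_filter, mem_range]
    exact ⟨by omega, hp.2⟩
  have h4' : (#(QQ y) : ℝ) ≤ Nat.primeCounting y := by exact_mod_cast h4
  have h5 : (y : ℝ) / (2 * Real.log y) ≤ Nat.primeCounting y := h2.trans h4'
  rw [div_le_iff₀ (by positivity)] at h5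
  calc (y : ℝ) ≤ Nat.primeCounting y * (2 * Real.log y) := h5
    _ ≤ Nat.primeCounting y * (Real.log y * Real.log y) := by gcongr
    _ = Nat.primeCounting y * Real.log y ^ 2 := by ring

lemma pi_le_self (y : ℕ) : Nat.primeCounting y ≤ y := by
  rw [Nat.primeCounting, Nat.primeCounting', Nat.count_eq_card_filter_range]
  have h1 : (range (y + 1)).filter Nat.Prime ⊆ Icc 1 y := by
    intro p hp
    rw [mem_filter, mem_range] at hp
    rw [mem_Icc]
    exact ⟨hp.2.one_lt.le, by omega⟩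
  calc #((range (y + 1)).filter Nat.Prime) ≤ #(Icc 1 y) := Finset.card_le_card h1
    _ = y := by rw [Nat.card_Icc]; omega

/-- `p, π(p), π(π(p)), ...` are prime, up to the `k`-th iterate -/
def PI (k p : ℕ) : Prop := ∀ j ≤ k, (Nat.primeCounting^[j] p).Prime

lemma PI_density (k : ℕ) : ∃ B : ℕ, ∃ y0 : ℕ, ∀ y : ℕ, y0 ≤ y → ∃ S : Finset ℕ, S ⊆ Icc 1 y ∧
    (∀ a ∈ S, PI k a) ∧ (y : ℝ) ≤ #S * Real.log y ^ B := by
  classical
  induction k with
  | zero =>
    obtain ⟨y0, h⟩ := eventually_atTop.mp pi_lower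
    refine ⟨2, y0, fun y hy => ⟨(Icc 1 y).filter Nat.Prime, Finset.filter_subset _ _, ?_, ?_⟩⟩
    · intro a ha j hj
      have : j = 0 := by omega
      subst this
      exact (mem_filter.mp ha).2
    · refine (h y hy).trans ?_
      apply mul_le_mul_of_nonneg_right _ (by positivity)
      have : Nat.primeCounting y ≤ #((Icc 1 y).filter Nat.Prime) := by
        rw [Nat.primeCounting, Nat.primeCounting', Nat.count_eq_card_filter_range]
        apply Finset.card_le_card
        intro p hp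
        rw [mem_filter, mem_range] at hp
        rw [mem_filter, mem_Icc]
        exact ⟨⟨hp.2.one_lt.le, by omega⟩, hp.2⟩
      exact_mod_cast this
  | succ k ih =>
    obtain ⟨B, y0, hB⟩ := ih
    have ht : ∀ᶠ y : ℕ in atTop, max y0 1 ≤ Nat.primeCounting y :=
      Nat.tendsto_primeCounting.eventually_ge_atTop _
    obtain ⟨y1, h1⟩ := eventually_atTop.mp (pi_lower.and (ht.and (eventually_ge_atTop 3)))
    refine ⟨B + 2, y1, fun y hy => ?_⟩
    obtain ⟨h2, h3, h4⟩ := h1 y hy
    have h3a : y0 ≤ Nat.primeCounting y := (le_max_left _ _).trans h3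
    have h3b : 1 ≤ Nat.primeCounting y := (le_max_right _ _).trans h3
    obtain ⟨S, hS1, hS2, hS3⟩ := hB _ h3a
    have hpi : ∀ m : ℕ, 1 ≤ m → Nat.primeCounting (Nat.nth Nat.Prime (m - 1)) = m := by
      intro m hm
      rw [Nat.primeCounting, Nat.primeCounting', Nat.count_succ, ← Nat.primeCounting',
        Nat.primeCounting'_nth_eq, if_pos (Nat.prime_nth_prime _)]
      omega
    have hinj : Set.InjOn (fun m : ℕ => Nat.nth Nat.Prime (m - 1)) (S : Set ℕ) := by
      intro a ha b hb hab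
      have ha1 := (mem_Icc.mp (hS1 ha)).1
      have hb1 := (mem_Icc.mp (hS1 hb)).1
      simp only at hab
      rw [← hpi a ha1, ← hpi b hb1, hab]
    refine ⟨S.image (fun m : ℕ => Nat.nth Nat.Prime (m - 1)), ?_, ?_, ?_⟩
    · intro p hp
      obtain ⟨m, hm, rfl⟩ := mem_image.mp hp
      have hm1 := mem_Icc.mp (hS1 hm)
      rw [mem_Icc]
      refine ⟨(Nat.prime_nth_prime _).one_lt.le, ?_⟩
      have h5 : m - 1 < Nat.count Nat.Prime (y + 1) := by
        have : Nat.primeCounting y = Nat.count Nat.Prime (y + 1) := rfl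
        omega
      have h6 := Nat.nth_lt_of_lt_count h5
      omega
    · intro p hp j hj
      obtain ⟨m, hm, rfl⟩ := mem_image.mp hp
      have hm1 := mem_Icc.mp (hS1 hm)
      rcases j with _ | j
      · exact Nat.prime_nth_prime _
      · rw [Function.iterate_succ_apply, hpi m hm1.1]
        exact hS2 m hm j (by omega)
    · rw [Finset.card_image_of_injOn hinj]
      have hle : (Nat.primeCounting y : ℝ) ≤ y := by exact_mod_cast pi_le_self y
      have hge1 : (1 : ℝ) ≤ Nat.primeCounting y := by exact_mod_cast h3b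
      have hlog1 : 0 ≤ Real.log (Nat.primeCounting y) := Real.log_nonneg hge1
      have hlog2 : Real.log (Nat.primeCounting y) ≤ Real.log y :=
        Real.log_le_log (by linarith) hle
      calc (y : ℝ) ≤ Nat.primeCounting y * Real.log y ^ 2 := h2
        _ ≤ (#S * Real.log (Nat.primeCounting y) ^ B) * Real.log y ^ 2 := by gcongr
        _ ≤ (#S * Real.log y ^ B) * Real.log y ^ 2 := by gcongr
        _ = #S * Real.log y ^ (B + 2) := by ring

theorem main (k : ℕ) (hk : 1 ≤ k) : ∃ c : ℝ, 0 < c ∧ ∀ᶠ x : ℕ in atTop,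
    c * x / Real.log (Real.log (Real.log (Real.log x))) ≤
      Set.ncard {n : ℕ | 2 < n ∧ n ≤ x ∧ ∃ p : ℕ, p < 2 * n ∧
        (∀ j ≤ k, (Nat.primeCounting^[j] p).Prime) ∧ (2 * n - p).Prime} := by
  obtain ⟨B, hB⟩ := PI_density k
  have hA : ∀ a ∈ {p : ℕ | PI k p}, 3 ≤ a ∧ a % 2 = 1 := by
    intro a ha
    have h0 : a.Prime := ha 0 (by omega)
    have h1 : (Nat.primeCounting a).Prime := ha 1 hk
    have h2 : a ≠ 2 := by
      rintro rfl
      have : Nat.primeCounting 2 = 1 := by decide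
      rw [this] at h1
      exact Nat.not_prime_one h1
    have h3 := h0.two_le
    rcases h0.eq_two_or_odd with h | h
    · exact absurd h h2
    · exact ⟨by omega, h⟩
  obtain ⟨c, hc, x0, hx0⟩ := romanoff B {p : ℕ | PI k p} hA hB
  refine ⟨c, hc, eventually_atTop.mpr ⟨x0, fun x hx => ?_⟩⟩
  obtain ⟨T, hT1, hT2, hT3⟩ := hx0 x hx
  refine hT3.trans ?_
  have hfin : {n : ℕ | 2 < n ∧ n ≤ x ∧ ∃ p : ℕ, p < 2 * n ∧
        (∀ j ≤ k, (Nat.primeCounting^[j] p).Prime) ∧ (2 * n - p).Prime}.Finite :=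
    (Set.finite_Iic x).subset (fun n hn => hn.2.1)
  have hsub : (T : Set ℕ) ⊆ {n : ℕ | 2 < n ∧ n ≤ x ∧ ∃ p : ℕ, p < 2 * n ∧
        (∀ j ≤ k, (Nat.primeCounting^[j] p).Prime) ∧ (2 * n - p).Prime} := by
    intro n hn
    have h1 := mem_Icc.mp (hT1 hn)
    obtain ⟨a, ha, q, hq, hqa⟩ := hT2 n hn
    refine ⟨by omega, h1.2, a, ?_, ha, ?_⟩
    · have := hq.pos
      omega
    · have : 2 * n - a = q := by omega
      rw [this]
      exact hq
  have h5 := Set.ncard_le_ncard hsub hfin
  rw [Set.ncard_coe_finset] at h5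
  exact_mod_cast h5

end Pool.Agent.H197R2.PG
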